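import Pool.Agent.Lib.MP_7903c7_al.D.Loop
import Pool.Agent.Lib.MP_7903c7_al.RF.Abc

set_option autoImplicit false

/-!
Nilpotence on the lists of good loops kills the trace.
-/

namespace Pool.Agent.Lib.MP_7903c7_al.D

open Finset RF LS.CutCore
open scoped Classical Pointwise

namespace Abc0

variable {G I Λ : Type} [Group G] [Fintype I] [DecidableEq I] [CommRing Λ] {d : Dat G I Λ} {N : ℕ}

/-- The chain of a list of sequences. -/
noncomputable def Ps (Λ : Type) [CommRing Λ] (N : ℕ) (l : List (ℤ → G)) : Ch (Pt G N) Λ :=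
  Finsupp.single (l.map (mk N)) 1

/-- Invariant linear forms. -/
def Iv (C : Subgroup G) (φ : Ch (Pt G N) Λ →ₗ[Λ] Λ) : Prop :=
  ∀ c ∈ C, ∀ x, φ (tr (fun v => c • v) x) = φ x

theorem Iv.ps {C : Subgroup G} {φ : Ch (Pt G N) Λ →ₗ[Λ] Λ} (h : Iv C φ) {c : G} (hc : c ∈ C)
    (l : List (ℤ → G)) : φ (Ps Λ N (l.map fun γ t => c * γ t)) = φ (Ps Λ N l) := by
  rw [← h c hc (Ps Λ N l), Ps, Ps, tr_single, List.map_map, List.map_map]
  rfl

theorem Iv.pow {C : Subgroup G} {φ : Ch (Pt G N) Λ →ₗ[Λ] Λ} (h : Iv C φ) (r : ℕ) :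
    Iv C (φ ∘ₗ (tm Λ (rt G N) ^ r)) := fun c hc x => by
  have k : Function.Commute (rt G N) fun v => c • v := fun v => Quotient.inductionOn v fun _ => rfl
  rw [CutB.tm_pow, LinearMap.comp_apply, LinearMap.comp_apply, tr_tr, (k.iterate_left r).comp_eq,
    ← tr_tr, h c hc]

theorem face' (hN : 0 < N) {φ : Ch (Pt G N) Λ →ₗ[Λ] Λ} (h : Iv d.C φ) {D m j : ℕ}
    {A : Set (ℕ → ℤ)} (hA : Cell N (D + 1) m A) (hj : j ≤ D + 1) :
    φ (Finsupp.mapDomain (fun l => l.eraseIdx j) (Phi d (Ps Λ N) N (D + 1) A)) =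
      φ (Phi d (Ps Λ N) N D (pull (face (D + 1) j) A)) := by
  have h1 := int_map d (φ ∘ₗ Finsupp.lmapDomain Λ Λ fun l : List (Pt G N) => l.eraseIdx j)
    (M := N * (D + 1 + 1)) (by positivity) (pat (D + 1) A) fun Γ => Ps Λ N (lst (D + 1) Γ)
  have h2 := int_contract d (N * (D + 1 + 1)) (N * (D + 1)) (by positivity) (skip D j)
    (skip_mono D j) (skip_per D j N) (pat (D + 1) A) (pat_per hA) (fun Γ => φ (Ps Λ N (lst D Γ)))
    (fun x _ c hc => by rw [lst_mul, h.ps hc])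
  unfold Phi
  rw [int_map d φ (M := N * (D + 1)) (by positivity),
    ← int_congr d _ (pat_skip (j := j) fun τ hτ => hA.traj hτ) fun _ _ => rfl, ← h2]
  refine h1.trans (int_congr d _ (fun _ => Iff.rfl) fun x _ => ?_)
  rw [lst_skip hj, LinearMap.comp_apply, Finsupp.lmapDomain_apply, Ps, Ps,
    Finsupp.mapDomain_single, List.eraseIdx_map]

theorem sh' (hN : 0 < N) {φ : Ch (Pt G N) Λ →ₗ[Λ] Λ} (h : Iv d.C φ) {D m : ℕ}
    {A : Set (ℕ → ℤ)} (hA : Cell N D m A) :
    φ (tm Λ (rt G N) (Phi d (Ps Λ N) N D A)) = φ (Phi d (Ps Λ N) N D (sh A)) := by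
  have h1 := int_map d (φ ∘ₗ tm Λ (rt G N)) (M := N * (D + 1)) (by positivity) (pat D A)
    fun Γ => Ps Λ N (lst D Γ)
  have h2 := int_contract d (N * (D + 1)) (N * (D + 1)) (by positivity)
    (fun s => s - (D + 1 : ℕ)) (fun a b h => by simpa using h) (fun i => by ring) (pat D A)
    (pat_per hA) (fun Γ => φ (Ps Λ N (lst D Γ))) (fun x _ c hc => by rw [lst_mul, h.ps hc])
  unfold Phi
  rw [int_map d φ (M := N * (D + 1)) (by positivity),
    ← int_congr d _ (pat_sh D A) fun _ _ => rfl, ← h2]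
  refine h1.trans (int_congr d _ (fun _ => Iff.rfl) fun x _ => ?_)
  rw [lst_sh, LinearMap.comp_apply, CutB.tm_eq, Ps, Ps, tr_single, List.map_map, List.map_map]
  rfl

theorem sg_len {P : Type} {n : ℕ} {x : Ch P Λ} (h : ∀ l ∈ x.support, l.length = n) :
    sg x = (-1 : Λ) ^ n • x :=
  app_on (f := sg) (g := (-1 : Λ) ^ n • LinearMap.id) (S := {l | l.length = n})
    (fun l hl => by
      rw [sg_single, show l.length = n from hl, LinearMap.smul_apply, LinearMap.id_apply,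
        Finsupp.smul_single, smul_eq_mul]) h

theorem fin (d : Dat G I Λ) (S : Finset G) (h1 : (1 : G) ∈ S) {p J : ℕ} (hJ : (p : Λ) ^ J = 0)
    (hfil : ∀ h j, h ∉ (S : Set G) ^ (2 * j + 1) →
      ∀ i i', ∃ y, d.E h i i' = (p : Λ) ^ (j + 1) * y)
    (N L k : ℕ) (hN0 : 0 < N) (hN : (N : Λ) = 0) (hL : 2 * J + (4 * k + 1) ≤ L) (a : Λ)
    (hI : Inv (rt G N) d.C (GG d.g S N L (4 * k + 1)))
    (H : Nil (rt G N) N d.g d.C (GG d.g S N L (4 * k + 1)) a k) :
    a * ((d.C.relIndex (Subgroup.centralizer {d.g}) : Λ) * d.tr) = 0 := by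
  obtain ⟨b, ⟨b1, b2, -⟩, hb⟩ := H d.C le_rfl d.comm d.gC Λ (Representation.trivial Λ d.C Λ) rfl
    _ ∅ hI ⟨⟨fun _ h => h, fun _ h => h.elim⟩, fun _ _ _ h => h⟩ (Set.empty_subset _)
    Set.diff_subset (2 * k) (fun j => if j = 2 * k then LS.CutCore.eps else 0)
    ⟨fun j c x => by dsimp only; split_ifs <;> simp [eps_tr], fun j hj => if_neg hj.ne', fun _ _ h => h.elim⟩
    (fun j l _ => by
      have e1 : ∀ x : Ch (Pt G N) Λ,
          (if j = 2 * (k : ℤ) then LS.CutCore.eps else 0) (LS.CutCore.bd x) = (0 : Λ) := fun x => by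
        split_ifs <;> simp [eps_bd]
      simp only [Dc, LinearMap.sub_apply, LinearMap.comp_apply, e1, zero_sub, neg_eq_zero]
      split_ifs with h
      · rw [h, eps_sg, LS.CutCore.dd, if_pos (even_two_mul _)]
        simp only [LinearMap.sum_apply, map_sum, eps_tr, sum_const, card_range, nsmul_eq_mul, hN,
          zero_mul, neg_zero]
      · rfl)
  have bi : ∀ j, Iv d.C (b j) := fun j c hc x => b1 j ⟨c, hc⟩ x
  obtain ⟨c, c0, cs, cD⟩ := hfp N hN0
  let Φ : ℕ → (Set (ℕ → ℤ) →₀ ℤ) →ₗ[ℤ] Ch (Pt G N) Λ := fun D =>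
    Finsupp.linearCombination ℤ (Phi d (Ps Λ N) N D)
  have Φ1 : ∀ D A, Φ D (Finsupp.single A 1) = Phi d (Ps Λ N) N D A := fun D A => by
    simp only [Φ, Finsupp.linearCombination_single, one_smul]
  have ps : ∀ {l : List (ℤ → G)} {l'}, l' ∈ (Ps Λ N l).support → l' = l.map (mk N) := fun h =>
    mem_singleton.1 (Finsupp.support_single_subset h)
  have hsup : ∀ j, ∀ l ∈ (Φ j (c j)).support, ∃ A Γ, Cell N j (2 * j + 1) A ∧
      IsLoop d.g (N * (j + 1)) Γ ∧ amp d.E (N * (j + 1)) (pat j A) Γ ≠ 0 ∧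
      l = (lst j Γ).map (mk N) := by
    intro j l hl
    simp only [Φ, Finsupp.linearCombination_apply] at hl
    obtain ⟨A, hA, hl'⟩ := mem_biUnion.mp (Finsupp.support_sum hl)
    obtain ⟨Γ, h2, h3, h4⟩ := int_supp d (by positivity) _ _ (Finsupp.support_smul hl')
    exact ⟨A, Γ, cs j A hA, h2, h3, ps h4⟩
  have hlen : ∀ j, ∀ l ∈ (Φ j (c j)).support, l.length = j + 1 := fun j l hl => by
    obtain ⟨A, Γ, -, -, -, rfl⟩ := hsup j l hl
    rw [List.length_map, lst_length]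
  have hplen : ∀ D A, ∀ l ∈ (Phi d (Ps Λ N) N D A).support, l.length = D + 1 := by
    intro D A l hl
    obtain ⟨Γ, -, -, h4⟩ := int_supp d (by positivity) _ _ hl
    rw [ps h4, List.length_map, lst_length]
  have hpow : ∀ i D m r A, Cell N D m A → b i (Φ D ((shm ^ r) (Finsupp.single A 1))) =
      b i ((tm Λ (rt G N) ^ r) (Phi d (Ps Λ N) N D A)) := by
    intro i D m r
    induction r with
    | zero => intro A _; simp [Φ1]
    | succ r ih =>
      intro A hA
      rw [pow_succ, pow_succ, Module.End.mul_apply, Module.End.mul_apply]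
      refine Eq.trans ?_ (sh' hN0 ((bi i).pow r) hA).symm
      rw [LinearMap.comp_apply, ← ih _ hA.sh]
      simp only [shm, Finsupp.lmapDomain_apply, Finsupp.mapDomain_single]
  have hD : ∀ i (j : ℕ), b i (LS.CutCore.bd (Φ (j + 1) (c (j + 1)))) =
      b i (sg (LS.CutCore.dd (rt G N) N (j + 1 : ℕ) (Φ j (c j)))) := by
    intro i j
    have e1 : b i (RF.bd _ Λ (Φ (j + 1) (c (j + 1)))) = b i (Φ j (cbd (j + 1) (c (j + 1)))) := by
      refine lin_eq ((b i).toAddMonoidHom.comp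
          ((RF.bd _ Λ).toAddMonoidHom.comp (Φ (j + 1)).toAddMonoidHom))
        ((b i).toAddMonoidHom.comp ((Φ j).toAddMonoidHom.comp (cbd (j + 1)).toAddMonoidHom))
        fun A hA => ?_
      simp only [AddMonoidHom.comp_apply, LinearMap.toAddMonoidHom_coe, Φ1]
      rw [bd_eq (n := j + 1 + 1) (by omega) _ (hplen _ _)]
      simp only [cbd, LinearMap.sum_apply, LinearMap.smul_apply, map_sum, map_zsmul, map_smul,
        Finsupp.lmapDomain_apply, Finsupp.mapDomain_single, Φ1]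
      refine sum_congr rfl fun i' hi => ?_
      rw [face' hN0 (bi i) (cs _ A hA) (by have := mem_range.mp hi; omega)]
      simp
    have e2 : b i (Φ j (RF.dd shm N (j + 1) (c j))) =
        b i (RF.dd (tm Λ (rt G N)) N (j + 1) (Φ j (c j))) := by
      refine lin_eq ((b i).toAddMonoidHom.comp
          ((Φ j).toAddMonoidHom.comp (RF.dd shm N (j + 1)).toAddMonoidHom))
        ((b i).toAddMonoidHom.comp
          ((RF.dd (tm Λ (rt G N)) N (j + 1)).toAddMonoidHom.comp (Φ j).toAddMonoidHom))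
        fun A hA => ?_
      simp only [AddMonoidHom.comp_apply, LinearMap.toAddMonoidHom_coe, Φ1]
      unfold RF.dd
      split_ifs
      · simp only [LinearMap.sum_apply, map_sum]
        exact sum_congr rfl fun r _ => hpow _ _ _ r A (cs _ A hA)
      · have := hpow i _ _ 1 A (cs _ A hA)
        rw [pow_one, pow_one] at this
        simp only [LinearMap.sub_apply, map_sub, Module.End.one_apply, this, Φ1]
    rw [← CutB.bd_eq, e1, cD, map_zsmul, map_zsmul, e2, CutB.dd_eq, ← dd_sg, sg_len (hlen j),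
      map_smul, map_smul]
    simp
  have hG : ∀ j ≤ 2 * k, Φ j (c j) ∈ Finsupp.supported Λ Λ (GG d.g S N L (4 * k + 1)) := by
    intro j hj l hl
    obtain ⟨A, Γ, h2, h3, h4, rfl⟩ := hsup j l hl
    have hc : ((range (N * (j + 1))).filter fun i : ℕ => pat j A i).card ≤ 4 * k + 1 :=
      (pat_card h2).trans (by omega)
    obtain ⟨h6, ℓ, h7⟩ := amp_len d.E S h1 hJ hfil d.g _ _ (by positivity) _ (pat_per h2) hc Γ
      h3 h4
    obtain ⟨γ, hγ⟩ := List.exists_mem_of_length_pos (l := lst j Γ) (by rw [lst_length]; omega)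
    exact ⟨_, rfl, lst_good h3 ⟨h7.1, h7.2.1, h7.2.2.trans hL⟩, lst_near h6 hc, γ, hγ, trivial⟩
  have st : ∀ j ≤ 2 * k, b j (LS.CutCore.bd (Φ j (c j))) -
      b (j + 1 : ℕ) (LS.CutCore.bd (Φ (j + 1) (c (j + 1)))) =
      a • (if (j : ℤ) + 2 * k = 2 * k then LS.CutCore.eps else 0) (Φ j (c j)) := fun j hj => by
    rw [hD, Nat.cast_succ]
    exact app_on (f := Dc (rt G N) N b j)
      (g := a • if (j : ℤ) + 2 * k = 2 * k then LS.CutCore.eps else 0) (hb j) (hG j hj)
  have dn : ∀ i j : ℕ, j + 1 + i = 2 * k + 1 →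
      b (j + 1 : ℕ) (LS.CutCore.bd (Φ (j + 1) (c (j + 1)))) = 0 := by
    intro i
    induction i with
    | zero => intro j hj; rw [b2 _ (by omega), LinearMap.zero_apply]
    | succ i ih =>
      intro j hj
      have := st (j + 1) (by omega)
      rwa [ih (j + 1) (by omega), if_neg (by omega), sub_zero, LinearMap.zero_apply,
        smul_zero] at this
  have := st 0 (by omega)
  rw [dn (2 * k) 0 (by omega), if_pos (by omega), app_on (f := LS.CutCore.bd) (g := 0)
    (S := {l | l.length = 0 + 1}) (fun l hl => bd_short (le_of_eq hl) 1) (hlen 0), c0, Φ1,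
    ← CutB.eps_eq, phi_pt hN0 fun γ _ => by rw [CutB.eps_eq]; exact eps_one _ _] at this
  simpa using this.symm

end Abc0

variable {G : Type} [Group G]

theorem nil_final {I Λ : Type} [Fintype I] [DecidableEq I] [CommRing Λ] (d : Dat G I Λ)
    (S : Finset G) (h1 : (1 : G) ∈ S) {p J : ℕ} (hJ : (p : Λ) ^ J = 0)
    (hfil : ∀ h j, h ∉ (S : Set G) ^ (2 * j + 1) →
      ∀ i i', ∃ y, d.E h i i' = (p : Λ) ^ (j + 1) * y)
    (N L k : ℕ) (hN0 : 0 < N) (hN : (N : Λ) = 0) (hL : 2 * J + (4 * k + 1) ≤ L) (a : Λ)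
    (H : Nil (rt G N) N d.g d.C (GG d.g S N L (4 * k + 1)) a k) :
    a * ((d.C.relIndex (Subgroup.centralizer {d.g}) : Λ) * d.tr) = 0 :=
  Abc0.fin d S h1 hJ hfil N L k hN0 hN hL a (GG_inv S N L _ d.comm) H

end Pool.Agent.Lib.MP_7903c7_al.D
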