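import Pool.Agent.Lib.MP_7903c7_al.D.Defs

set_option autoImplicit false

/-!
Formal properties of nilpotence: monotonicity, padding, unions and cuts.
-/

namespace Pool.Agent.Lib.MP_7903c7_al.D

open Finset RF LS.CutCore
open scoped Classical Pointwise

section alg
variable {G P Λ : Type} [Group G] [MulAction G P] [CommRing Λ] {T : P → P} {N : ℕ} {g : G}

namespace Alg1

variable {V : Type} [AddCommGroup V] [Module Λ V]

theorem Dc_app (f : ℤ → (Ch P Λ →ₗ[Λ] V)) (j : ℤ) (x : Ch P Λ) :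
    Dc T N f j x = f j (LS.CutCore.bd x) - f (j + 1) (sg (LS.CutCore.dd T N (j + 1) x)) := rfl

theorem dd_shift (j : ℤ) (k : ℕ) :
    LS.CutCore.dd (Λ := Λ) T N (j + 2 * k + 1) = LS.CutCore.dd T N (j + 1) := by
  have e : Even (j + 2 * k + 1) ↔ Even (j + 1) := by
    rw [add_right_comm, Int.even_add]
    simp
  simp only [LS.CutCore.dd, e]

theorem Dc_pad (f : ℤ → (Ch P Λ →ₗ[Λ] V)) (a : Λ) (k : ℕ) (j : ℤ) (x : Ch P Λ) :
    Dc T N (fun i => a • f (i + 2 * k)) j x = a • Dc T N f (j + 2 * k) x := by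
  simp only [Dc_app, LinearMap.smul_apply, dd_shift, smul_sub, add_right_comm j 1]

theorem Dc_add (f f' : ℤ → (Ch P Λ →ₗ[Λ] V)) (j : ℤ) (x : Ch P Λ) :
    Dc T N (fun i => f i + f' i) j x = Dc T N f j x + Dc T N f' j x := by
  simp only [Dc_app, LinearMap.add_apply]
  abel

theorem Dc_sub (f f' : ℤ → (Ch P Λ →ₗ[Λ] V)) (j : ℤ) (x : Ch P Λ) :
    Dc T N (fun i => f i - f' i) j x = Dc T N f j x - Dc T N f' j x := by
  simp only [Dc_app, LinearMap.sub_apply]
  abel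

theorem Dc_Dc (hT : T^[N] = id) (f : ℤ → (Ch P Λ →ₗ[Λ] V)) (j : ℤ) (x : Ch P Λ) :
    Dc T N (Dc T N f) j x = 0 := by
  have e := dd_dd (Λ := Λ) hT (j + 1 + 1) x
  rw [add_sub_cancel_right] at e
  simp only [Dc_app, bd_bd, bd_sg, bd_dd, dd_sg, e, map_zero, map_neg]
  abel

theorem zero_on {f : Ch P Λ →ₗ[Λ] V} {B : Set (List P)} (h : ∀ l ∈ B, f (Finsupp.single l 1) = 0)
    {x : Ch P Λ} (hx : x ∈ Finsupp.supported Λ Λ B) : f x = 0 :=
  app_on (f := f) (g := 0) h hx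

theorem Dc_zero_on {f : ℤ → (Ch P Λ →ₗ[Λ] V)} {B : Set (List P)} (hB : Clo T B)
    (h : ∀ j, ∀ l ∈ B, f j (Finsupp.single l 1) = 0) (j : ℤ) {x : Ch P Λ}
    (hx : x ∈ Finsupp.supported Λ Λ B) : Dc T N f j x = 0 := by
  rw [Dc_app, zero_on (h j) (hB.bd hx), zero_on (h _) (sg_on (hB.dd _ hx)), sub_zero]

theorem it_comm {U : P → P} (h : ∀ v, T (U v) = U (T v)) (n : ℕ) (v : P) :
    T^[n] (U v) = U (T^[n] v) := Function.Commute.iterate_left (f := T) (g := U) h n v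

theorem tr_comm {U : P → P} (h : ∀ v, T (U v) = U (T v)) (n : ℕ) (x : Ch P Λ) :
    tr T^[n] (tr U x) = tr U (tr T^[n] x) := by
  rw [tr_tr, tr_tr]
  congr 2
  exact funext fun v => it_comm h n v

theorem dd_tr {U : P → P} (h : ∀ v, T (U v) = U (T v)) (i : ℤ) (x : Ch P Λ) :
    LS.CutCore.dd T N i (tr U x) = tr U (LS.CutCore.dd T N i x) := by
  unfold LS.CutCore.dd
  split_ifs
  · simp only [LinearMap.sum_apply, map_sum, tr_comm h]
  · simp only [LinearMap.sub_apply, LinearMap.id_apply, map_sub]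
    rw [show tr T (tr U x) = tr U (tr T x) from tr_comm h 1 x]

theorem io_tr {U : P → P} {al : P → P → Λ} (h : ∀ u v, al (U u) (U v) = al u v) (x : Ch P Λ) :
    io al (tr U x) = tr U (io al x) :=
  app (f := io al ∘ₗ tr U) (g := tr U ∘ₗ io al) (ext1 fun l => by
    rcases l with _ | ⟨a, _ | ⟨b, l⟩⟩ <;> simp [h]) x

theorem nu_tr {U : P → P} {be : P → Λ} (h : ∀ v, T (U v) = U (T v)) (hbe : ∀ v, be (U v) = be v)
    (i : ℤ) (x : Ch P Λ) : nu T N be i (tr U x) = tr U (nu T N be i x) := by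
  have e1 : be ∘ U = be := funext hbe
  have e2 : ∀ n, LS.CutCore.ps T be n ∘ U = LS.CutCore.ps T be n := fun n => funext fun v => by
    simp only [Function.comp_apply, LS.CutCore.ps, it_comm h, hbe]
  unfold nu
  split_ifs
  · simp only [LinearMap.sum_apply, LinearMap.comp_apply, map_sum, mu_tr, e2, tr_comm h]
  · simp only [LinearMap.comp_apply, mu_tr, e1]
    exact tr_comm h 1 _

theorem inv_union {C : Subgroup G} {A B : Set (List P)} (hA : Inv T C A) (hB : Inv T C B) :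
    Inv T C (A ∪ B) :=
  ⟨⟨fun l hl => hl.imp (hA.1.map l) (hB.1.map l),
    fun l hl l' h0 h1 => hl.imp (fun h => hA.1.sub l h l' h0 h1) fun h => hB.1.sub l h l' h0 h1⟩,
    fun c hc l hl => hl.imp (hA.2 c hc l) (hB.2 c hc l)⟩

theorem inv_inter {C : Subgroup G} {A B : Set (List P)} (hA : Inv T C A) (hB : Inv T C B) :
    Inv T C (A ∩ B) :=
  ⟨⟨fun l hl => hl.imp (hA.1.map l) (hB.1.map l),
    fun l hl l' h0 h1 => hl.imp (fun h => hA.1.sub l h l' h0 h1) fun h => hB.1.sub l h l' h0 h1⟩,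
    fun c hc l hl => hl.imp (hA.2 c hc l) (hB.2 c hc l)⟩

theorem inv_mono {C C' : Subgroup G} {A : Set (List P)} (hA : Inv T C A) (h : C' ≤ C) :
    Inv T C' A := ⟨hA.1, fun c hc => hA.2 c (h hc)⟩

theorem inv_empty {C : Subgroup G} : Inv T C (∅ : Set (List P)) :=
  ⟨⟨fun _ hl => hl.elim, fun _ hl => hl.elim⟩, fun _ _ _ hl => hl.elim⟩

variable {H : Subgroup G} {ρ : Representation Λ H V} {top : ℤ} {B : Set (List P)}

theorem coc_pad {f : ℤ → (Ch P Λ →ₗ[Λ] V)} (h : Coc H ρ top B f) (a : Λ) (k : ℕ) :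
    Coc H ρ top B fun i => a • f (i + 2 * k) :=
  ⟨fun j c x => by simp only [LinearMap.smul_apply, h.1, map_smul],
    fun j hj => by simp only [h.2.1 (j + 2 * k) (by omega), smul_zero],
    fun j l hl => by simp only [LinearMap.smul_apply, h.2.2 _ l hl, smul_zero]⟩

theorem coc_zero : Coc H ρ top B fun _ => (0 : Ch P Λ →ₗ[Λ] V) :=
  ⟨fun _ _ _ => by simp, fun _ _ => rfl, fun _ _ _ => rfl⟩

end Alg1

open Alg1

theorem Nil.mono {C C' : Subgroup G} {W W' : Set (List P)} {a : Λ} {k : ℕ}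
    (h : Nil T N g C W a k) (hC : C' ≤ C) (hW : W' ⊆ W) : Nil T N g C' W' a k :=
  fun H hH hc hg V _ _ ρ hρ A B hA hB hBA hAB =>
    h H (hH.trans hC) hc hg V ρ hρ A B hA hB hBA (hAB.trans hW)

theorem Nil.inf {C : Subgroup G} {W : Set (List P)} {a : Λ} {k : ℕ}
    (h : Nil T N g (C ⊓ Subgroup.centralizer {g}) W a k) : Nil T N g C W a k :=
  fun H hH hc hg V _ _ ρ hρ A B hA hB hBA hAB =>
    h H (le_inf hH fun c hc' => Subgroup.mem_centralizer_singleton_iff.2 (hc c hc')) hc hg V ρ hρ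
      A B hA hB hBA hAB

theorem Nil.pad {C : Subgroup G} {W : Set (List P)} {a : Λ} {k : ℕ}
    (h : Nil T N g C W a k) (a' : Λ) (k' : ℕ) : Nil T N g C W (a' * a) (k + k') := by
  intro H hH hc hg V _ _ ρ hρ A B hA hB hBA hAB top f hf hD
  obtain ⟨b, hb, e⟩ := h H hH hc hg V ρ hρ A B hA hB hBA hAB top f hf hD
  refine ⟨_, coc_pad hb a' k', fun j l hl => ?_⟩
  rw [Dc_pad, e _ l hl, mul_smul, show j + 2 * (k' : ℤ) + 2 * k = j + 2 * ((k + k' : ℕ) : ℤ) by
    push_cast; ring]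

theorem Nil.union (hT : T^[N] = id) (hc : ∀ (c : G) v, T (c • v) = c • T v) {C : Subgroup G}
    {W W' : Set (List P)} {a a' : Λ} {k k' : ℕ} (h0 : Inv T C W) (h : Nil T N g C W a k)
    (h' : Nil T N g C W' a' k') : Nil T N g C (W ∪ W') (a * a') (k + k') := by
  intro H hH hcg hg V _ _ ρ hρ A B hA hB hBA hAB top f hf hD
  have hM : Inv T H (B ∪ A ∩ W) := inv_union hB (inv_inter hA (inv_mono h0 hH))
  have hMA : B ∪ A ∩ W ⊆ A := Set.union_subset hBA Set.inter_subset_left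
  obtain ⟨b, hb, e⟩ := h H hH hcg hg V ρ hρ _ B hM hB Set.subset_union_left
    (fun l hl => (hl.1.resolve_left hl.2).2) top f hf fun j l hl => hD j l (hMA hl)
  have hf' : Coc H ρ top (B ∪ A ∩ W) fun i => a • f (i + 2 * k) - Dc T N b i := by
    refine ⟨fun j c x => ?_, fun j hj => ?_, fun j l hl => ?_⟩
    · simp only [LinearMap.sub_apply, LinearMap.smul_apply, Dc_app, hf.1, bd_tr,
        dd_tr (hc (c : G)), ← tr_sg, hb.1, map_sub, map_smul]
    · simp only [Dc, hf.2.1 (j + 2 * k) (by omega), hb.2.1 j hj, hb.2.1 (j + 1) (by omega),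
        smul_zero, LinearMap.zero_comp, sub_zero]
    · simp only [LinearMap.sub_apply, LinearMap.smul_apply, e j l hl, sub_self]
  obtain ⟨b', hb', e'⟩ := h' H hH hcg hg V ρ hρ A _ hA hM hMA
    (fun l hl => (hAB ⟨hl.1, fun hl' => hl.2 (Or.inl hl')⟩).resolve_left
      fun hl' => hl.2 (Or.inr ⟨hl.1, hl'⟩)) top _ hf' fun j l hl => by
        rw [Dc_sub, Dc_pad, Dc_Dc hT, hD _ l hl, smul_zero, sub_zero]
  have hp := coc_pad hb a' k'
  refine ⟨fun i => a' • b (i + 2 * k') + b' i, ⟨fun j c x => ?_, fun j hj => ?_,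
    fun j l hl => ?_⟩, fun j l hl => ?_⟩
  · simp only [LinearMap.add_apply, hp.1 j c x, hb'.1, map_add]
  · simp only [hp.2.1 j hj, hb'.2.1 j hj, add_zero]
  · simp only [LinearMap.add_apply, hp.2.2 j l hl, hb'.2.2 j l (Or.inl hl), add_zero]
  · rw [Dc_add, Dc_pad, e' j l hl, LinearMap.sub_apply, LinearMap.smul_apply, smul_sub,
      add_sub_cancel, mul_comm a a', mul_smul,
      show j + 2 * (k' : ℤ) + 2 * k = j + 2 * ((k + k' : ℕ) : ℤ) by push_cast; ring]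

theorem Nil.empty {C : Subgroup G} (a : Λ) (k : ℕ) : Nil T N g C (∅ : Set (List P)) a k := by
  intro H _ _ _ V _ _ ρ _ A B _ _ _ hAB top f hf _
  refine ⟨_, coc_zero, fun j l hl => ?_⟩
  have : l ∈ B := by_contra fun h => hAB ⟨hl, h⟩
  simp only [Dc_app, LinearMap.zero_apply, hf.2.2 _ l this, smul_zero, sub_zero]

theorem Nil.biUnion (hT : T^[N] = id) (hc : ∀ (c : G) v, T (c • v) = c • T v) {C : Subgroup G}
    {ι : Type} (s : Finset ι) (W : ι → Set (List P)) (a : ι → Λ) (k : ι → ℕ)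
    (h0 : ∀ i ∈ s, Inv T C (W i)) (h : ∀ i ∈ s, Nil T N g C (W i) (a i) (k i)) :
    Inv T C (⋃ i ∈ s, W i) ∧ Nil T N g C (⋃ i ∈ s, W i) (∏ i ∈ s, a i) (∑ i ∈ s, k i) := by
  induction s using Finset.induction_on with
  | empty =>
    have e : (⋃ i ∈ (∅ : Finset ι), W i) = ∅ := by simp
    rw [e]
    exact ⟨inv_empty, Nil.empty _ _⟩
  | insert i s hi ih =>
    obtain ⟨h1, h2⟩ := ih (fun j hj => h0 j (mem_insert_of_mem hj))
      fun j hj => h j (mem_insert_of_mem hj)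
    rw [Finset.set_biUnion_insert, prod_insert hi, sum_insert hi]
    exact ⟨inv_union (h0 i (mem_insert_self _ _)) h1,
      Nil.union hT hc (h0 i (mem_insert_self _ _)) (h i (mem_insert_self _ _)) h2⟩

theorem Nil.cut (hT : T^[N] = id) (hc : ∀ (c : G) v, T (c • v) = c • T v) {C : Subgroup G}
    {r : P → P → Prop} {a : Λ} {al : P → P → Λ} {be : P → Λ} (h : Cut T N r a al be)
    (hal : ∀ c ∈ C, ∀ u v, al (c • u) (c • v) = al u v) (hbe : ∀ c ∈ C, ∀ v, be (c • v) = be v) :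
    Nil T N g C (Gl r) a 1 := by
  intro H hH _ hg V _ _ ρ _ A B hA hB _ hAB top f hf hD
  have hb : Coc H ρ top B fun j => f j ∘ₗ io al - f (j + 1) ∘ₗ sg ∘ₗ nu T N be (j + 1) := by
    refine ⟨fun j c x => ?_, fun j hj => ?_, fun j l hl => ?_⟩
    · simp only [LinearMap.sub_apply, LinearMap.comp_apply, io_tr (hal c (hH c.2)),
        nu_tr (hc (c : G)) (hbe c (hH c.2)), ← tr_sg, hf.1, map_sub]
    · simp only [hf.2.1 j hj, hf.2.1 (j + 1) (by omega), LinearMap.zero_comp, sub_zero]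
    · have hx : Finsupp.single l (1 : Λ) ∈ Finsupp.supported Λ Λ B :=
        Finsupp.single_mem_supported _ _ hl
      simp only [LinearMap.sub_apply, LinearMap.comp_apply, zero_on (hf.2.2 j) (hB.1.io al hx),
        zero_on (hf.2.2 (j + 1)) (sg_on (hB.1.nu be (j + 1) hx)), sub_zero]
  refine ⟨_, hb, fun j l hl => ?_⟩
  by_cases hlB : l ∈ B
  · rw [Dc_zero_on hB.1 hb.2.2 j (Finsupp.single_mem_supported _ _ hlB), hf.2.2 _ l hlB, smul_zero]
  have hx : Finsupp.single l (1 : Λ) ∈ Finsupp.supported Λ Λ A :=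
    Finsupp.single_mem_supported _ _ hl
  have hx' : Finsupp.single l (1 : Λ) ∈ Finsupp.supported Λ Λ (Gl r) :=
    Finsupp.single_mem_supported _ _ (hAB ⟨hl, hlB⟩)
  generalize Finsupp.single l (1 : Λ) = x at hx hx'
  have e1 := zero_on (hD j) (hA.1.io al hx)
  have e2 := zero_on (hD (j + 1)) (sg_on (hA.1.nu (N := N) be (j + 1) hx))
  have e3 := h.r3 hT hx' (j + 1 + 1)
  rw [add_sub_cancel_right] at e3
  rw [show j + 2 * ((1 : ℕ) : ℤ) = j + 1 + 1 by push_cast; ring, ← map_smul, ← e3]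
  simp only [Dc_app, h.r1 hx', bd_sg, dd_sg, sg_sg, h.r2 hx', map_neg, map_add, map_sub] at e1 e2
  simp only [Dc_app, LinearMap.sub_apply, LinearMap.comp_apply, io_sg, nu_sg, sg_sg, map_neg,
    map_add]
  linear_combination (norm := abel) - e1 + e2

end alg

end Pool.Agent.Lib.MP_7903c7_al.D
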