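import Pool.Agent.Lib.MP_7903c7_al.D.Defs

set_option autoImplicit false

/-!
Coinduction, retracts and subgroups of finite index.
-/

namespace Pool.Agent.Lib.MP_7903c7_al.D

open Finset RF LS.CutCore
open scoped Classical Pointwise

namespace Alg2

theorem choose_congr {Z : Type} {p q : Z → Prop} (hp : ∃ z, p z) (hq : ∃ z, q z) (h : p = q) :
    hp.choose = hq.choose := by
  subst h
  rfl

/-- Equivariant choice: one solution on each orbit, fixed by the stabiliser, is spread out. -/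
theorem tool {Γ Y W : Type} [Group Γ] (a : Γ →* Equiv.Perm Y) (m : Γ → W → W)
    (hm : ∀ c d w, m (c * d) w = m c (m d w)) (R : Y → W → Prop)
    (hR : ∀ c y w, R y w → R (a c y) (m c w))
    (h : ∀ y, ∃ c w, R (a c y) w ∧ ∀ d, a d (a c y) = a c y → m d w = w) :
    ∃ β : Y → W, (∀ y, R y (β y)) ∧ ∀ c y, β (a c y) = m c (β y) := by
  let p : Y → Y × W → Prop := fun y z =>
    (∃ c, a c z.1 = y) ∧ R z.1 z.2 ∧ ∀ d, a d z.1 = z.1 → m d z.2 = z.2
  have hp : ∀ y, ∃ z, p y z := fun y => by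
    obtain ⟨c, w, h1, h2⟩ := h y
    exact ⟨(a c y, w), ⟨c⁻¹, by simp⟩, h1, h2⟩
  have hz : ∀ c y, (hp (a c y)).choose = (hp y).choose := fun c y =>
    choose_congr _ _ (funext fun z => propext (and_congr_left fun _ =>
      ⟨fun ⟨d, hd⟩ => ⟨c⁻¹ * d, by simp [hd]⟩, fun ⟨d, hd⟩ => ⟨c * d, by simp [hd]⟩⟩))
  choose e he using fun y => (hp y).choose_spec.1
  refine ⟨fun y => m (e y) (hp y).choose.2, fun y => ?_, fun c y => ?_⟩
  · have h1 := hR (e y) _ _ (hp y).choose_spec.2.1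
    rwa [he] at h1
  · have h1 := he (a c y)
    rw [hz] at h1
    have h2 := (hp y).choose_spec.2.2 ((c * e y)⁻¹ * e (a c y)) (by
      rw [map_mul, Equiv.Perm.mul_apply, h1, map_inv, Equiv.Perm.inv_eq_iff_eq, map_mul,
        Equiv.Perm.mul_apply, he])
    show m _ (hp (a c y)).choose.2 = _
    rw [hz, ← hm, ← mul_inv_cancel_left (c * e y) (e (a c y)), hm, h2]

variable {G P Λ : Type} [Group G] [MulAction G P] [CommRing Λ] {T : P → P} {N : ℕ}

theorem tr_mul (c d : G) (x : Ch P Λ) :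
    tr (fun v => c • v) (tr (fun v => d • v) x) = tr (fun v => (c * d) • v) x := by
  rw [tr_tr]
  congr 2
  funext v
  exact (mul_smul c d v).symm

theorem tr_one (x : Ch P Λ) : tr (fun v => (1 : G) • v) x = x := by
  simp only [one_smul]
  exact tr_id x

theorem dd_tr {U : P → P} (h : ∀ v, T (U v) = U (T v)) (i : ℤ) (x : Ch P Λ) :
    LS.CutCore.dd T N i (tr U x) = tr U (LS.CutCore.dd T N i x) := by
  have h1 : ∀ r, T^[r] ∘ U = U ∘ T^[r] := fun r =>
    (Function.Commute.iterate_left (f := T) (g := U) h r).comp_eq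
  have h2 : T ∘ U = U ∘ T := funext h
  unfold LS.CutCore.dd
  split_ifs <;> simp [tr_tr, h1, h2]

variable {H : Subgroup G} {V : Type} [AddCommGroup V] [Module Λ V]

/-- The action on cochains. -/
noncomputable def cj (ρ : Representation Λ H V) (c : H) (b : ℤ → (Ch P Λ →ₗ[Λ] V)) (j : ℤ) :
    Ch P Λ →ₗ[Λ] V := ρ c ∘ₗ b j ∘ₗ tr fun v => ((c⁻¹ : H) : G) • v

theorem cj_apply (ρ : Representation Λ H V) (c : H) (b : ℤ → (Ch P Λ →ₗ[Λ] V)) (j : ℤ)
    (x : Ch P Λ) : cj ρ c b j x = ρ c (b j (tr (fun v => ((c⁻¹ : H) : G) • v) x)) := rfl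

theorem cj_mul (ρ : Representation Λ H V) (c d : H) (b : ℤ → (Ch P Λ →ₗ[Λ] V)) :
    cj ρ (c * d) b = cj ρ c (cj ρ d b) := by
  funext j
  refine LinearMap.ext fun x => ?_
  simp only [cj_apply, tr_mul, map_mul, mul_inv_rev, Subgroup.coe_mul, Module.End.mul_apply]

theorem cj_tr (ρ : Representation Λ H V) (c : H) (b : ℤ → (Ch P Λ →ₗ[Λ] V)) (j : ℤ)
    (x : Ch P Λ) : cj ρ c b j (tr (fun v => (c : G) • v) x) = ρ c (b j x) := by
  rw [cj_apply, tr_mul, Subgroup.coe_inv, inv_mul_cancel, tr_one]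

theorem Dc_cj (hc : ∀ (c : G) v, T (c • v) = c • T v) (ρ : Representation Λ H V) (c : H)
    (b : ℤ → (Ch P Λ →ₗ[Λ] V)) (j : ℤ) (x : Ch P Λ) :
    Dc T N (cj ρ c b) j x = ρ c (Dc T N b j (tr (fun v => ((c⁻¹ : H) : G) • v) x)) := by
  simp only [Dc, LinearMap.sub_apply, LinearMap.comp_apply, cj_apply, map_sub, bd_tr,
    dd_tr (hc _), tr_sg]

theorem rho_inv (ρ : Representation Λ H V) (c : H) (x : V) : ρ c (ρ c⁻¹ x) = x := by
  rw [← Module.End.mul_apply, ← map_mul, mul_inv_cancel, map_one, Module.End.one_apply]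

theorem coind_apply {Y : Type} (ρ : Representation Λ H V) (act : H →* Equiv.Perm Y) (c : H)
    (φ : Y → V) (y : Y) : coind ρ act c φ y = ρ c (φ (act c⁻¹ y)) := rfl

theorem Dc_comp {V' : Type} [AddCommGroup V'] [Module Λ V'] (i : V →ₗ[Λ] V')
    (b : ℤ → (Ch P Λ →ₗ[Λ] V)) (j : ℤ) (x : Ch P Λ) :
    Dc T N (fun j => i ∘ₗ b j) j x = i (Dc T N b j x) := by
  simp only [Dc, LinearMap.sub_apply, LinearMap.comp_apply, map_sub]

theorem coc_comp {V' : Type} [AddCommGroup V'] [Module Λ V'] {ρ : Representation Λ H V}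
    {ρ' : Representation Λ H V'} (i : V →ₗ[Λ] V') (hi : ∀ c x, i (ρ c x) = ρ' c (i x)) {top : ℤ}
    {B : Set (List P)} {b : ℤ → (Ch P Λ →ₗ[Λ] V)} (h : Coc H ρ top B b) :
    Coc H ρ' top B fun j => i ∘ₗ b j :=
  ⟨fun j c x => by simp only [LinearMap.comp_apply, h.1, hi], fun j hj => by simp [h.2.1 j hj],
    fun j l hl => by simp [h.2.2 j l hl]⟩

end Alg2

open Alg2

variable {G P Λ : Type} [Group G] [MulAction G P] [CommRing Λ] {T : P → P} {N : ℕ} {g : G}

theorem NilV.coind (hc : ∀ (c : G) v, T (c • v) = c • T v) {H : Subgroup G} {V Y : Type}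
    [AddCommGroup V] [Module Λ V] (ρ : Representation Λ H V) (act : H →* Equiv.Perm Y)
    {A B : Set (List P)} (hA : Inv T H A) (hB : Inv T H B) {a : Λ} {k : ℕ}
    (h : ∀ y, ∃ c : H, NilV T N (stb act (act c y))
      (ρ.comp (Subgroup.inclusion (stb_le act (act c y)))) A B a k) :
    NilV T N H (coind ρ act) A B a k := by
  intro top f hf hD
  obtain ⟨β, h1, h2⟩ := tool act (cj ρ) (cj_mul ρ)
    (fun y (b : ℤ → (Ch P Λ →ₗ[Λ] V)) => (∀ j, top < j → b j = 0) ∧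
      (∀ j, ∀ l ∈ B, b j (Finsupp.single l 1) = 0) ∧
      ∀ j, ∀ l ∈ A, Dc T N b j (Finsupp.single l 1) = a • f (j + 2 * k) (Finsupp.single l 1) y)
    (fun c y b ⟨h1, h2, h3⟩ => ⟨fun j hj => by simp [cj, h1 j hj], fun j l hl => by
      rw [cj_apply, tr_single, h2 j _ (hB.2 _ (c⁻¹).2 l hl), map_zero], fun j l hl => by
      rw [Dc_cj hc, tr_single, h3 j _ (hA.2 _ (c⁻¹).2 l hl), ← tr_single, hf.1, coind_apply,
        map_smul, rho_inv, inv_inv]⟩)
    fun y => by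
      obtain ⟨c, h0⟩ := h y
      obtain ⟨b, h1, h2⟩ := h0 top (fun j => LinearMap.proj (act c y) ∘ₗ f j)
        ⟨fun j d x => by
          obtain ⟨hd, h3⟩ := mem_stb.1 d.2
          have h4 : act (⟨d, hd⟩ : H)⁻¹ (act c y) = act c y := by
            rw [map_inv, Equiv.Perm.inv_eq_iff_eq, h3]
          have h5 := congrFun (hf.1 j ⟨d, hd⟩ x) (act c y)
          rw [coind_apply, h4] at h5
          exact h5,
        fun j hj => by simp [hf.2.1 j hj], fun j l hl => by simp [hf.2.2 j l hl]⟩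
        fun j l hl => by rw [Dc_comp, hD j l hl, map_zero]
      refine ⟨c, b, ⟨h1.2.1, h1.2.2, h2⟩, fun d hd => funext fun j => LinearMap.ext fun x => ?_⟩
      have h3 := h1.1 j ⟨d, mem_stb.2 ⟨d.2, hd⟩⟩ (tr (fun v => ((d⁻¹ : H) : G) • v) x)
      rw [tr_mul, Subgroup.coe_inv, mul_inv_cancel, tr_one] at h3
      exact h3.symm
  refine ⟨fun j => LinearMap.pi fun y => β y j, ⟨fun j c x => funext fun y => ?_, fun j hj => ?_,
    fun j l hl => funext fun y => (h1 y).2.1 j l hl⟩, fun j l hl => funext fun y =>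
      (h1 y).2.2 j l hl⟩
  · have h3 := h2 c (act c⁻¹ y)
    rw [show act c (act c⁻¹ y) = y by simp] at h3
    rw [coind_apply, LinearMap.pi_apply, LinearMap.pi_apply, h3, cj_tr]
  · refine LinearMap.ext fun x => funext fun y => ?_
    rw [LinearMap.pi_apply, (h1 y).1 j hj]
    rfl

theorem NilV.retract {H : Subgroup G} {V V' : Type} [AddCommGroup V] [Module Λ V]
    [AddCommGroup V'] [Module Λ V'] (ρ : Representation Λ H V) (ρ' : Representation Λ H V')
    (i : V →ₗ[Λ] V') (r : V' →ₗ[Λ] V) (hi : ∀ c x, i (ρ c x) = ρ' c (i x))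
    (hr : ∀ c x, r (ρ' c x) = ρ c (r x)) (n : Λ) (hri : ∀ x, r (i x) = n • x)
    {A B : Set (List P)} {a : Λ} {k : ℕ} (h : NilV T N H ρ' A B a k) :
    NilV T N H ρ A B (n * a) k := by
  intro top f hf hD
  obtain ⟨b, h1, h2⟩ := h top _ (coc_comp i hi hf) fun j l hl => by
    rw [Dc_comp, hD j l hl, map_zero]
  refine ⟨_, coc_comp r hr h1, fun j l hl => ?_⟩
  rw [Dc_comp, h2 j l hl, map_smul, LinearMap.comp_apply, hri, smul_smul, mul_comm]

theorem Nil.fin (hc : ∀ (c : G) v, T (c • v) = c • T v) {p J v : ℕ} (hp : p.Prime)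
    (hJ : (p : Λ) ^ J = 0) {C C' : Subgroup G} (hg : g ∈ C') (h0 : C'.relIndex C ≠ 0)
    (hv : C'.relIndex C ≤ v) {W : Set (List P)} {a : Λ} {k : ℕ} (h : Nil T N g C' W a k) :
    Nil T N g C W ((p : Λ) ^ v * a) k := by
  intro H hH hz hg' V _ _ ρ hρ A B hA hB hBA hW
  have hn : C'.relIndex H ≠ 0 := fun e => h0 (Subgroup.relIndex_eq_zero_of_le_right hH e)
  have hn' : C'.relIndex H ≤ v := (Subgroup.relIndex_le_of_le_right hH h0).trans hv
  have : Finite (H ⧸ C'.subgroupOf H) := Nat.finite_of_card_ne_zero hn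
  have := Fintype.ofFinite (H ⧸ C'.subgroupOf H)
  obtain ⟨lam, hlam⟩ := exists_inv (a := v) hp hJ (w := (C'.relIndex H : ℤ)) fun hd => by
    have h1 : p ^ (v + 1) ≤ C'.relIndex H :=
      Nat.le_of_dvd (Nat.pos_of_ne_zero hn) (by exact_mod_cast hd)
    have h2 := Nat.lt_pow_self (n := v + 1) hp.one_lt
    omega
  let act : H →* Equiv.Perm (H ⧸ C'.subgroupOf H) := MulAction.toPermHom H _
  have hm : ∀ z : H, act z ((1 : H) : H ⧸ C'.subgroupOf H) = ((1 : H) : H ⧸ C'.subgroupOf H) ↔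
      (z : G) ∈ C' := fun z => by
    show ((z * 1 : H) : H ⧸ C'.subgroupOf H) = _ ↔ _
    rw [eq_comm, QuotientGroup.eq, inv_one, one_mul, mul_one, Subgroup.mem_subgroupOf]
  have key : NilV T N H (coind ρ act) A B a k := NilV.coind hc ρ act hA hB fun y => by
    obtain ⟨c, hy⟩ : ∃ c : H, act c y = ((1 : H) : H ⧸ C'.subgroupOf H) := by
      obtain ⟨c, rfl⟩ := QuotientGroup.mk_surjective y
      exact ⟨c⁻¹, congrArg _ (inv_mul_cancel c)⟩
    refine ⟨c, ?_⟩
    rw [hy]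
    have hle := stb_le act ((1 : H) : H ⧸ C'.subgroupOf H)
    exact h _ (fun z hz' => by
        obtain ⟨h1, h2⟩ := mem_stb.1 hz'
        exact (hm ⟨z, h1⟩).1 h2) (fun z hz' => hz z (hle hz'))
      (mem_stb.2 ⟨hg', (hm ⟨g, hg'⟩).2 hg⟩) V _ hρ A B ⟨hA.1, fun z hz' => hA.2 z (hle hz')⟩
      ⟨hB.1, fun z hz' => hB.2 z (hle hz')⟩ hBA hW
  refine NilV.retract ρ (coind ρ act) (LinearMap.pi fun _ => LinearMap.id)
    (lam • ∑ y, LinearMap.proj y) (fun c x => rfl) (fun c φ => ?_) _ (fun x => ?_) key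
  · simp only [LinearMap.smul_apply, LinearMap.sum_apply, LinearMap.proj_apply, coind_apply,
      map_smul, map_sum]
    rw [Equiv.sum_comp (act c⁻¹) fun y => ρ c (φ y)]
  · simp only [LinearMap.smul_apply, LinearMap.sum_apply, LinearMap.proj_apply,
      LinearMap.pi_apply, LinearMap.id_apply, sum_const, card_univ]
    rw [← hlam, mul_smul, Int.cast_natCast, Nat.cast_smul_eq_nsmul, Fintype.card_eq_nat_card]
    rfl

end Pool.Agent.Lib.MP_7903c7_al.D
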