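import Pool.Agent.Lib.MP_7903c7_al.D.Defs

set_option autoImplicit false

/-!
Nilpotence on a disjoint union of closed sets that are permuted by the group.
-/

namespace Pool.Agent.Lib.MP_7903c7_al.D

open Finset RF LS.CutCore
open scoped Classical Pointwise

namespace Alg2b

variable {P Λ : Type} [CommRing Λ] {T : P → P} {N : ℕ}

theorem dd_tr {U : P → P} (h : Function.Commute T U) (i : ℤ) (x : Ch P Λ) :
    LS.CutCore.dd T N i (tr U x) = tr U (LS.CutCore.dd T N i x) := by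
  unfold LS.CutCore.dd
  split_ifs
  · simp only [LinearMap.sum_apply, map_sum, tr_tr]
    exact Finset.sum_congr rfl fun r _ => by rw [(h.iterate_left r).comp_eq]
  · simp only [LinearMap.sub_apply, LinearMap.id_apply, map_sub, tr_tr, h.comp_eq]

theorem Dc_conj {V : Type} [AddCommGroup V] [Module Λ V] {U : P → P} (h : Function.Commute T U)
    (σ : V →ₗ[Λ] V) (b : ℤ → (Ch P Λ →ₗ[Λ] V)) (j : ℤ) (x : Ch P Λ) :
    Dc T N (fun i => σ ∘ₗ b i ∘ₗ tr U) j x = σ (Dc T N b j (tr U x)) := by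
  simp only [Dc, LinearMap.sub_apply, LinearMap.comp_apply, map_sub, bd_tr, dd_tr h, tr_sg]

theorem Dc_on {V : Type} [AddCommGroup V] [Module Λ V] {S : Set (List P)} (hS : Clo T S)
    {b b' : ℤ → (Ch P Λ →ₗ[Λ] V)}
    (h : ∀ j, ∀ l ∈ S, b j (Finsupp.single l 1) = b' j (Finsupp.single l 1)) (j : ℤ)
    {l : List P} (hl : l ∈ S) :
    Dc T N b j (Finsupp.single l 1) = Dc T N b' j (Finsupp.single l 1) := by
  have hx : (Finsupp.single l 1 : Ch P Λ) ∈ Finsupp.supported Λ Λ S :=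
    Finsupp.single_mem_supported _ _ hl
  simp only [Dc, LinearMap.sub_apply, LinearMap.comp_apply]
  rw [app_on (h j) (hS.bd hx), app_on (h (j + 1)) (sg_on (hS.dd (j + 1) hx))]

theorem exists_rep {Γ K : Type} [Group Γ] (act : Γ →* Equiv.Perm K) :
    ∃ (rep : K → K) (t : K → Γ), (∀ κ, act (t κ) (rep κ) = κ) ∧
      ∀ c κ, rep (act c κ) = rep κ := by
  let s : Setoid K := ⟨fun κ κ' => ∃ t, act t κ = κ',
    ⟨fun κ => ⟨1, by simp⟩, fun ⟨t, h⟩ => ⟨t⁻¹, by simp [← h]⟩,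
      fun ⟨t, h⟩ ⟨t', h'⟩ => ⟨t' * t, by simp [h, h']⟩⟩⟩
  have : ∀ κ, ∃ t, act t (Quotient.mk s κ).out = κ := fun κ => Quotient.mk_out (s := s) κ
  choose t ht using this
  refine ⟨fun κ => (Quotient.mk s κ).out, t, ht, fun c κ => congrArg Quotient.out ?_⟩
  exact (Quotient.sound (s := s) ⟨c, rfl⟩).symm

end Alg2b

section alg
variable {G P Λ : Type} [Group G] [MulAction G P] [CommRing Λ] {T : P → P} {N : ℕ} {g : G}

theorem Nil.ind (hc : ∀ (c : G) v, T (c • v) = c • T v) {C : Subgroup G} {K : Type}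
    (act : C →* Equiv.Perm K) (W : K → Set (List P)) {a : Λ} {k : ℕ}
    (hclo : ∀ κ, Clo T (W κ))
    (hact : ∀ (c : C) κ, ∀ l ∈ W κ, l.map (fun v => (c : G) • v) ∈ W (act c κ))
    (hdis : ∀ κ κ', ∀ l ∈ W κ, l ∈ W κ' → κ = κ')
    (hg : ∀ c : C, (c : G) = g → ∀ κ, (W κ).Nonempty → act c κ = κ)
    (h : ∀ κ, (W κ).Nonempty → Nil T N g (stb act κ) (W κ) a k) :
    Nil T N g C (⋃ κ, W κ) a k := by
  intro H hH hcm hgH V _ _ ρ hρ A B hA hB hBA hW top f hf hD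
  let ac : H →* Equiv.Perm K := act.comp (Subgroup.inclusion hH)
  have hac : ∀ (c : H) κ, ∀ l ∈ W κ, l.map (fun v => (c : G) • v) ∈ W (ac c κ) :=
    fun c κ l hl => hact (Subgroup.inclusion hH c) κ l hl
  have mm : ∀ (c c' : H) (x : Ch P Λ), tr (fun v => (c : G) • v) (tr (fun v => (c' : G) • v) x) =
      tr (fun v => ((c * c' : H) : G) • v) x := fun c c' x => by
    rw [tr_tr]
    congr 2
    funext v
    simp only [Function.comp_apply, Subgroup.coe_mul, mul_smul]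
  have m1 : ∀ x : Ch P Λ, tr (fun v => ((1 : H) : G) • v) x = x := fun x => by
    simp only [Subgroup.coe_one, one_smul]
    exact tr_id x
  have ρm : ∀ (c c' : H) (y : V), ρ c (ρ c' y) = ρ (c * c') y := fun c c' y => by
    rw [map_mul, Module.End.mul_apply]
  -- a solution on each piece
  have loc : ∀ κ, ∃ b : ℤ → (Ch P Λ →ₗ[Λ] V),
      (∀ j (c : H), ac c κ = κ → ∀ x, b j (tr (fun v => (c : G) • v) x) = ρ c (b j x)) ∧
      (∀ j, top < j → b j = 0) ∧ (∀ j, ∀ l ∈ B, b j (Finsupp.single l 1) = 0) ∧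
      ∀ j, ∀ l ∈ A, l ∈ W κ →
        Dc T N b j (Finsupp.single l 1) = a • f (j + 2 * k) (Finsupp.single l 1) := by
    intro κ
    by_cases hne : (W κ).Nonempty
    · have hgs : g ∈ H ⊓ stb act κ := ⟨hgH, mem_stb.2 ⟨hH hgH, hg _ rfl κ hne⟩⟩
      have iB : Inv T (H ⊓ stb act κ) B := ⟨hB.1, fun c hc => hB.2 c hc.1⟩
      have iA : Inv T (H ⊓ stb act κ) (B ∪ A ∩ W κ) := by
        refine ⟨⟨fun l hl => hl.imp (hB.1.map l) fun h => ⟨hA.1.map l h.1, (hclo κ).map l h.2⟩,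
          fun l hl l' h0 h1 => hl.imp (fun h => hB.1.sub l h l' h0 h1) fun h =>
            ⟨hA.1.sub l h.1 l' h0 h1, (hclo κ).sub l h.2 l' h0 h1⟩⟩,
          fun c hc l hl => hl.imp (hB.2 c hc.1 l) fun h => ⟨hA.2 c hc.1 l h.1, ?_⟩⟩
        obtain ⟨c1, c2⟩ := mem_stb.1 hc.2
        have := hact ⟨c, c1⟩ κ l h.2
        rwa [c2] at this
      obtain ⟨b, ⟨b1, b2, b3⟩, b4⟩ := h κ hne (H ⊓ stb act κ) inf_le_right
        (fun c hc => hcm c hc.1) hgs V (ρ.comp (Subgroup.inclusion inf_le_left)) hρ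
        (B ∪ A ∩ W κ) B iA iB Set.subset_union_left
        (fun l hl => (hl.1.resolve_left hl.2).2) top f
        ⟨fun j c x => hf.1 j (Subgroup.inclusion inf_le_left c) x, hf.2⟩
        (fun j l hl => hD j l (hl.elim (fun h => hBA h) fun h => h.1))
      exact ⟨b, fun j c hc x => b1 j ⟨c, c.2, mem_stb.2 ⟨hH c.2, hc⟩⟩ x, b2, b3,
        fun j l h1 h2 => b4 j l (Or.inr ⟨h1, h2⟩)⟩
    · exact ⟨0, by simp, by simp, by simp, fun j l _ h2 => absurd ⟨l, h2⟩ hne⟩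
  choose b0 b1 b2 b3 b4 using loc
  obtain ⟨rep, t, ht, hrep⟩ := Alg2b.exists_rep ac
  -- the equivariant family of solutions
  obtain ⟨β, hβ⟩ : ∃ β : K → ℤ → (Ch P Λ →ₗ[Λ] V), ∀ κ, β κ = fun j =>
      ρ (t κ) ∘ₗ b0 (rep κ) j ∘ₗ tr (fun v => (((t κ)⁻¹ : H) : G) • v) := ⟨_, fun _ => rfl⟩
  have β1 : ∀ κ j (c : H) x, β (ac c κ) j (tr (fun v => (c : G) • v) x) = ρ c (β κ j x) := by
    intro κ j c x
    have hs : ac ((t (ac c κ))⁻¹ * c * t κ) (rep κ) = rep κ := by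
      have := ht (ac c κ)
      rw [hrep] at this
      rw [map_mul, map_mul, Equiv.Perm.mul_apply, Equiv.Perm.mul_apply, ht, map_inv,
        Equiv.Perm.inv_eq_iff_eq, this]
    have := b1 (rep κ) j _ hs (tr (fun v => (((t κ)⁻¹ : H) : G) • v) x)
    rw [mm, mul_inv_cancel_right] at this
    simp only [hβ, LinearMap.comp_apply]
    rw [hrep, mm, this, ρm, ← mul_assoc, mul_inv_cancel_left, ← ρm]
  have β3 : ∀ κ j, ∀ l ∈ B, β κ j (Finsupp.single l 1) = 0 := fun κ j l hl => by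
    simp only [hβ, LinearMap.comp_apply]
    rw [tr_single, b3 _ j _ (hB.2 _ ((t κ)⁻¹).2 l hl), map_zero]
  have β4 : ∀ κ j, ∀ l ∈ A, l ∈ W κ →
      Dc T N (β κ) j (Finsupp.single l 1) = a • f (j + 2 * k) (Finsupp.single l 1) := by
    intro κ j l h1 h2
    have h3 := hac (t κ)⁻¹ κ l h2
    have h4 : ac (t κ)⁻¹ κ = rep κ := by rw [map_inv, Equiv.Perm.inv_eq_iff_eq, ht]
    rw [h4] at h3
    rw [hβ, Alg2b.Dc_conj (fun v => hc _ v), tr_single,
      b4 _ j _ (hA.2 _ ((t κ)⁻¹).2 l h1) h3, map_smul, ← hf.1, ← tr_single, mm,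
      mul_inv_cancel, m1]
  obtain ⟨b, hb1, hb0⟩ : ∃ b : ℤ → (Ch P Λ →ₗ[Λ] V),
      (∀ κ j, ∀ l ∈ W κ, b j (Finsupp.single l 1) = β κ j (Finsupp.single l 1)) ∧
      ∀ j l, (∀ κ, l ∉ W κ) → b j (Finsupp.single l 1) = 0 := by
    refine ⟨fun j => Finsupp.linearCombination Λ fun l =>
      if h : ∃ κ, l ∈ W κ then β h.choose j (Finsupp.single l 1) else 0,
      fun κ j l hl => ?_, fun j l hl => ?_⟩
    · have h0 : ∃ κ, l ∈ W κ := ⟨κ, hl⟩
      rw [Finsupp.linearCombination_single, one_smul, dif_pos h0, hdis _ _ l h0.choose_spec hl]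
    · rw [Finsupp.linearCombination_single, one_smul, dif_neg (not_exists.2 hl)]
  have hbB : ∀ j, ∀ l ∈ B, b j (Finsupp.single l 1) = 0 := fun j l hl => by
    by_cases h0 : ∃ κ, l ∈ W κ
    · obtain ⟨κ, hκ⟩ := h0
      rw [hb1 κ j l hκ, β3 κ j l hl]
    · exact hb0 j l (not_exists.1 h0)
  refine ⟨b, ⟨fun j c x => ?_, fun j hj => ext1 fun l => ?_, hbB⟩, fun j l hl => ?_⟩
  · refine app (f := b j ∘ₗ tr (fun v => (c : G) • v)) (g := ρ c ∘ₗ b j) (ext1 fun l => ?_) x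
    simp only [LinearMap.comp_apply]
    by_cases h0 : ∃ κ, l ∈ W κ
    · obtain ⟨κ, hκ⟩ := h0
      rw [hb1 κ j l hκ, ← β1, tr_single, hb1 _ j _ (hac c κ l hκ)]
    · rw [hb0 j l (not_exists.1 h0), map_zero, tr_single]
      refine hb0 j _ fun κ hκ => h0 ⟨ac c⁻¹ κ, ?_⟩
      have := hac c⁻¹ κ _ hκ
      rw [List.map_map] at this
      have e : ((fun v : P => ((c⁻¹ : H) : G) • v) ∘ fun v => (c : G) • v) = id := by
        funext v
        simp
      rwa [e, List.map_id] at this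
  · by_cases h0 : ∃ κ, l ∈ W κ
    · obtain ⟨κ, hκ⟩ := h0
      rw [hb1 κ j l hκ]
      simp only [hβ, b2 _ j hj, LinearMap.comp_apply, LinearMap.zero_apply, map_zero]
    · exact hb0 j l (not_exists.1 h0)
  · by_cases hlB : l ∈ B
    · rw [hf.2.2 _ l hlB, smul_zero,
        Alg2b.Dc_on (b' := fun _ => 0) hB.1 (fun j l hl => hbB j l hl) j hlB]
      simp [Dc]
    · obtain ⟨κ, hκ⟩ := Set.mem_iUnion.1 (hW ⟨hl, hlB⟩)
      rw [Alg2b.Dc_on (hclo κ) (hb1 κ) j hκ, β4 κ j l hl hκ]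

end alg

end Pool.Agent.Lib.MP_7903c7_al.D
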