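import Pool.Agent.Lib.MP_7903c7_al.D.Defs

set_option autoImplicit false

/-!
Nilpotence along a short exact sequence of coefficients.
-/

namespace Pool.Agent.Lib.MP_7903c7_al.D

open Finset RF LS.CutCore
open scoped Classical Pointwise

namespace Alg3

/-- Equivariant choice along orbits whose stabilisers act trivially. -/
theorem exists_equi {Γ Y V : Type} [Group Γ] [Zero V] (m : Γ → Y → Y) (ρ : Γ → V → V)
    (m1 : ∀ y, m 1 y = y) (mm : ∀ a b y, m (a * b) y = m a (m b y))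
    (ρm : ∀ a b v, ρ (a * b) v = ρ a (ρ b v)) (ρ0 : ∀ a, ρ a 0 = 0)
    (W : Set Y) (hW : ∀ c, ∀ y ∈ W, m c y ∈ W) (R : Y → V → Prop)
    (hR : ∀ c y v, R y v → R (m c y) (ρ c v)) (hex : ∀ y ∈ W, ∃ v, R y v)
    (hst : ∀ y ∈ W, ∀ c, m c y = y → ∀ v, ρ c v = v) :
    ∃ β : Y → V, (∀ y ∈ W, R y (β y)) ∧ (∀ y, y ∉ W → β y = 0) ∧
      ∀ c y, β (m c y) = ρ c (β y) := by
  have inv : ∀ c y, m c⁻¹ (m c y) = y := fun c y => by rw [← mm, inv_mul_cancel, m1]
  let s : Setoid Y :=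
    ⟨fun y y' => ∃ c, y' = m c y, fun y => ⟨1, (m1 y).symm⟩,
      fun ⟨c, h⟩ => ⟨c⁻¹, by rw [h, inv]⟩, fun ⟨c, h⟩ ⟨c', h'⟩ => ⟨c' * c, by rw [h', h, mm]⟩⟩
  have h0 : ∀ y, ∃ c, y = m c (Quotient.mk s y).out := fun y => Quotient.mk_out (s := s) y
  choose u hu using h0
  have h1 : ∀ y, ∃ v, y ∈ W → R y v := fun y => by
    by_cases h : y ∈ W
    · obtain ⟨v, hv⟩ := hex y h
      exact ⟨v, fun _ => hv⟩
    · exact ⟨0, fun h' => absurd h' h⟩
  choose v hv using h1
  have hr : ∀ y ∈ W, (Quotient.mk s y).out ∈ W := fun y hy => by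
    rw [← inv (u y) (Quotient.mk s y).out, ← hu y]
    exact hW _ y hy
  refine ⟨fun y => if y ∈ W then ρ (u y) (v (Quotient.mk s y).out) else 0, fun y hy => ?_,
    fun y hy => if_neg hy, fun c y => ?_⟩
  · have := hR (u y) _ _ (hv _ (hr y hy))
    rw [← hu y] at this
    simpa only [if_pos hy] using this
  · by_cases hy : y ∈ W
    · have e : Quotient.mk s (m c y) = Quotient.mk s y :=
        (Quotient.sound (s := s) (⟨c, rfl⟩ : s.r y (m c y))).symm
      have e1 := hu (m c y)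
      rw [e] at e1
      have e2 : m ((u (m c y))⁻¹ * (c * u y)) (Quotient.mk s y).out = (Quotient.mk s y).out := by
        rw [mm, mm, ← hu y]
        conv_lhs => arg 2; rw [e1]
        exact inv _ _
      have e3 := hst _ (hr y hy) _ e2 (v (Quotient.mk s y).out)
      simp only [if_pos hy, if_pos (hW c y hy), e]
      conv_lhs => rw [← e3]
      rw [← ρm, mul_inv_cancel_left, ρm]
    · have hy' : m c y ∉ W := fun h => hy (by simpa only [inv] using hW c⁻¹ _ h)
      simp only [if_neg hy, if_neg hy', ρ0]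

variable {G P Λ : Type} [Group G] [MulAction G P] [CommRing Λ] {T : P → P} {N : ℕ} {g : G}
variable {V V' : Type} [AddCommGroup V] [Module Λ V] [AddCommGroup V'] [Module Λ V']

theorem Dc_app (f : ℤ → (Ch P Λ →ₗ[Λ] V)) (j : ℤ) (x : Ch P Λ) :
    Dc T N f j x = f j (LS.CutCore.bd x) - f (j + 1) (sg (LS.CutCore.dd T N (j + 1) x)) := rfl

theorem Dc_congr {A : Set (List P)} (hA : Clo T A) {f f' : ℤ → (Ch P Λ →ₗ[Λ] V)}
    (h : ∀ j, ∀ l ∈ A, f j (Finsupp.single l 1) = f' j (Finsupp.single l 1)) (j : ℤ) {l : List P}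
    (hl : l ∈ A) : Dc T N f j (Finsupp.single l 1) = Dc T N f' j (Finsupp.single l 1) := by
  have h0 : Finsupp.single l (1 : Λ) ∈ Finsupp.supported Λ Λ A :=
    Finsupp.single_mem_supported _ _ hl
  rw [Dc_app, Dc_app, app_on (h j) (hA.bd h0), app_on (h (j + 1)) (sg_on (hA.dd (j + 1) h0))]

theorem Dc_comp (φ : V →ₗ[Λ] V') (f : ℤ → (Ch P Λ →ₗ[Λ] V)) (j : ℤ) (x : Ch P Λ) :
    Dc T N (fun j => φ ∘ₗ f j) j x = φ (Dc T N f j x) := by
  simp only [Dc_app, LinearMap.comp_apply, map_sub]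

theorem Dc_Dc (hT : T^[N] = id) (f : ℤ → (Ch P Λ →ₗ[Λ] V)) (j : ℤ) (x : Ch P Λ) :
    Dc T N (Dc T N f) j x = 0 := by
  have e : LS.CutCore.dd T N (j + 1 + 1) (LS.CutCore.dd T N (j + 1) x) = 0 := by
    simpa using dd_dd hT (j + 1 + 1) x
  simp only [Dc_app, bd_bd, bd_sg, bd_dd, dd_sg, e, map_zero, map_neg]
  abel

theorem Dc_shift (f : ℤ → (Ch P Λ →ₗ[Λ] V)) (k : ℕ) (j : ℤ) (x : Ch P Λ) :
    Dc T N (fun j => f (j + 2 * k)) j x = Dc T N f (j + 2 * k) x := by
  have e : LS.CutCore.dd (Λ := Λ) T N (j + 2 * k + 1) = LS.CutCore.dd T N (j + 1) := by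
    have : Even (j + 2 * k + 1) ↔ Even (j + 1) := by
      rw [show j + 2 * k + 1 = j + 1 + 2 * (k : ℤ) by ring, Int.even_add]
      simp
    simp only [LS.CutCore.dd, this]
  simp only [Dc_app, e, show j + 1 + 2 * (k : ℤ) = j + 2 * k + 1 by ring]

theorem dd_tr {U : P → P} (h : ∀ v, T (U v) = U (T v)) (i : ℤ) (x : Ch P Λ) :
    LS.CutCore.dd T N i (tr U x) = tr U (LS.CutCore.dd T N i x) := by
  have e : ∀ r, T^[r] ∘ U = U ∘ T^[r] := fun r =>
    funext fun v => (Function.Commute.iterate_left (f := T) (g := U) h r).eq v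
  have e1 : T ∘ U = U ∘ T := funext h
  unfold LS.CutCore.dd
  split_ifs
  · simp only [LinearMap.sum_apply, map_sum, tr_tr, e]
  · simp only [LinearMap.sub_apply, LinearMap.id_apply, map_sub, tr_tr, e1]

theorem coc_comp {H : Subgroup G} {ρ : Representation Λ H V} {ρ' : Representation Λ H V'}
    {φ : V →ₗ[Λ] V'} (hφ : ∀ c x, φ (ρ c x) = ρ' c (φ x)) {top : ℤ} {B : Set (List P)}
    {f : ℤ → (Ch P Λ →ₗ[Λ] V)} (h : Coc H ρ top B f) : Coc H ρ' top B fun j => φ ∘ₗ f j :=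
  ⟨fun j c x => by simp only [LinearMap.comp_apply, h.1, hφ],
    fun j hj => by simp only [h.2.1 j hj, LinearMap.comp_zero],
    fun j l hl => by simp only [LinearMap.comp_apply, h.2.2 j l hl, map_zero]⟩

theorem coc_Dc (hc : ∀ (c : G) v, T (c • v) = c • T v) {H : Subgroup G}
    {ρ : Representation Λ H V} {top : ℤ} {B : Set (List P)} (hB : Clo T B)
    {f : ℤ → (Ch P Λ →ₗ[Λ] V)} (h : Coc H ρ top B f) : Coc H ρ top B (Dc T N f) := by
  refine ⟨fun j c x => ?_, fun j hj => ?_, fun j l hl => ?_⟩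
  · rw [Dc_app, Dc_app, bd_tr, dd_tr (U := fun v => (c : G) • v) (hc c), ← tr_sg, h.1, h.1,
      map_sub]
  · simp only [Dc, h.2.1 j hj, h.2.1 (j + 1) (by omega), LinearMap.zero_comp, sub_zero]
  · rw [Dc_congr (f' := fun _ => 0) hB (fun j l hl => h.2.2 j l hl) j hl]
    simp only [Dc_app, LinearMap.zero_apply, sub_zero]

/-- A cochain from values on lists. -/
theorem coc_of {H : Subgroup G} {ρ : Representation Λ H V} {top : ℤ} {B : Set (List P)}
    (β : ℤ → List P → V) (h1 : ∀ j (c : H) l, β j (l.map fun v => (c : G) • v) = ρ c (β j l))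
    (h2 : ∀ j, top < j → ∀ l, β j l = 0) (h3 : ∀ j, ∀ l ∈ B, β j l = 0) :
    Coc H ρ top B fun j => Finsupp.linearCombination Λ (β j) := by
  refine ⟨fun j c x => ?_, fun j hj => ext1 fun l => ?_, fun j l hl => ?_⟩
  · exact app (f := Finsupp.linearCombination Λ (β j) ∘ₗ tr fun v => (c : G) • v)
      (g := ρ c ∘ₗ Finsupp.linearCombination Λ (β j)) (ext1 fun l => by simp [h1]) x
  · simp [h2 j hj]
  · simp [h3 j l hl]

theorem map_inv (c : G) (l : List P) : (l.map fun v => c • v).map (fun v => c⁻¹ • v) = l := by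
  simp [Function.comp_def]

/-- Lifting a cochain along a surjection of coefficients. -/
theorem lift {H : Subgroup G} (hg : g ∈ H) {ρ : Representation Λ H V}
    {ρ' : Representation Λ H V'} (hρ : ρ ⟨g, hg⟩ = 1) {q : V →ₗ[Λ] V'}
    (hq : ∀ c x, q (ρ c x) = ρ' c (q x)) (hq' : Function.Surjective q) {A B : Set (List P)}
    (hA : Inv T H A) (hB : Inv T H B) (hfree : Free g (A \ B)) {top : ℤ}
    {f : ℤ → (Ch P Λ →ₗ[Λ] V')} (h : Coc H ρ' top B f) :
    ∃ c : ℤ → (Ch P Λ →ₗ[Λ] V), Coc H ρ top B c ∧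
      ∀ j, ∀ l ∈ A, q (c j (Finsupp.single l 1)) = f j (Finsupp.single l 1) := by
  have key : ∀ j, ∃ β : List P → V, (∀ l ∈ A \ B, q (β l) = f j (Finsupp.single l 1)) ∧
      (∀ l, l ∉ A \ B → β l = 0) ∧
      ∀ (c : H) (l : List P), β (l.map fun v => (c : G) • v) = ρ c (β l) := fun j => by
    refine exists_equi (Γ := H) (fun c (l : List P) => l.map fun v => (c : G) • v)
      (fun c v => ρ c v) (fun l => by simp) (fun a b l => by simp [mul_smul])
      (fun a b v => by simp) (fun a => map_zero _) (A \ B) (fun c l hl => ?_)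
      (fun l v => q v = f j (Finsupp.single l 1)) (fun c l v e => ?_) (fun l _ => hq' _)
      (fun l hl c e v => ?_)
    · refine ⟨hA.2 c c.2 l hl.1, fun h' => hl.2 ?_⟩
      have := hB.2 _ (H.inv_mem c.2) _ h'
      rwa [map_inv] at this
    · rw [hq, e, ← h.1, tr_single]
    · obtain ⟨n, hn⟩ := hfree l hl c e
      have e1 : c = (⟨g, hg⟩ : H) ^ n := Subtype.ext (by simpa using hn.symm)
      have e2 : (⟨g, hg⟩ : H) ^ n ∈ MonoidHom.mker ρ := by
        have e3 : (⟨g, hg⟩ : H) ∈ (ρ.toHomUnits).ker := by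
          rw [MonoidHom.mem_ker]
          exact Units.ext hρ
        have e4 := congrArg Units.val (MonoidHom.mem_ker.1 (Subgroup.zpow_mem _ e3 n))
        exact e4
      rw [e1, MonoidHom.mem_mker.1 e2]
      rfl
  choose β h1 h2 h3 using key
  refine ⟨fun j => Finsupp.linearCombination Λ fun l => if top < j then 0 else β j l,
    coc_of _ (fun j c l => ?_) (fun j hj l => if_pos hj) (fun j l hl => ?_), fun j l hl => ?_⟩
  · split_ifs
    · exact (map_zero _).symm
    · exact h3 j c l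
  · rw [h2 j l fun h' => h'.2 hl, ite_self]
  · rw [Finsupp.linearCombination_single, one_smul]
    split_ifs with hj
    · rw [h.2.1 j hj, map_zero, LinearMap.zero_apply]
    · by_cases hl' : l ∈ B
      · rw [h2 j l fun h' => h'.2 hl', map_zero, h.2.2 j l hl']
      · exact h1 j l ⟨hl, hl'⟩

/-- Pulling a cochain back along an injection of coefficients. -/
theorem pull {H : Subgroup G} {ρ : Representation Λ H V} {ρ' : Representation Λ H V'}
    {i : V →ₗ[Λ] V'} (hi : ∀ c x, i (ρ c x) = ρ' c (i x)) (hi' : Function.Injective i)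
    {A B : Set (List P)} (hA : Inv T H A) {top : ℤ} {f : ℤ → (Ch P Λ →ₗ[Λ] V')}
    (h : Coc H ρ' top B f) (hr : ∀ j, ∀ l ∈ A, ∃ v, i v = f j (Finsupp.single l 1)) :
    ∃ b : ℤ → (Ch P Λ →ₗ[Λ] V), Coc H ρ top B b ∧
      ∀ j, ∀ l ∈ A, i (b j (Finsupp.single l 1)) = f j (Finsupp.single l 1) := by
  have key : ∀ j l, ∃ v, i v = if l ∈ A then f j (Finsupp.single l 1) else 0 := fun j l => by
    split_ifs with hl
    · exact hr j l hl
    · exact ⟨0, map_zero _⟩
  choose β hβ using key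
  refine ⟨fun j => Finsupp.linearCombination Λ (β j),
    coc_of _ (fun j c l => hi' ?_) (fun j hj l => hi' ?_) (fun j l hl => hi' ?_),
    fun j l hl => ?_⟩
  · rw [hi, hβ, hβ]
    by_cases hl : l ∈ A
    · rw [if_pos hl, if_pos (hA.2 c c.2 l hl), ← h.1, tr_single]
    · have hl' : (l.map fun v => (c : G) • v) ∉ A := fun h' => hl (by
        have := hA.2 _ (H.inv_mem c.2) _ h'
        rwa [map_inv] at this)
      rw [if_neg hl, if_neg hl', map_zero]
  · rw [hβ, h.2.1 j hj, LinearMap.zero_apply, ite_self, map_zero]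
  · rw [hβ, h.2.2 j l hl, ite_self, map_zero]
  · rw [Finsupp.linearCombination_single, one_smul, hβ, if_pos hl]

end Alg3

section alg
variable {G P Λ : Type} [Group G] [MulAction G P] [CommRing Λ] {T : P → P} {N : ℕ} {g : G}

open Alg3 in
theorem NilV.ses (hT : T^[N] = id) (hc : ∀ (c : G) v, T (c • v) = c • T v) {H : Subgroup G}
    (hg : g ∈ H) {V1 V2 V3 : Type} [AddCommGroup V1] [Module Λ V1] [AddCommGroup V2] [Module Λ V2]
    [AddCommGroup V3] [Module Λ V3] (ρ1 : Representation Λ H V1) (ρ2 : Representation Λ H V2)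
    (ρ3 : Representation Λ H V3) (hρ : ρ2 ⟨g, hg⟩ = 1) (i : V1 →ₗ[Λ] V2) (q : V2 →ₗ[Λ] V3)
    (hi : ∀ c x, i (ρ1 c x) = ρ2 c (i x)) (hq : ∀ c x, q (ρ2 c x) = ρ3 c (q x))
    (hi' : Function.Injective i) (hq' : Function.Surjective q) (hex : Function.Exact i q)
    {A B : Set (List P)} (hA : Inv T H A) (hB : Inv T H B) (hfree : Free g (A \ B))
    {a2 a3 : Λ} {k2 k3 : ℕ} (h2 : NilV T N H ρ2 A B a2 k2) (h3 : NilV T N H ρ3 A B a3 k3) :
    NilV T N H ρ1 A B (a2 * a3) (k2 + k3) := by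
  intro top f hf hD
  obtain ⟨b, hb, eb⟩ := h2 top _ (coc_comp hi hf) fun j l hl => by
    rw [Dc_comp, hD j l hl, map_zero]
  obtain ⟨d, hd, ed⟩ := h3 top _ (coc_comp hq hb) fun j l hl => by
    rw [Dc_comp, eb j l hl, map_smul, LinearMap.comp_apply, hex.apply_apply_eq_zero, smul_zero]
  obtain ⟨c, hc', ec⟩ := lift hg hρ hq hq' hA hB hfree hd
  have hDc := coc_Dc (N := N) hc hB.1 hc'
  have hb' : Coc H ρ2 top B fun j => a3 • b (j + 2 * k3) - Dc T N c j :=
    ⟨fun j u x => by simp only [LinearMap.sub_apply, LinearMap.smul_apply, hb.1, hDc.1, map_sub,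
        map_smul],
      fun j hj => by simp only [hb.2.1 (j + 2 * k3) (by omega), hDc.2.1 j hj, smul_zero, sub_zero],
      fun j l hl => by simp only [LinearMap.sub_apply, LinearMap.smul_apply, hb.2.2 _ l hl,
        hDc.2.2 j l hl, smul_zero, sub_zero]⟩
  obtain ⟨b1, hb1, e1⟩ := pull hi hi' hA hb' fun j l hl => by
    refine (hex _).1 ?_
    rw [LinearMap.sub_apply, map_sub, ← Dc_comp, Dc_congr (f' := d) hA.1 ec j hl, ed j l hl,
      LinearMap.smul_apply, map_smul, LinearMap.comp_apply, sub_self]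
  refine ⟨b1, hb1, fun j l hl => hi' ?_⟩
  have e2 : Dc T N (fun j => a3 • b (j + 2 * k3) - Dc T N c j) j (Finsupp.single l 1) =
      a3 • Dc T N (fun j => b (j + 2 * k3)) j (Finsupp.single l 1) -
        Dc T N (Dc T N c) j (Finsupp.single l 1) := by
    rw [Dc_app _ j, Dc_app (fun j => b (j + 2 * k3)) j, Dc_app (Dc T N c) j]
    simp only [LinearMap.sub_apply, LinearMap.smul_apply, smul_sub]
    abel
  have e3 : j + 2 * ((k2 + k3 : ℕ) : ℤ) = j + 2 * k3 + 2 * k2 := by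
    push_cast
    ring
  rw [← Dc_comp, Dc_congr hA.1 e1 j hl, e2, Dc_Dc hT, Dc_shift, eb _ l hl, sub_zero, map_smul,
    LinearMap.comp_apply, mul_comm a2, mul_smul, e3]

end alg

end Pool.Agent.Lib.MP_7903c7_al.D
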