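import Pool.Agent.Lib.MP_7903c7_al.D.Alg2
import Pool.Agent.Lib.MP_7903c7_al.D.Alg3

set_option autoImplicit false

/-!
Nilpotence passes from the stabilisers of a finite dimensional acyclic complex to the group.
-/

namespace Pool.Agent.Lib.MP_7903c7_al.D

open Finset RF LS.CutCore
open scoped Classical Pointwise

namespace Alg4

theorem ginv {Y Y' : Type} (b : (Y' →₀ ℤ) →ₗ[ℤ] (Y →₀ ℤ)) (π : (Y →₀ ℤ) →ₗ[ℤ] (Y →₀ ℤ))
    (h1 : ∀ x, π x ∈ Set.range b) (h2 : ∀ x, π (b x) = b x) :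
    ∃ s : (Y →₀ ℤ) →ₗ[ℤ] (Y' →₀ ℤ), ∀ x, b (s (b x)) = b x := by
  choose u hu using fun y : Y => h1 (Finsupp.single y 1)
  have : b ∘ₗ Finsupp.linearCombination ℤ u = π := by
    refine Finsupp.lhom_ext' fun y => LinearMap.ext_ring ?_
    simp [hu]
  exact ⟨Finsupp.linearCombination ℤ u, fun x => (LinearMap.congr_fun this (b x)).trans (h2 x)⟩

theorem contr {Y : ℕ → Type} (bd : ∀ i, (Y (i + 1) →₀ ℤ) →ₗ[ℤ] (Y i →₀ ℤ)) (y0 : Y 0)
    (hex0 : Function.Exact (bd 0) (Finsupp.linearCombination ℤ fun _ : Y 0 => (1 : ℤ)))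
    (hex : ∀ i, Function.Exact (bd (i + 1)) (bd i)) (i : ℕ) :
    ∃ s : (Y i →₀ ℤ) →ₗ[ℤ] (Y (i + 1) →₀ ℤ), ∀ x, bd i (s (bd i x)) = bd i x := by
  induction i with
  | zero =>
    refine ginv _ (LinearMap.id - Finsupp.lsingle y0 ∘ₗ
      Finsupp.linearCombination ℤ fun _ : Y 0 => (1 : ℤ)) (fun x => (hex0 _).1 ?_) fun x => ?_
    · simp
    · simp [hex0.apply_apply_eq_zero x]
  | succ i ih =>
    obtain ⟨s, hs⟩ := ih
    refine ginv _ (LinearMap.id - s ∘ₗ bd i) (fun x => (hex i _).1 ?_) fun x => ?_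
    · simp [hs]
    · simp [(hex i).apply_apply_eq_zero x]

variable {Λ V Y Y' : Type} [CommRing Λ] [AddCommGroup V] [Module Λ V]

/-- The pairing of a chain with a function. -/
noncomputable def pr (Λ V Y : Type) [CommRing Λ] [AddCommGroup V] [Module Λ V] :
    (Y →₀ ℤ) →ₗ[ℤ] ((Y → V) →ₗ[Λ] V) :=
  Finsupp.linearCombination ℤ fun y => LinearMap.proj y

theorem pr_single (y : Y) (n : ℤ) (f : Y → V) : pr Λ V Y (Finsupp.single y n) f = n • f y := by
  simp [pr]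

/-- The transpose of a map of chains. -/
noncomputable def dl (Λ V : Type) [CommRing Λ] [AddCommGroup V] [Module Λ V]
    (b : (Y' →₀ ℤ) →ₗ[ℤ] (Y →₀ ℤ)) : (Y → V) →ₗ[Λ] (Y' → V) :=
  LinearMap.pi fun y => pr Λ V Y (b (Finsupp.single y 1))

theorem dl_apply (b : (Y' →₀ ℤ) →ₗ[ℤ] (Y →₀ ℤ)) (f : Y → V) (y : Y') :
    dl Λ V b f y = pr Λ V Y (b (Finsupp.single y 1)) f := rfl

theorem pr_dl (b : (Y' →₀ ℤ) →ₗ[ℤ] (Y →₀ ℤ)) (f : Y → V) (x : Y' →₀ ℤ) :
    pr Λ V Y' x (dl Λ V b f) = pr Λ V Y (b x) f := by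
  induction x using Finsupp.induction_linear with
  | zero => simp
  | add x x' h h' => simp only [map_add, LinearMap.add_apply, h, h']
  | single y n =>
    rw [pr_single, dl_apply, ← LinearMap.smul_apply, ← map_smul, ← map_smul]
    simp

theorem pr_map (u : V →ₗ[Λ] V) (σ : Y → Y) (f : Y → V) (x : Y →₀ ℤ) :
    pr Λ V Y x (fun y => u (f (σ y))) = u (pr Λ V Y (Finsupp.mapDomain σ x) f) := by
  induction x using Finsupp.induction_linear with
  | zero => simp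
  | add x x' h h' => simp only [Finsupp.mapDomain_add, map_add, LinearMap.add_apply, h, h']
  | single y n => rw [Finsupp.mapDomain_single, pr_single, pr_single, map_zsmul]

theorem pr_const (v : V) (x : Y →₀ ℤ) :
    pr Λ V Y x (fun _ => v) = (Finsupp.linearCombination ℤ (fun _ : Y => (1 : ℤ)) x) • v := by
  induction x using Finsupp.induction_linear with
  | zero => simp
  | add x x' h h' => simp only [map_add, LinearMap.add_apply, h, h', add_smul]
  | single y n => simp [pr_single]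

theorem dl_exact {Y'' : Type} {b : (Y' →₀ ℤ) →ₗ[ℤ] (Y →₀ ℤ)} {b' : (Y'' →₀ ℤ) →ₗ[ℤ] (Y' →₀ ℤ)}
    (hex : Function.Exact b' b) (s : (Y →₀ ℤ) →ₗ[ℤ] (Y' →₀ ℤ)) (hs : ∀ x, b (s (b x)) = b x) :
    Function.Exact (dl Λ V b) (dl Λ V b') := by
  intro f
  constructor
  · intro hf
    refine ⟨dl Λ V s f, funext fun y => ?_⟩
    obtain ⟨z, hz⟩ := (hex (Finsupp.single y 1 - s (b (Finsupp.single y 1)))).1 (by simp [hs])
    have h1 := pr_dl (Λ := Λ) b' f z
    rw [hf, map_zero, hz, map_sub, LinearMap.sub_apply, pr_single, one_smul] at h1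
    rw [dl_apply, pr_dl]
    exact (sub_eq_zero.1 h1.symm).symm
  · rintro ⟨f, rfl⟩
    funext y
    rw [dl_apply, pr_dl, hex.apply_apply_eq_zero]
    simp

theorem dl_exact0 {b : (Y' →₀ ℤ) →ₗ[ℤ] (Y →₀ ℤ)} (y0 : Y)
    (hex : Function.Exact b (Finsupp.linearCombination ℤ fun _ : Y => (1 : ℤ))) :
    Function.Exact (LinearMap.pi fun _ : Y => (LinearMap.id : V →ₗ[Λ] V)) (dl Λ V b) := by
  intro f
  constructor
  · intro hf
    refine ⟨f y0, funext fun y => ?_⟩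
    obtain ⟨z, hz⟩ := (hex (Finsupp.single y0 1 - Finsupp.single y 1)).1 (by simp)
    have h1 := pr_dl (Λ := Λ) b f z
    rw [hf, map_zero, hz, map_sub, LinearMap.sub_apply, pr_single, pr_single, one_smul,
      one_smul] at h1
    exact sub_eq_zero.1 h1.symm
  · rintro ⟨v, rfl⟩
    funext y
    have := pr_const (Λ := Λ) v (b (Finsupp.single y 1))
    rw [hex.apply_apply_eq_zero, zero_smul] at this
    exact this

variable {G : Type} [Group G] {H : Subgroup G}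

theorem dl_equi (ρ : Representation Λ H V) (a : H →* Equiv.Perm Y) (a' : H →* Equiv.Perm Y')
    {b : (Y' →₀ ℤ) →ₗ[ℤ] (Y →₀ ℤ)}
    (heq : ∀ c x, b (Finsupp.mapDomain (a' c) x) = Finsupp.mapDomain (a c) (b x)) (c : H)
    (f : Y → V) : dl Λ V b (coind ρ a c f) = coind ρ a' c (dl Λ V b f) := by
  funext y
  have := pr_map (ρ c) (a c⁻¹) f (b (Finsupp.single y 1))
  rw [← heq, Finsupp.mapDomain_single] at this
  exact this

/-- The cocycles. -/
noncomputable def zr (ρ : Representation Λ H V) (a : H →* Equiv.Perm Y)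
    (a' : H →* Equiv.Perm Y') {b : (Y' →₀ ℤ) →ₗ[ℤ] (Y →₀ ℤ)}
    (heq : ∀ c x, b (Finsupp.mapDomain (a' c) x) = Finsupp.mapDomain (a c) (b x)) :
    Representation Λ H (LinearMap.ker (dl Λ V b)) :=
  (coind ρ a).subrepresentation _ fun c f hf => by
    rw [Submodule.mem_comap, LinearMap.mem_ker, dl_equi ρ a a' heq, LinearMap.mem_ker.1 hf,
      map_zero]

theorem nilV_triv {P : Type} [MulAction G P] (T : P → P) (N : ℕ) [Subsingleton V]
    (ρ : Representation Λ H V) (A B : Set (List P)) (a : Λ) (k : ℕ) : NilV T N H ρ A B a k :=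
  fun _ f hf _ => ⟨f, hf, fun _ _ _ => Subsingleton.elim _ _⟩

end Alg4

variable {G P Λ : Type} [Group G] [MulAction G P] [CommRing Λ] {T : P → P} {N : ℕ} {g : G}

open Alg4 in
theorem Nil.dim (hT : T^[N] = id) (hc : ∀ (c : G) v, T (c • v) = c • T v) {C : Subgroup G}
    (d : ℕ) (Y : ℕ → Type) (act : ∀ i, C →* Equiv.Perm (Y i))
    (bd : ∀ i, (Y (i + 1) →₀ ℤ) →ₗ[ℤ] (Y i →₀ ℤ))
    (heq : ∀ i (c : C) (x : Y (i + 1) →₀ ℤ),
      bd i (Finsupp.mapDomain (act (i + 1) c) x) = Finsupp.mapDomain (act i c) (bd i x))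
    (hne : Nonempty (Y 0))
    (hex0 : Function.Exact (bd 0) (Finsupp.linearCombination ℤ fun _ : Y 0 => (1 : ℤ)))
    (hex : ∀ i, Function.Exact (bd (i + 1)) (bd i)) (hemp : IsEmpty (Y (d + 1)))
    (hg : ∀ i (c : C), (c : G) = g → act i c = 1) {W : Set (List P)} (hfree : Free g W)
    {a : Λ} {k : ℕ} (h : ∀ i y, Nil T N g (stb (act i) y) W a k) :
    Nil T N g C W (a ^ (d + 1)) ((d + 1) * k) := by
  intro H hH hcen hgH V _ _ ρ hρ A B hA hB hBA hW
  obtain ⟨y0⟩ := hne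
  set ac : ∀ i, H →* Equiv.Perm (Y i) := fun i => (act i).comp (Subgroup.inclusion hH) with hac
  have he : ∀ i (c : H) x, bd i (Finsupp.mapDomain (ac (i + 1) c) x) =
      Finsupp.mapDomain (ac i c) (bd i x) := fun i c x => heq i _ x
  have g1 : ∀ i, ac i ⟨g, hgH⟩ = 1 := fun i => hg i _ rfl
  have g2 : ∀ i, coind ρ (ac i) ⟨g, hgH⟩ = 1 := fun i => by
    refine LinearMap.ext fun f => funext fun y => ?_
    change ρ ⟨g, hgH⟩ (f (ac i (⟨g, hgH⟩ : H)⁻¹ y)) = f y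
    rw [map_inv, g1, hρ]
    rfl
  have fr : Free g (A \ B) := fun l hl => hfree l (hW hl)
  have nF : ∀ i, NilV T N H (coind ρ (ac i)) A B a k := fun i => by
    refine NilV.coind hc ρ _ hA hB fun y => ⟨1, ?_⟩
    have le := stb_le (ac i) (ac i 1 y)
    refine h i (ac i 1 y) _ (fun z hz => ?_) (fun c hc' => hcen c (le hc'))
      (mem_stb.2 ⟨hgH, by rw [g1]; rfl⟩) V _ hρ A B ⟨hA.1, fun c hc' => hA.2 c (le hc')⟩
      ⟨hB.1, fun c hc' => hB.2 c (le hc')⟩ hBA hW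
    obtain ⟨h1, h2⟩ := mem_stb.1 hz
    exact mem_stb.2 ⟨hH h1, h2⟩
  have ex : ∀ i, Function.Exact (dl Λ V (bd i)) (dl Λ V (bd (i + 1))) := fun i => by
    obtain ⟨s, hs⟩ := contr bd y0 hex0 hex i
    exact dl_exact (hex i) s hs
  have step : ∀ (i : ℕ) (U : Type) [AddCommGroup U] [Module Λ U] (σ : Representation Λ H U)
      (ι : U →ₗ[Λ] (Y i → V)), (∀ c x, ι (σ c x) = coind ρ (ac i) c (ι x)) →
      Function.Injective ι → Function.Exact ι (dl Λ V (bd i)) → ∀ j : ℕ,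
      NilV T N H (zr ρ _ _ (he (i + 1))) A B (a ^ j) (j * k) →
      NilV T N H σ A B (a ^ (j + 1)) ((j + 1) * k) := by
    intro i U _ _ σ ι h1 h2 h3 j h4
    rw [pow_succ', add_mul, one_mul, add_comm (j * k)]
    refine NilV.ses hT hc hgH σ _ (zr ρ _ _ (he (i + 1))) (g2 i) ι
      ((dl Λ V (bd i)).codRestrict _ fun f => (ex i).apply_apply_eq_zero f) h1
      (fun c x => Subtype.ext (dl_equi ρ _ _ (he i) c x)) h2
      (fun z => ?_) (fun f => ?_) hA hB fr (nF i) h4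
    · obtain ⟨f, hf⟩ := (ex i z.1).1 z.2
      exact ⟨f, Subtype.ext hf⟩
    · exact Subtype.ext_iff.trans (h3 f)
  have nZ : ∀ j i, i + j = d + 1 → NilV T N H (zr ρ _ _ (he i)) A B (a ^ j) (j * k) := by
    intro j
    induction j with
    | zero =>
      rintro i (rfl : i = d + 1)
      exact nilV_triv T N _ A B _ _
    | succ j ih =>
      intro i hi
      exact step i _ _ (Submodule.subtype _) (fun _ _ => rfl) Subtype.val_injective
        (LinearMap.exact_subtype_ker_map _) j (ih (i + 1) (by omega))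
  exact step 0 V ρ _ (fun _ _ => rfl) (fun v w hvw => congrFun hvw y0) (dl_exact0 y0 hex0) d
    (nZ d 1 (by omega))

end Pool.Agent.Lib.MP_7903c7_al.D
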