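import Pool.Agent.Lib.MP_7903c7_al.D.Defs
import Pool.Agent.Lib.MP_7903c7_al.RF.Win

/-!
Classes of loops: rotation, invariance and freeness.
-/

namespace Pool.Agent.Lib.MP_7903c7_al.D

open Finset RF LS.CutCore
open scoped Classical Pointwise

variable {G : Type} [Group G]

namespace Loop

omit [Group G] in
theorem rt_mk (N : ℕ) (γ : ℤ → G) : rt G N (mk N γ) = mk N fun t => γ (t - 1) := rfl

theorem smul_mk (N : ℕ) (c : G) (γ : ℤ → G) : c • mk N γ = mk N fun t => c * γ t := rfl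

omit [Group G] in
theorem mk_eq {N : ℕ} {γ γ' : ℤ → G} :
    mk N γ = mk N γ' ↔ ∃ n : ℤ, ∀ t, γ' t = γ (t + n * N) :=
  Quotient.eq (r := shS G N)

omit [Group G] in
theorem rt_iter_mk (N n : ℕ) (γ : ℤ → G) :
    (rt G N)^[n] (mk N γ) = mk N fun t => γ (t - n) := by
  induction n with
  | zero => simp
  | succ n ih =>
    rw [Function.iterate_succ_apply', ih, rt_mk]
    congr 1
    funext t
    congr 1
    push_cast
    ring

theorem loop_zpow {g : G} {N : ℕ} {γ : ℤ → G} (h : IsLoop g N γ) (n t : ℤ) :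
    γ (t + n * N) = g ^ n * γ t := by
  induction n using Int.induction_on with
  | zero => simp
  | succ n ih =>
    rw [add_mul, one_mul, ← add_assoc, h, ih, ← mul_assoc, add_comm (n : ℤ), zpow_one_add]
  | pred n ih =>
    have := h (t + (-(n : ℤ) - 1) * N)
    rw [show t + (-(n : ℤ) - 1) * N + N = t + -(n : ℤ) * N by ring, ih] at this
    rw [zpow_sub_one, (Commute.zpow_left (Commute.refl g).inv_right _).eq, mul_assoc, this,
      inv_mul_cancel_left]

theorem good_add {g : G} {S : Finset G} {N L : ℕ} {γ : ℤ → G} (h : Good g S N L γ) (c : ℤ) :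
    Good g S N L fun t => γ (t + c) := by
  obtain ⟨h, ℓ, hp, hs, hl⟩ := h
  refine ⟨fun t => ?_, fun t => ℓ (t + c), fun t => ?_, fun t => ?_, ?_⟩
  · simp only [add_right_comm t (N : ℤ) c, h (t + c)]
  · simp only [add_right_comm t (N : ℤ) c, hp (t + c)]
  · simpa only [add_right_comm t 1 c] using hs (t + c)
  · rwa [Win.per_sum N ℓ hp c]

theorem good_sh {g : G} {S : Finset G} {N L : ℕ} {γ : ℤ → G} (h : Good g S N L γ) :
    Good g S N L fun t => γ (t - 1) := by
  simpa only [sub_eq_add_neg] using good_add h (-1)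

theorem good_mul {g c : G} {S : Finset G} {N L : ℕ} {γ : ℤ → G} (hc : c * g = g * c)
    (h : Good g S N L γ) : Good g S N L fun t => c * γ t := by
  obtain ⟨h, ℓ, hp, hs, hl⟩ := h
  refine ⟨fun t => ?_, ℓ, hp, fun t => ?_, hl⟩
  · simp only [h t, ← mul_assoc, hc]
  · simpa only [mul_inv_rev, mul_assoc, inv_mul_cancel_left] using hs t

theorem near_add {g : G} {N m : ℕ} {γ γ' : ℤ → G} (h : IsLoop g N γ) (h' : IsLoop g N γ')
    (hn : Near N m γ γ') (c : ℤ) : Near N m (fun t => γ (t + c)) fun t => γ' (t + c) := by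
  unfold Near at hn ⊢
  rw [card_filter] at hn ⊢
  rwa [Win.per_sum N (fun t => if γ t ≠ γ' t then 1 else 0)
    (fun t => by simp only [h t, h' t, ne_eq, mul_right_inj]) c]

theorem near_sh {g : G} {N m : ℕ} {γ γ' : ℤ → G} (h : IsLoop g N γ) (h' : IsLoop g N γ')
    (hn : Near N m γ γ') : Near N m (fun t => γ (t - 1)) fun t => γ' (t - 1) := by
  simpa only [sub_eq_add_neg] using near_add h h' hn (-1)

theorem near_mul {N m : ℕ} {γ γ' : ℤ → G} (hn : Near N m γ γ') (c : G) :
    Near N m (fun t => c * γ t) fun t => c * γ' t := by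
  unfold Near at hn ⊢
  simpa only [ne_eq, mul_right_inj] using hn

theorem GG_ne {g : G} {S : Finset G} {N L m : ℕ} {l : List (Pt G N)} (h : l ∈ GG g S N L m) :
    ∃ γ, Good g S N L γ ∧ mk N γ ∈ l := by
  obtain ⟨l', rfl, hg, -, γ, hγ, -⟩ := h
  exact ⟨γ, hg γ hγ, List.mem_map_of_mem hγ⟩

end Loop

open Loop

omit [Group G] in
theorem rt_iter (N : ℕ) : (rt G N)^[N] = id := by
  funext v
  induction v using Quotient.inductionOn with
  | h γ => exact (rt_iter_mk N N γ).trans (mk_eq.2 ⟨1, fun t => by simp⟩)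

theorem rt_smul (N : ℕ) (c : G) (v : Pt G N) : rt G N (c • v) = c • rt G N v := by
  induction v using Quotient.inductionOn with
  | h γ => rfl

theorem GG_inv {g : G} {C : Subgroup G} (S : Finset G) (N L m : ℕ)
    (hc : ∀ c ∈ C, c * g = g * c) : Inv (rt G N) C (GG g S N L m) := by
  refine ⟨⟨?_, ?_⟩, ?_⟩
  · rintro _ ⟨l', rfl, hg, hn, γ, hγ, -⟩
    refine ⟨l'.map fun γ t => γ (t - 1), by simp only [List.map_map]; rfl, ?_, ?_,
      _, List.mem_map_of_mem hγ, trivial⟩
    · simp only [List.forall_mem_map]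
      exact fun γ hγ => good_sh (hg γ hγ)
    · simp only [List.forall_mem_map]
      exact fun γ hγ γ' hγ' => near_sh (hg γ hγ).1 (hg γ' hγ').1 (hn γ hγ γ' hγ')
  · rintro _ ⟨l', rfl, hg, hn, -⟩ l hl hs
    obtain ⟨l0, hs0, rfl⟩ := List.sublist_map_iff.1 hs
    obtain ⟨γ, hγ⟩ := List.exists_mem_of_ne_nil l0 fun h => hl (by rw [h]; rfl)
    exact ⟨l0, rfl, fun γ hγ => hg γ (hs0.subset hγ),
      fun γ hγ γ' hγ' => hn γ (hs0.subset hγ) γ' (hs0.subset hγ'), γ, hγ, trivial⟩
  · rintro c hcC _ ⟨l', rfl, hg, hn, γ, hγ, -⟩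
    refine ⟨l'.map fun γ t => c * γ t, by simp only [List.map_map]; rfl, ?_, ?_,
      _, List.mem_map_of_mem hγ, trivial⟩
    · simp only [List.forall_mem_map]
      exact fun γ hγ => good_mul (hc c hcC) (hg γ hγ)
    · simp only [List.forall_mem_map]
      exact fun γ hγ γ' hγ' => near_mul (hn γ hγ γ' hγ') c

theorem GG_free (g : G) (S : Finset G) (N L m : ℕ) : Free g (GG g S N L m) := by
  intro l hl c h
  obtain ⟨γ, hγ, hm⟩ := GG_ne hl
  have h1 : c • mk N γ = mk N γ := by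
    have := List.map_inj_left.1 (h.trans (List.map_id' l).symm)
    exact this _ hm
  obtain ⟨n, hn⟩ := mk_eq.1 h1
  have h2 := hn 0
  simp only [loop_zpow hγ.1 n 0, ← mul_assoc, right_eq_mul] at h2
  exact ⟨-n, by rw [eq_inv_of_mul_eq_one_left h2]; exact zpow_neg g n⟩

end Pool.Agent.Lib.MP_7903c7_al.D
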