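import Pool.Agent.Lib.MP_7903c7_al.D.Alg1
import Pool.Agent.Lib.MP_7903c7_al.D.Loop

set_option autoImplicit false

/-!
Covering of the lists of near loops by cuts.
-/

namespace Pool.Agent.Lib.MP_7903c7_al.D

open Finset RF LS.CutCore
open scoped Classical Pointwise

namespace Cover

variable {G : Type} [Group G] {g : G} {C : Subgroup G} {N : ℕ} {γ : ℤ → G}
  {w : (ℤ → G) → ℤ} {F : (ℤ → G) → ℂ}

theorem loop_zpow (h : IsLoop g N γ) (n t : ℤ) : γ (t + n * N) = g ^ n * γ t := by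
  induction n using Int.induction_on with
  | zero => simp
  | succ n ih => rw [add_mul, one_mul, ← add_assoc, h, ih, ← mul_assoc, ← zpow_one_add, add_comm]
  | pred n ih =>
    have := h (t + (-(n : ℤ) - 1) * N)
    rw [show t + (-(n : ℤ) - 1) * N + N = t + -(n : ℤ) * N by ring, ih] at this
    rw [eq_inv_mul_iff_mul_eq.2 this.symm, ← mul_assoc, ← zpow_neg_one, ← zpow_add]
    congr 2; ring

theorem out_mk (hg : g ∈ C) (hE : Equi g C N w F) (h : IsLoop g N γ) :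
    w (mk N γ).out = w γ ∧ F (mk N γ).out = F γ := by
  obtain ⟨n, hn⟩ := (shS G N).symm (Quotient.mk_out (s := shS G N) γ)
  have e : (mk N γ).out = fun t => g ^ n * γ t := funext fun t => (hn t).trans (loop_zpow h n t)
  rw [e]
  exact (hE γ h).1 _ (C.zpow_mem hg n)

/-- Classes of loops. -/
def Lp (g : G) (N : ℕ) (v : Pt G N) : Prop := ∃ γ, IsLoop g N γ ∧ mk N γ = v

theorem loop_mul {c : G} (hc : c * g = g * c) (h : IsLoop g N γ) :
    IsLoop g N fun t => c * γ t := fun t => by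
  simp only [h t, ← mul_assoc, hc]

theorem loop_rt (h : IsLoop g N γ) : IsLoop g N fun t => γ (t - 1) := fun t => by
  simp only [← h (t - 1)]; congr 1; ring

theorem lp_smul (hc : ∀ c ∈ C, c * g = g * c) {c : G} (h : c ∈ C) {v : Pt G N} :
    Lp g N (c • v) ↔ Lp g N v := by
  have key : ∀ c ∈ C, ∀ v : Pt G N, Lp g N v → Lp g N (c • v) := by
    rintro c h _ ⟨γ, h1, rfl⟩
    exact ⟨_, loop_mul (hc c h) h1, rfl⟩
  exact ⟨fun h1 => by simpa using key _ (C.inv_mem h) _ h1, key c h v⟩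

theorem lp_rt {v : Pt G N} (h : Lp g N v) : Lp g N (rt G N v) := by
  obtain ⟨γ, h1, rfl⟩ := h
  exact ⟨_, loop_rt h1, rfl⟩

/-- The universal rotation. -/
noncomputable def un (Q : ℤ → Prop) (N : ℕ) (x : {z // Q z} × ℂ) : {z // Q z} × ℂ :=
  (x.1, ee ((x.1.1 : ℝ) / N) * x.2)

theorem un_pow (Q : ℤ → Prop) (N n : ℕ) (x : {z // Q z} × ℂ) :
    (un Q N)^[n] x = (x.1, ee ((x.1.1 : ℝ) / N) ^ n * x.2) := by
  induction n with
  | zero => simp
  | succ n ih => rw [Function.iterate_succ_apply', ih, un, pow_succ', mul_assoc]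

theorem un_iter (Q : ℤ → Prop) (hN : 0 < N) : (un Q N)^[N] = id := by
  funext x
  have h0 : (N : ℂ) ≠ 0 := by exact_mod_cast hN.ne'
  rw [un_pow, ee, ← Complex.exp_nat_mul,
    show (N : ℂ) * (2 * Real.pi * (((x.1.1 : ℝ) / N : ℝ) : ℂ) * Complex.I) =
      (x.1.1 : ℤ) * (2 * Real.pi * Complex.I) by push_cast; field_simp,
    Complex.exp_int_mul_two_pi_mul_I, one_mul]
  rfl

/-- The relation of a cut on classes of loops. -/
def rel (g : G) (N : ℕ) (w : (ℤ → G) → ℤ) (F : (ℤ → G) → ℂ) (u v : Pt G N) : Prop :=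
  Lp g N u ∧ Lp g N v ∧ w u.out = w v.out ∧ 0 < (F u.out * (starRingEnd ℂ) (F v.out)).re

theorem one {Λ : Type} [CommRing Λ] (hN : 0 < N) {p J a : ℕ} (hp : p.Prime)
    (hJ : (p : Λ) ^ J = 0) (hg : g ∈ C) (hc : ∀ c ∈ C, c * g = g * c)
    (hw : ∀ γ, ¬ (p : ℤ) ^ (a + 1) ∣ w γ) (hE : Equi g C N w F) :
    Inv (rt G N) C (Gl (rel g N w F)) ∧
      Nil (rt G N) N g C (Gl (rel g N w F)) ((p : Λ) ^ a) 1 := by
  set Q : ℤ → Prop := fun z => ¬ (p : ℤ) ^ (a + 1) ∣ z with hQ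
  obtain ⟨al, be, H⟩ := exists_cut (Λ := Λ) (T := un Q N) (w := fun x => x.1.1)
    (F := fun x => x.2) hN (un_iter Q hN) hp hJ (fun _ => rfl)
    (fun v => by simp only [un, ee]; congr 2; ring) fun v => v.1.2
  let π : Pt G N → {z // Q z} × ℂ := fun v => (⟨w v.out, hw _⟩, F v.out)
  have p1 : ∀ c ∈ C, ∀ v, Lp g N v → π (c • v) = π v := by
    rintro c h _ ⟨γ, h1, rfl⟩
    have h2 := out_mk hg hE h1
    have h3 := out_mk hg hE (loop_mul (hc c h) h1)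
    have h4 := (hE γ h1).1 c h
    exact Prod.ext (Subtype.ext (h3.1.trans (h4.1.trans h2.1.symm)))
      (h3.2.trans (h4.2.trans h2.2.symm))
  have p2 : ∀ v, Lp g N v → π (rt G N v) = un Q N (π v) := by
    rintro _ ⟨γ, h1, rfl⟩
    have h2 := out_mk hg hE h1
    have h3 := out_mk hg hE (loop_rt h1)
    have h4 := (hE γ h1).2
    refine Prod.ext (Subtype.ext (h3.1.trans (h4.1.trans h2.1.symm)))
      (h3.2.trans (h4.2.trans ?_))
    simp only [un, π, h2.1, h2.2]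
  have p3 : ∀ (n : ℕ) v, Lp g N v →
      Lp g N ((rt G N)^[n] v) ∧ π ((rt G N)^[n] v) = (un Q N)^[n] (π v) := by
    intro n v hv
    induction n with
    | zero => exact ⟨hv, rfl⟩
    | succ n ih =>
      rw [Function.iterate_succ_apply', Function.iterate_succ_apply', ← ih.2]
      exact ⟨lp_rt ih.1, p2 _ ih.1⟩
  have r1 : ∀ u v, rel g N w F u v ↔ Lp g N u ∧ Lp g N v ∧
      Cl (fun x : {z // Q z} × ℂ => x.1.1) (fun x => x.2) (π u) (π v) := fun _ _ => Iff.rfl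
  have inv : ∀ u v, rel g N w F u v → rel g N w F (rt G N u) (rt G N v) := fun u v h =>
    (r1 _ _).2 ⟨lp_rt h.1, lp_rt h.2.1, by
      rw [p2 u h.1, p2 v h.2.1]; exact H.inv _ _ h.2.2⟩
  have cut : Cut (rt G N) N (rel g N w F) ((p : Λ) ^ a)
      (fun u v => if Lp g N u ∧ Lp g N v then al (π u) (π v) else 0)
      fun v => if Lp g N v then be (π v) else 0 := by
    refine ⟨inv, fun x y z h1 h2 h3 => ?_, fun x y h => ?_, fun x h => ?_⟩
    · simp only [h1.1, h2.1, h2.2.1, and_self, if_true]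
      exact H.coc _ _ _ h1.2.2 h2.2.2 h3.2.2
    · simp only [h.1, h.2.1, lp_rt h.1, lp_rt h.2.1, and_self, if_true, p2 x h.1, p2 y h.2.1]
      exact H.mov _ _ h.2.2
    · rw [← H.tot (π x) h.2.2]
      exact sum_congr rfl fun n _ => by simp only [(p3 n x h.1).1, (p3 n x h.1).2, if_true]
  refine ⟨⟨clo_Gl inv, fun c h l hl => ⟨by simpa using hl.1, ?_⟩⟩,
    Nil.cut (rt_iter N) (rt_smul N) cut (fun c h u v => ?_) fun c h v => ?_⟩
  · simp only [List.mem_map]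
    rintro _ ⟨x, hx, rfl⟩ _ ⟨y, hy, rfl⟩
    have h1 := hl.2 x hx y hy
    refine (r1 _ _).2 ⟨(lp_smul hc h).2 h1.1, (lp_smul hc h).2 h1.2.1, ?_⟩
    rw [p1 c h x h1.1, p1 c h y h1.2.1]
    exact h1.2.2
  · simp only [lp_smul hc h]
    split_ifs with h1
    · rw [p1 c h u h1.1, p1 c h v h1.2]
    · rfl
  · simp only [lp_smul hc h]
    split_ifs with h1
    · rw [p1 c h v h1]
    · rfl

end Cover

variable {G : Type} [Group G]

theorem nil_cover {Λ : Type} [CommRing Λ] {g : G} {C : Subgroup G} (S : Finset G) (N L m : ℕ)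
    (hN : 0 < N) {p J : ℕ} (hp : p.Prime) (hJ : (p : Λ) ^ J = 0) (hg : g ∈ C)
    (hc : ∀ c ∈ C, c * g = g * c) {ι : Type} (s : Finset ι) (a : ι → ℕ) (w : ι → (ℤ → G) → ℤ)
    (F : ι → (ℤ → G) → ℂ) (hw : ∀ i ∈ s, ∀ γ, ¬ (p : ℤ) ^ (a i + 1) ∣ w i γ)
    (hE : ∀ i ∈ s, Equi g C N (w i) (F i)) (W : (ℤ → G) → Prop)
    (hcov : ∀ γ, Good g S N L γ → W γ → ∃ i ∈ s, Fine g S N L m (w i) (F i) γ) :
    ∃ A, Inv (rt G N) C A ∧ Nil (rt G N) N g C A ((p : Λ) ^ ∑ i ∈ s, a i) s.card ∧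
      GW g S N L m W ⊆ A := by
  have H := fun i (hi : i ∈ s) => Cover.one hN hp hJ hg hc (hw i hi) (hE i hi)
  obtain ⟨h1, h2⟩ := Nil.biUnion (rt_iter N) (rt_smul N) s
    (fun i => Gl (Cover.rel g N (w i) (F i))) (fun i => (p : Λ) ^ a i) (fun _ => 1)
    (fun i hi => (H i hi).1) fun i hi => (H i hi).2
  rw [prod_pow_eq_pow_sum, ← card_eq_sum_ones] at h2
  refine ⟨_, h1, h2, ?_⟩
  rintro _ ⟨l, rfl, h3, h4, γ, h5, h6⟩
  obtain ⟨i, hi, h7⟩ := hcov γ (h3 γ h5) h6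
  refine Set.mem_biUnion hi ⟨by simpa using List.ne_nil_of_mem h5, ?_⟩
  simp only [List.mem_map]
  rintro _ ⟨x, hx, rfl⟩ _ ⟨y, hy, rfl⟩
  have e1 := Cover.out_mk hg (hE i hi) (h3 x hx).1
  have e2 := Cover.out_mk hg (hE i hi) (h3 y hy).1
  refine ⟨⟨x, (h3 x hx).1, rfl⟩, ⟨y, (h3 y hy).1, rfl⟩, ?_⟩
  rw [e1.1, e1.2, e2.1, e2.2]
  exact h7 x y (h3 x hx) (h3 y hy) (h4 γ h5 x hx) (h4 γ h5 y hy)

end Pool.Agent.Lib.MP_7903c7_al.D
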