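import Pool.Agent.Lib.MP_7903c7_al.D.Defs
import Pool.Agent.Lib.MP_7903c7_al.RF.Geo
import Pool.Agent.Lib.MP_7903c7_al.RF.Sys3

set_option autoImplicit false

/-!
Geometric data with a height bound that does not depend on the subgroup.
-/

namespace Pool.Agent.Lib.MP_7903c7_al.D

open Finset RF LS.CutCore
open scoped Classical Pointwise

variable {G : Type} [Group G]

namespace Geo2

/-- The property of a height function on the group generated by `h` and `B`. -/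
def Pr (h : G) (B : Finset G) (ψ : G → ℝ) : Prop :=
  ψ h = 1 ∧ ∀ a ∈ Subgroup.closure (insert h (B : Set G)),
    ∀ b ∈ Subgroup.closure (insert h (B : Set G)), ψ (a * b) = ψ a + ψ b

/-- A chosen height function. -/
noncomputable def ch (h : G) (B : Finset G) : G → ℝ := Classical.epsilon (Pr h B)

/-- The elements of `B` that are conjugated into `C`. -/
noncomputable def fl (C : Subgroup G) (B : Finset G) (x : G) : Finset G :=
  B.filter fun b => x * b * x⁻¹ ∈ C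

theorem conj_mem {g : G} {C : Subgroup G} (hg : g ∈ C) (B : Finset G) (x : G) {a : G}
    (ha : a ∈ Subgroup.closure (insert (x⁻¹ * g * x) (fl C B x : Set G))) : x * a * x⁻¹ ∈ C := by
  have hle : Subgroup.closure (insert (x⁻¹ * g * x) (fl C B x : Set G)) ≤
      C.comap (MulAut.conj x).toMonoidHom := by
    rw [Subgroup.closure_le]
    rintro z (rfl | hz)
    · change x * (x⁻¹ * g * x) * x⁻¹ ∈ C
      have e : x * (x⁻¹ * g * x) * x⁻¹ = g := by group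
      rwa [e]
    · exact (mem_filter.1 (mem_coe.1 hz)).2
  exact hle ha

theorem ch_spec {g : G} {C : Subgroup G} (hg : g ∈ C) {χ : G → ℝ} (hχ : χ g = 1)
    (hadd : ∀ a ∈ C, ∀ b ∈ C, χ (a * b) = χ a + χ b) (B : Finset G) (x : G) :
    Pr (x⁻¹ * g * x) (fl C B x) (ch (x⁻¹ * g * x) (fl C B x)) := by
  refine Classical.epsilon_spec (p := Pr (x⁻¹ * g * x) (fl C B x))
    ⟨fun z => χ (x * z * x⁻¹), ?_, fun a ha b hb => ?_⟩
  · have e : x * (x⁻¹ * g * x) * x⁻¹ = g := by group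
    simp only [e, hχ]
  · have e : x * (a * b) * x⁻¹ = (x * a * x⁻¹) * (x * b * x⁻¹) := by group
    simp only [e]
    exact hadd _ (conj_mem hg B x ha) _ (conj_mem hg B x hb)

/-- The data attached to a subgroup with a height function. -/
noncomputable def dt {g : G} {S : Finset G} (h1 : (1 : G) ∈ S) (hS : ∀ s ∈ S, s⁻¹ ∈ S)
    (R r0 : ℕ) {C : Subgroup G} (hg : g ∈ C) (hc : ∀ c ∈ C, c * g = g * c) {χ : G → ℝ}
    (hχ : χ g = 1) (hadd : ∀ a ∈ C, ∀ b ∈ C, χ (a * b) = χ a + χ b) : GeoAux.Dt g S R r0 where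
  C := C
  H := fun x => (Subgroup.closure (insert (x⁻¹ * g * x)
    (fl C (S ^ (2 * R + r0)) x : Set G))).comap (MulAut.conj x⁻¹).toMonoidHom
  chi := fun x z => ch (x⁻¹ * g * x) (fl C (S ^ (2 * R + r0)) x) (x⁻¹ * z * x)
  one := h1
  inv := hS
  comm := hc
  le := fun x z hz => by
    have h := conj_mem hg (S ^ (2 * R + r0)) x (a := x⁻¹ * z * x⁻¹⁻¹) hz
    have e : x * (x⁻¹ * z * x⁻¹⁻¹) * x⁻¹ = z := by group
    rwa [e] at h
  gH := fun x => by
    change x⁻¹ * g * x⁻¹⁻¹ ∈ Subgroup.closure _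
    rw [inv_inv]
    exact Subgroup.subset_closure (Set.mem_insert _ _)
  chi_g := fun x => (ch_spec hg hχ hadd _ x).1
  add := fun x a ha b hb => by
    have ha' : x⁻¹ * a * x⁻¹⁻¹ ∈ Subgroup.closure _ := ha
    have hb' : x⁻¹ * b * x⁻¹⁻¹ ∈ Subgroup.closure _ := hb
    rw [inv_inv] at ha' hb'
    have e : x⁻¹ * (a * b) * x = (x⁻¹ * a * x) * (x⁻¹ * b * x) := by group
    rw [e]
    exact (ch_spec hg hχ hadd _ x).2 _ ha' _ hb'
  loc := fun x b hb h => by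
    change x⁻¹ * (x * b * x⁻¹) * x⁻¹⁻¹ ∈ Subgroup.closure _
    have e : x⁻¹ * (x * b * x⁻¹) * x⁻¹⁻¹ = b := by group
    rw [e]
    refine Subgroup.subset_closure (Set.mem_insert_of_mem _ (mem_coe.2 (mem_filter.2 ⟨?_, h⟩)))
    rwa [← mem_coe, coe_pow]

theorem three {S : Finset G} (hS : ∀ s ∈ S, s⁻¹ ∈ S) {R L : ℕ} {u w u' : G}
    (hu : u ∈ (S : Set G) ^ R) (hw : w ∈ (S : Set G) ^ L) (hu' : u' ∈ (S : Set G) ^ R) :
    u * w * u'⁻¹ ∈ S ^ (R + L + R) := by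
  rw [← mem_coe, coe_pow]
  exact GeoAux.mul_mem_pow (GeoAux.mul_mem_pow hu hw) (GeoAux.inv_mem_pow hS R u' hu')

end Geo2

theorem geo_ab (g : G) (S : Finset G) (h1 : (1 : G) ∈ S) (hS : ∀ s ∈ S, s⁻¹ ∈ S) (R r0 L : ℕ) :
    ∃ M : ℝ, 0 ≤ M ∧ ∀ C : Subgroup G, g ∈ C → (∀ c ∈ C, c * g = g * c) →
      (∃ χ : G → ℝ, χ g = 1 ∧ ∀ a ∈ C, ∀ b ∈ C, χ (a * b) = χ a + χ b) →
      ∃ X : Geo g C S R r0 (S.card ^ R) (6 ^ (S.card ^ (2 * R + r0))), EtaB X L M := by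
  refine ⟨∑ h ∈ S ^ (R + L + R), ∑ B ∈ (S ^ (2 * R + r0)).powerset, ∑ z ∈ S ^ (R + L + R),
    |Geo2.ch h B z|, by positivity, ?_⟩
  rintro C hg hc ⟨χ, hχ, hadd⟩
  let D : GeoAux.Dt g S R r0 := Geo2.dt h1 hS R r0 hg hc hχ hadd
  refine ⟨D.geo, ?_⟩
  rintro N γ ⟨hγ, ℓ, hp, hs, hℓ⟩ κ
  have key : ∀ t ∈ range N, ∀ t' ∈ range N, t ≤ t' → D.phi κ (γ t) ≠ 0 → D.phi κ (γ t') ≠ 0 →
      |D.eta κ (γ t') - D.eta κ (γ t)| ≤
        ∑ h ∈ S ^ (R + L + R), ∑ B ∈ (S ^ (2 * R + r0)).powerset, ∑ z ∈ S ^ (R + L + R),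
          |Geo2.ch h B z| := by
    intro t ht t' ht' htt hf hf'
    have hw := (sum_window_le N N le_rfl ℓ hp t).trans hℓ
    have h1' : (γ t)⁻¹ * γ (t + N) ∈ (S : Set G) ^ L :=
      S3.path_mem h1 hs le_rfl (by omega) le_rfl hw
    have h2' : (γ t)⁻¹ * γ t' ∈ (S : Set G) ^ L :=
      S3.path_mem h1 hs le_rfl (by exact_mod_cast htt)
        (by have := mem_range.1 ht'; omega) hw
    rw [hγ t] at h1'
    have s1 := GeoAux.Dt.see_of_phi hf
    have s2 := GeoAux.Dt.see_of_phi hf'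
    obtain ⟨r1, u, hu, e1⟩ := s1.nn
    obtain ⟨r2, u', hu', e2⟩ := s2.nn
    rw [GeoAux.Dt.eta_sub s1 s2]
    generalize D.nn κ.1 (γ t) = n at r1 e1
    generalize D.nn κ.1 (γ t') = n' at r2 e2
    generalize D.x κ.1 = x at e1 e2
    have hn : n * g = g * n := hc n r1.1
    have a1 : x⁻¹ * g * x ∈ S ^ (R + L + R) := by
      have e : x⁻¹ * g * x = u * ((γ t)⁻¹ * (g * γ t)) * u⁻¹ := by
        have e3 : g = n⁻¹ * g * n := by rw [mul_assoc, ← hn, inv_mul_cancel_left]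
        rw [e1]
        conv_lhs => rw [e3]
        group
      rw [e]
      exact Geo2.three hS hu h1' hu
    have a2 : x⁻¹ * (n⁻¹ * n') * x ∈ S ^ (R + L + R) := by
      have e : x⁻¹ * (n⁻¹ * n') * x = u * ((γ t)⁻¹ * γ t') * u'⁻¹ := by
        rw [e1, e2]
        group
      rw [e]
      exact Geo2.three hS hu h2' hu'
    have a3 : Geo2.fl C (S ^ (2 * R + r0)) x ∈ (S ^ (2 * R + r0)).powerset :=
      mem_powerset.2 (filter_subset _ _)
    change |Geo2.ch (x⁻¹ * g * x) (Geo2.fl C (S ^ (2 * R + r0)) x) (x⁻¹ * (n⁻¹ * n') * x)| ≤ _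
    calc |Geo2.ch (x⁻¹ * g * x) (Geo2.fl C (S ^ (2 * R + r0)) x) (x⁻¹ * (n⁻¹ * n') * x)|
        ≤ ∑ z ∈ S ^ (R + L + R), |Geo2.ch (x⁻¹ * g * x) (Geo2.fl C (S ^ (2 * R + r0)) x) z| :=
          single_le_sum
            (f := fun z => |Geo2.ch (x⁻¹ * g * x) (Geo2.fl C (S ^ (2 * R + r0)) x) z|)
            (fun _ _ => abs_nonneg _) a2
      _ ≤ ∑ B ∈ (S ^ (2 * R + r0)).powerset, ∑ z ∈ S ^ (R + L + R),
            |Geo2.ch (x⁻¹ * g * x) B z| :=
          single_le_sum (f := fun B => ∑ z ∈ S ^ (R + L + R), |Geo2.ch (x⁻¹ * g * x) B z|)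
            (fun _ _ => by positivity) a3
      _ ≤ _ :=
          single_le_sum (f := fun h => ∑ B ∈ (S ^ (2 * R + r0)).powerset,
            ∑ z ∈ S ^ (R + L + R), |Geo2.ch h B z|) (fun _ _ => by positivity) a1
  intro t ht t' ht' hf hf'
  rcases le_total t t' with h | h
  · rw [abs_sub_comm]
    exact key t ht t' ht' h hf hf'
  · exact key t' ht' t ht h hf' hf

end Pool.Agent.Lib.MP_7903c7_al.D
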