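import Pool.Agent.Lib.MP_7903c7_al.D.Defs
import Pool.Agent.Lib.MP_7903c7_al.RF.Sys3

set_option autoImplicit false

/-!
The system attached to the persistent components, uniformly in the group.
-/

namespace Pool.Agent.Lib.MP_7903c7_al.D

open Finset RF LS.CutCore
open scoped Classical Pointwise

open RF.S3 in
theorem sys3u (T T2 r0 Δ I0 L M3 m : ℕ) (P : ℤ) (M : ℝ) (hM0 : 0 ≤ M) (hT : 0 < T)
    (hT2 : 0 < T2) (hr : 4 * T ≤ r0) (hr' : 864 * 64 ^ 4 * T2 ≤ r0) (hL : 4 * T ≤ L)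
    (hM : 6 * 64 ^ 2 * L ≤ T2 * (M3 + 1)) (hM' : T2 * (M3 + 1) ≤ 12 * 64 ^ 2 * L) :
    ∃ n00 : ℕ, ∀ n0 ≥ n00, ∀ (G : Type) [Group G] (g : G) (C : Subgroup G) (S : Finset G)
      (X : Geo g C S (4 * T) r0 Δ I0), (1 : G) ∈ S → EtaB X L M →
      ∃ (i : ℕ → (ℤ → G) → ℕ) (F : ℕ × ℤ → (ℤ → G) → ℂ),
      (∀ b γ, 1 ≤ i b γ ∧ i b γ ≤ I0) ∧
      (∀ b j, Equi g C (L * n0) (fun γ => i b γ * P - j) (F (b, j))) ∧
      ∀ γ, Good g S (L * n0) L γ →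
        (∃ κ, (T : ℝ) ^ 2 / 8 < pers (Fw n0 T fun t => X.phi κ (γ t))) →
        ∃ b ≤ 64 * Δ, ∃ j : ℤ, |j| ≤ M3 ∧
          Fine g S (L * n0) L m (fun γ => i b γ * P - j) (F (b, j)) γ := by
  have hT' : (0 : ℝ) < T := by exact_mod_cast hT
  have hL0 : 0 < L := by omega
  obtain ⟨h, hh, hh'⟩ : ∃ h : ℝ, 0 < h ∧ (64 * Δ + 1) * h = (T : ℝ) ^ 2 / 16 :=
    ⟨(T : ℝ) ^ 2 / 16 / (64 * Δ + 1), by positivity, by field_simp⟩
  obtain ⟨e, he⟩ : ∃ e : ℝ, e = m * (4 * T : ℕ) *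
    (2 + 6 * Real.pi * (I0 * |(P : ℝ)|) * (M + 1) / (1 / 64)) := ⟨_, rfl⟩
  have he0 : 0 ≤ e := by rw [he]; positivity
  obtain ⟨n00, hn00⟩ := exists_nat_gt
    (max (max (2 * (m * (4 * T : ℕ)) / h) (64 * m)) (3 * e * (2 * (M3 + 1)) * 16))
  refine ⟨n00, fun n0 hn0' G _ g C S X h1 hη => ?_⟩
  obtain ⟨idir, hdir⟩ := X.dir P
  have hn : (n00 : ℝ) ≤ n0 := by exact_mod_cast hn0'
  have ha : 2 * (m * (4 * T : ℕ)) / h < n0 :=
    lt_of_lt_of_le (lt_of_le_of_lt ((le_max_left _ _).trans (le_max_left _ _)) hn00) hn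
  have hb : (64 * m : ℝ) < n0 :=
    lt_of_lt_of_le (lt_of_le_of_lt ((le_max_right _ _).trans (le_max_left _ _)) hn00) hn
  have hd : 3 * e * (2 * (M3 + 1)) * 16 < n0 :=
    lt_of_lt_of_le (lt_of_le_of_lt (le_max_right _ _) hn00) hn
  have hn0r : (0 : ℝ) < n0 := lt_of_le_of_lt (by positivity) hb
  have hn0 : 0 < n0 := by exact_mod_cast hn0r
  have hζ : (m : ℝ) * (4 * T : ℕ) / n0 < h / 2 := by
    rw [div_lt_iff₀ hh] at ha
    rw [div_lt_iff₀ hn0r]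
    linarith
  have hNn : (n0 : ℝ) ≤ ((L * n0 : ℕ) : ℝ) := by
    exact_mod_cast Nat.le_mul_of_pos_left n0 hL0
  let thr : ℕ → ℝ := fun b => (T : ℝ) ^ 2 / 16 + (b + 1 / 2) * h
  refine ⟨fun b γ => idir (qq X n0 T (thr b) γ),
    fun bj => FF X (L * n0) n0 T (thr bj.1) idir P bj.2,
    fun b γ => ⟨(hdir _).1, (hdir _).2.1⟩,
    fun b j => equi X (Nat.mul_pos hL0 hn0) n0 T (thr b) idir P j, ?_⟩
  rintro γ hγ ⟨κ0, hκ0⟩
  obtain ⟨b, hbΔ, hband⟩ := band X hn0 hT γ hh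
  have hb0 : (0 : ℝ) ≤ b * h := by positivity
  have hthr : thr b = (T : ℝ) ^ 2 / 16 + (b + 1 / 2) * h := rfl
  have hsame : ∀ γ', Good g S (L * n0) L γ' → Near (L * n0) m γ γ' → ∀ κ,
      thr b < ps X n0 T γ' κ ↔ thr b < ps X n0 T γ κ := by
    intro γ' hγ' hnear κ
    have hk := ps_near X (T := T) hn0 (by nlinarith) hγ.1 hγ'.1 hnear κ
    rw [hthr]
    rcases hband κ with h' | h'
    · constructor <;> intro h'' <;> linarith [hk.1, hk.2]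
    · constructor <;> intro h'' <;> linarith [hk.1, hk.2]
  have hq : ∀ γ', Good g S (L * n0) L γ' → Near (L * n0) m γ γ' →
      qq X n0 T (thr b) γ' = qq X n0 T (thr b) γ := fun γ' hγ' hnear =>
    qq_congr X n0 T _ fun q => by simp only [hsame γ' hγ' hnear]
  have hκ0' : thr b < ps X n0 T γ κ0 := by
    have hbr : (b : ℝ) ≤ 64 * Δ := by exact_mod_cast hbΔ
    have : (b : ℝ) * h ≤ 64 * Δ * h := mul_le_mul_of_nonneg_right hbr hh.le
    change thr b < pers _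
    rw [hthr]
    linarith
  obtain ⟨κ1, hκ1, hcls⟩ : ∃ κ, thr b < ps X n0 T γ κ ∧ X.cls κ = qq X n0 T (thr b) γ :=
    Classical.epsilon_spec (p := fun q => ∃ κ, thr b < ps X n0 T γ κ ∧ X.cls κ = q)
      ⟨X.cls κ0, κ0, hκ0', rfl⟩
  have hthr0 : (T : ℝ) ^ 2 / 16 ≤ thr b := by rw [hthr]; linarith
  have hpos : 0 < thr b := lt_of_lt_of_le (by positivity) hthr0
  set q := qq X n0 T (thr b) γ with hqdef
  have hF : ∀ j, ∀ γ', Good g S (L * n0) L γ' → Near (L * n0) m γ γ' →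
      FF X (L * n0) n0 T (thr b) idir P j γ' =
        xi (L * n0) (fun t => X.phi κ1 (γ' t)) (fun t => X.eta κ1 (γ' t)) (idir q * P) j := by
    intro j γ' hγ' hnear
    unfold FF
    rw [finsum_eq_single _ κ1, hq γ' hγ' hnear,
      if_pos ⟨(hsame γ' hγ' hnear κ1).2 hκ1, hcls⟩]
    intro κ hκ
    rw [if_neg]
    rintro ⟨h', h''⟩
    rw [hsame γ' hγ' hnear] at h'
    rw [hq γ' hγ' hnear] at h''
    exact hκ (uniq X h1 hn0 hL0 (by omega) hγ (hpos.trans h') (hpos.trans hκ1)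
      (h''.trans hcls.symm))
  obtain ⟨j, hj, hlow⟩ := lower X h1 hn0 hT hT2 hL0 hr' hM hM' hγ (hthr0.trans hκ1.le)
    (idir q * P) (fun y u hu hf hf' => by
      have := (hdir q).2.2 κ1 y u hu hcls hf hf'
      push_cast
      exact this)
  refine ⟨b, hbΔ, j, hj, fun γ' γ'' hγ' hγ'' hn' hn'' => ⟨?_, ?_⟩⟩
  · simp only [hq γ' hγ' hn', hq γ'' hγ'' hn'']
  · have hcont : ∀ γ', Good g S (L * n0) L γ' → Near (L * n0) m γ γ' →
        ‖xi (L * n0) (fun t => X.phi κ1 (γ t)) (fun t => X.eta κ1 (γ t)) (idir q * P) j -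
          xi (L * n0) (fun t => X.phi κ1 (γ' t)) (fun t => X.eta κ1 (γ' t)) (idir q * P) j‖ ≤
            e := by
      intro γ' hγ' hnear
      refine le_trans (xi_cont (L * n0) m _ _ _ _ _ j (R := ((4 * T : ℕ) : ℝ)) (c := 1 / 64)
        (Cη := M) (by norm_num) (by positivity) hM0 (fun t => X.phi_nonneg κ1 _)
        (fun t => X.phi_le κ1 _) (fun t => X.phi_nonneg κ1 _) (fun t => X.phi_le κ1 _)
        (mass X hn0 hT hγ.1 (hthr0.trans hκ1.le)) (by linarith)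
        (near_comp hnear fun y => (X.phi κ1 y, X.eta κ1 y)) (hη _ γ hγ κ1) (hη _ γ' hγ' κ1)) ?_
      have hw : |((idir q * P : ℤ) : ℝ)| ≤ I0 * |(P : ℝ)| := by
        push_cast
        rw [abs_mul, Nat.abs_cast]
        exact mul_le_mul_of_nonneg_right (by exact_mod_cast (hdir q).2.1) (abs_nonneg _)
      rw [he]
      gcongr
    change 0 < (FF X (L * n0) n0 T (thr b) idir P j γ' *
      (starRingEnd ℂ) (FF X (L * n0) n0 T (thr b) idir P j γ'')).re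
    rw [hF j γ' hγ' hn', hF j γ'' hγ'' hn'']
    refine re_pos ?_ (hcont γ' hγ' hn') (hcont γ'' hγ'' hn'')
    have hT1 : (1 : ℝ) ≤ T := by exact_mod_cast hT
    have hM1 : (0 : ℝ) < 2 * (M3 + 1) := by positivity
    refine lt_of_mul_lt_mul_left (lt_of_lt_of_le ?_ hlow) hM1.le
    have : ((L * n0 : ℕ) : ℝ) * 1 ≤ ((L * n0 : ℕ) : ℝ) * T :=
      mul_le_mul_of_nonneg_left hT1 (by positivity)
    have h4 : ((4 * T : ℕ) : ℝ) = 4 * T := by push_cast; ring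
    rw [h4]
    linarith

end Pool.Agent.Lib.MP_7903c7_al.D
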