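import Pool.Agent.Lib.MP_7903c7_al.D.Alg1
import Pool.Agent.Lib.MP_7903c7_al.D.Cover
import Pool.Agent.Lib.MP_7903c7_al.D.Sys1u
import Pool.Agent.Lib.MP_7903c7_al.D.Sys3u
import Pool.Agent.Lib.MP_7903c7_al.D.Geo2
import Pool.Agent.Lib.MP_7903c7_al.RF.Main
import Pool.Agent.Lib.MP_7903c7_al.RF.Cor

set_option autoImplicit false

/-!
Uniform nilpotence for the subgroups whose abelianisation detects `g`.
-/

namespace Pool.Agent.Lib.MP_7903c7_al.D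

open Finset RF LS.CutCore
open scoped Classical Pointwise

theorem Nil.up {G P Λ : Type} [Group G] [MulAction G P] [CommRing Λ] {T : P → P} {N : ℕ} {g : G}
    {C : Subgroup G} {W : Set (List P)} {p : Λ} {a k q : ℕ} (h : Nil T N g C W (p ^ a) k)
    (ha : a ≤ q) (hk : k ≤ q) : Nil T N g C W (p ^ q) q := by
  have := h.pad (p ^ (q - a)) (q - k)
  rwa [← pow_add, Nat.sub_add_cancel ha, Nat.add_sub_cancel' hk] at this

variable {G : Type} [Group G]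

theorem at_ab (g : G) (S : Finset G) (h1 : (1 : G) ∈ S) (hS : ∀ s ∈ S, s⁻¹ ∈ S) {p e : ℕ}
    (hp : p.Prime) (he : 0 < e) :
    At g S p e {C | g ∈ C ∧ ∀ m : ℕ, 0 < m → g ^ m ∉ ⁅C, C⁆} := by
  have := Fact.mk hp
  have heR : (0 : ℝ) < e := by exact_mod_cast he
  obtain ⟨n, hn, H1⟩ := sys1u S.card (card_pos.2 ⟨1, h1⟩) (1 / (2000 * (e * 8))) (by positivity)
  have hT : 0 < n ^ 3 := by positivity
  obtain ⟨Δ, hΔ⟩ : ∃ Δ, Δ = S.card ^ (4 * n ^ 3) := ⟨_, rfl⟩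
  obtain ⟨D, hD⟩ : ∃ D, D = e * 8 * (64 * Δ + 1) := ⟨_, rfl⟩
  have hD0 : 0 < D := by rw [hD]; positivity
  obtain ⟨r0, hr0⟩ : ∃ r0, r0 = 4 * n ^ 3 + 864 * 64 ^ 4 * (6 * 64 ^ 2 * D) := ⟨_, rfl⟩
  obtain ⟨I0, hI0⟩ : ∃ I0, I0 = 6 ^ S.card ^ (2 * (4 * n ^ 3) + r0) := ⟨_, rfl⟩
  refine ⟨4 * n ^ 3 + D + e * 8 * (4 + (64 * Δ + 1) * (I0 + 1)), fun L hL m => ?_⟩
  obtain ⟨u, hu⟩ : ∃ u, u = L / (e * 8) := ⟨_, rfl⟩
  obtain ⟨M3, hM3⟩ : ∃ M3, M3 = L / D := ⟨_, rfl⟩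
  have hu1 : 8 * u ≤ L / e := by
    rw [hu, ← Nat.div_div_eq_div_mul]; exact Nat.mul_div_le _ _
  have hu2 : 4 + (64 * Δ + 1) * (I0 + 1) ≤ u := by
    rw [hu, Nat.le_div_iff_mul_le (by positivity)]; nlinarith
  have hu3 : (64 * Δ + 1) * M3 ≤ u := by
    rw [hM3, hu, hD, ← Nat.div_div_eq_div_mul]; exact Nat.mul_div_le _ _
  have hu4 : L < e * 8 * (u + 1) := by rw [hu]; exact Nat.lt_mul_div_succ _ (by positivity)
  have hM4 : L < D * (M3 + 1) := by rw [hM3]; exact Nat.lt_mul_div_succ _ hD0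
  have hM5 : D * M3 ≤ L := by rw [hM3]; exact Nat.mul_div_le _ _
  obtain ⟨M, hM0, HG⟩ := geo_ab g S h1 hS (4 * n ^ 3) r0 L
  rw [← hΔ, ← hI0] at HG
  obtain ⟨a1, H1⟩ := H1 Δ L (u + 1) m
    (by rw [hΔ, pow_mul 2]; exact Nat.pow_le_pow_left Nat.lt_two_pow_self.le _) (by omega) (by
      have : (L : ℝ) ≤ e * 8 * (u + 1) := by exact_mod_cast hu4.le
      rw [show 2000 * (1 / (2000 * ((e : ℝ) * 8))) * L = L / (e * 8) by field_simp,
        div_le_iff₀ (by positivity)]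
      push_cast
      linarith)
  obtain ⟨a3, H3⟩ := sys3u (n ^ 3) (6 * 64 ^ 2 * D) r0 Δ I0 L M3 m ((p : ℤ) ^ M3) M hM0 hT
    (by positivity) (by omega) (by omega) (by omega) (by nlinarith) (by nlinarith)
  refine ⟨a1 + a3 + 1, fun n0 hn0 Λ _ J hJ C hC => Nil.inf ?_⟩
  have hg : g ∈ C ⊓ Subgroup.centralizer {g} :=
    ⟨hC.1, Subgroup.mem_centralizer_singleton_iff.2 rfl⟩
  have hc : ∀ c ∈ C ⊓ Subgroup.centralizer {g}, c * g = g * c := fun c h =>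
    Subgroup.mem_centralizer_singleton_iff.1 h.2
  obtain ⟨χ, hχ1, hχ2⟩ := Cor.char_of_ab C g hC.1 hC.2
  obtain ⟨X, hX⟩ := HG _ hg hc ⟨χ, hχ1, fun a ha b hb => hχ2 a ha.1 b hb.1⟩
  obtain ⟨F1, hF1, hc1⟩ := H1 n0 (by omega) G g _ S r0 (geo0 X) h1 Nat.lt_two_pow_self.le
  obtain ⟨i, F3, hi3, hF3, hc3⟩ := H3 n0 (by omega) G g _ S X h1 hX
  let s : Finset (ℤ ⊕ ℕ × ℤ) :=
    (Icc (1 : ℤ) (2 * (u + 1 : ℕ) - 1)).disjSum (range (64 * Δ + 1) ×ˢ Icc (-(M3 : ℤ)) M3)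
  have hs : s.card ≤ L / e := by
    rw [card_disjSum, card_product, card_range, Int.card_Icc, Int.card_Icc,
      show (M3 + 1 - -M3 : ℤ).toNat = 2 * M3 + 1 by omega]
    have : (64 * Δ + 1) * (2 * M3 + 1) ≤ 3 * u := by nlinarith
    omega
  let a : ℤ ⊕ ℕ × ℤ → ℕ := Sum.elim (fun j => padicValNat p j.natAbs)
    fun q => padicValNat p q.2.natAbs + if q.2 = 0 then M3 + I0 else 0
  have ha : ∑ j ∈ s, a j ≤ L / e := by
    have e1 : ∑ j ∈ Icc (1 : ℤ) (2 * (u + 1 : ℕ) - 1), padicValNat p j.natAbs ≤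
        2 * (2 * (u + 1)) :=
      (sum_le_sum_of_subset (Icc_subset_Icc (by omega) (by omega))).trans (Main.sum_val _)
    have e2 := Main.sum_val (p := p) M3
    rw [sum_disjSum, sum_product]
    simp only [a, Sum.elim_inl, Sum.elim_inr, sum_add_distrib, sum_ite_eq', sum_const, card_range,
      smul_eq_mul, mem_Icc, Left.neg_nonpos_iff, Nat.cast_nonneg, and_self, if_true]
    nlinarith [Nat.mul_le_mul_left (64 * Δ + 1) e2]
  obtain ⟨A, -, hA, hsub⟩ := nil_cover (Λ := Λ) S (L * n0) L m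
    (Nat.mul_pos (by omega) (by omega)) hp hJ hg hc s a
    (Sum.elim (fun j _ => j) fun q γ => i q.1 γ * (p : ℤ) ^ M3 - q.2) (Sum.elim F1 F3)
    (by
      rintro (j | ⟨b, j⟩) hj γ
      · rw [inl_mem_disjSum, mem_Icc] at hj
        exact Main.not_dvd (j := j) (by omega)
      · rw [inr_mem_disjSum, mem_product] at hj
        exact Main.not_dvd3 (hi3 b γ).1 (hi3 b γ).2 hj.2)
    (by
      rintro (j | ⟨b, j⟩) -
      · exact hF1 j
      · exact hF3 b j) (fun _ => True)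
    (fun γ hγ _ => by
      by_cases hpers : ∀ κ, pers (Fw n0 (n ^ 3) fun t => X.phi κ (γ t)) ≤ (n : ℝ) ^ 6 / 8
      · obtain ⟨j, hj, hf⟩ := hc1 γ hγ hpers
        exact ⟨.inl j, inl_mem_disjSum.2 hj, hf⟩
      · push Not at hpers
        obtain ⟨b, hb, j, hj, hf⟩ := hc3 γ hγ (hpers.imp fun κ h => by
          push_cast; rwa [← pow_mul])
        exact ⟨.inr (b, j), inr_mem_disjSum.2 (mem_product.2
          ⟨mem_range.2 (by omega), mem_Icc.2 (abs_le.1 hj)⟩), hf⟩)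
  exact (hA.mono le_rfl hsub).up ha hs

end Pool.Agent.Lib.MP_7903c7_al.D
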