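import Pool.Agent.Lib.MP_7903c7_al.D.Defs
import Pool.Agent.Lib.MP_7903c7_al.RF.Sys3

set_option autoImplicit false

/-!
The selection of a persistent component that is locally constant on the space of loops.
-/

namespace Pool.Agent.Lib.MP_7903c7_al.D

open Finset RF LS.CutCore
open scoped Classical Pointwise

namespace Band

open RF.S3 (Fw_nonneg pers_le pers_le_add pers_shift exists_ne_zero near_comp path_mem)

variable {G : Type} [Group G] {g : G} {C : Subgroup G} {S : Finset G} {R r0 Δ : ℕ}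

/-- The persistence of a component along a loop. -/
noncomputable def ps (X : Geo0 g C S R r0 Δ) (n0 T : ℕ) (γ : ℤ → G) (κ : X.K) : ℝ :=
  pers (Fw n0 T fun t => X.phi κ (γ t))

/-- A class of persistent components. -/
noncomputable def qq (X : Geo0 g C S R r0 Δ) (n0 T : ℕ) (θ : ℝ) (γ : ℤ → G) : X.Q :=
  @Classical.epsilon X.Q ⟨X.cls (X.phi_top 1).choose⟩
    fun q => ∃ κ, θ < ps X n0 T γ κ ∧ X.cls κ = q

theorem ps_act (X : Geo0 g C S R r0 Δ) (n0 T : ℕ) (γ : ℤ → G) (κ : X.K) {c : G} (hc : c ∈ C) :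
    ps X n0 T (fun t => c * γ t) (X.act c κ) = ps X n0 T γ κ := by
  simp only [ps, X.phi_act c hc]

theorem ps_shift (X : Geo0 g C S R r0 Δ) (n0 T : ℕ) (γ : ℤ → G) (κ : X.K) :
    ps X n0 T (fun t => γ (t - 1)) κ = ps X n0 T γ κ := by
  unfold ps
  rw [← pers_shift (Fw n0 T fun t => X.phi κ (γ t)) (-1)]
  congr 1
  funext σ
  rw [← Fw_shift]
  simp only [sub_eq_add_neg]

theorem ps_le (X : Geo0 g C S R r0 Δ) {n0 : ℕ} (hn0 : 0 < n0) (T : ℕ) (γ : ℤ → G) (κ : X.K)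
    (σ : ℤ) : ps X n0 T γ κ ≤ Fw n0 T (fun t => X.phi κ (γ t)) σ :=
  pers_le (fun σ => Fw_nonneg n0 T hn0 (fun _ => X.phi_nonneg κ _) σ) σ

theorem qq_congr (X : Geo0 g C S R r0 Δ) (n0 T : ℕ) (θ : ℝ) {γ γ' : ℤ → G}
    (h : ∀ q, (∃ κ, θ < ps X n0 T γ' κ ∧ X.cls κ = q) ↔ ∃ κ, θ < ps X n0 T γ κ ∧ X.cls κ = q) :
    qq X n0 T θ γ' = qq X n0 T θ γ := by
  unfold qq
  congr 1
  funext q
  exact propext (h q)

theorem qq_act (X : Geo0 g C S R r0 Δ) (n0 T : ℕ) (θ : ℝ) (γ : ℤ → G) {c : G} (hc : c ∈ C) :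
    qq X n0 T θ (fun t => c * γ t) = qq X n0 T θ γ := by
  refine qq_congr X n0 T θ fun q => ⟨?_, ?_⟩
  · rintro ⟨κ, h, hq⟩
    obtain ⟨κ', rfl⟩ := (X.act c).surjective κ
    rw [ps_act X n0 T γ κ' hc] at h
    rw [X.cls_act c hc] at hq
    exact ⟨κ', h, hq⟩
  · rintro ⟨κ, h, hq⟩
    exact ⟨X.act c κ, by rwa [ps_act X n0 T γ κ hc], by rwa [X.cls_act c hc]⟩

theorem qq_shift (X : Geo0 g C S R r0 Δ) (n0 T : ℕ) (θ : ℝ) (γ : ℤ → G) :
    qq X n0 T θ (fun t => γ (t - 1)) = qq X n0 T θ γ :=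
  qq_congr X n0 T θ fun q => by simp only [ps_shift]

theorem phi_per (X : Geo0 g C S R r0 Δ) {N : ℕ} {γ : ℤ → G} (hγ : IsLoop g N γ) (κ : X.K)
    (t : ℤ) : X.phi κ (γ (t + N)) = X.phi κ (γ t) := by
  rw [hγ t, X.phi_g]

/-- Persistent components of one class coincide. -/
theorem uniq (X : Geo0 g C S R r0 Δ) (h1 : (1 : G) ∈ S) {L n0 T : ℕ} (hn0 : 0 < n0)
    (hL : 0 < L) (hr : 2 * T ≤ r0) {γ : ℤ → G} (hγ : Good g S (L * n0) L γ) {κ κ' : X.K}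
    (hκ : 0 < ps X n0 T γ κ) (hκ' : 0 < ps X n0 T γ κ') (hq : X.cls κ = X.cls κ') : κ = κ' := by
  obtain ⟨-, ℓ, hp, hs, hℓ⟩ := hγ
  have hw := sum_window (L * n0) (2 * (T * n0)) ℓ hp (-(T * n0 : ℕ))
  have hex : ∃ t ∈ range (L * n0),
      ∑ u ∈ Ico ((t : ℤ) + -(T * n0 : ℕ)) (t + -(T * n0 : ℕ) + (2 * (T * n0) : ℕ)), ℓ u ≤
        2 * T := by
    refine exists_le_of_sum_le ⟨0, mem_range.2 (Nat.mul_pos hL hn0)⟩ ?_
    rw [hw, sum_const, card_range, smul_eq_mul]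
    calc 2 * (T * n0) * ∑ t ∈ range (L * n0), ℓ t ≤ 2 * (T * n0) * L :=
          Nat.mul_le_mul_left _ hℓ
      _ = L * n0 * (2 * T) := by ring
  obtain ⟨σ, -, hσ⟩ := hex
  obtain ⟨t, ht, hf⟩ := exists_ne_zero n0 T hn0 (lt_of_lt_of_le hκ (ps_le X hn0 T γ κ σ))
  obtain ⟨t', ht', hf'⟩ := exists_ne_zero n0 T hn0 (lt_of_lt_of_le hκ' (ps_le X hn0 T γ κ' σ))
  rw [abs_lt] at ht ht'
  rcases le_total t t' with h | h
  · have hu := path_mem h1 hs (t := t) (t' := t') (by push_cast; linarith [ht.1]) h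
      (by push_cast; linarith [ht'.2]) (hσ.trans hr)
    exact X.sep κ κ' (γ t) _ hu hq hf (by rwa [mul_inv_cancel_left])
  · have hu := path_mem h1 hs (t := t') (t' := t) (by push_cast; linarith [ht'.1]) h
      (by push_cast; linarith [ht.2]) (hσ.trans hr)
    exact (X.sep κ' κ (γ t') _ hu hq.symm hf' (by rwa [mul_inv_cancel_left])).symm

/-- One of the bands contains no persistence. -/
theorem band {T : ℕ} (X : Geo0 g C S (4 * T) r0 Δ) {n0 : ℕ} (hn0 : 0 < n0) (hT : 0 < T)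
    (γ : ℤ → G) {h : ℝ} (hh : 0 < h) :
    ∃ b ≤ 64 * Δ, ∀ κ, ps X n0 T γ κ < (T : ℝ) ^ 2 / 16 + b * h ∨
      (T : ℝ) ^ 2 / 16 + (b + 1) * h ≤ ps X n0 T γ κ := by
  have hT' : (0 : ℝ) < T := by exact_mod_cast hT
  obtain ⟨A, hA, hA'⟩ := Fw_count n0 T Δ hn0 (fun κ t => X.phi κ (γ t))
    (R := ((4 * T : ℕ) : ℝ)) (c := (T : ℝ) ^ 2 / 16) (by positivity) (by positivity)
    (fun κ t => X.phi_nonneg κ _) (fun κ t => X.phi_le κ _) (fun t => X.phi_fin (γ t)) 0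
  have hcard : A.card ≤ 64 * Δ := by
    have : (A.card : ℝ) ≤ 64 * Δ := by
      refine le_of_mul_le_mul_left ?_ (show 0 < (T : ℝ) ^ 2 / 16 by positivity)
      push_cast at hA
      linarith
    exact_mod_cast this
  have hlt : (A.image fun κ => ⌊(ps X n0 T γ κ - (T : ℝ) ^ 2 / 16) / h⌋₊).card <
      (range (64 * Δ + 1)).card := by
    rw [card_range]
    exact Nat.lt_succ_of_le (card_image_le.trans hcard)
  obtain ⟨b, hb, hb'⟩ := exists_mem_notMem_of_card_lt_card hlt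
  refine ⟨b, Nat.lt_succ_iff.1 (mem_range.1 hb), fun κ => ?_⟩
  by_contra hcon
  push Not at hcon
  have hb0 : (0 : ℝ) ≤ b * h := by positivity
  refine hb' (mem_image.2 ⟨κ, hA' κ ?_, ?_⟩)
  · exact le_trans (by linarith [hcon.1]) (ps_le X hn0 T γ κ 0)
  · rw [Nat.floor_eq_iff (div_nonneg (by linarith [hcon.1]) hh.le), le_div_iff₀ hh,
      div_lt_iff₀ hh]
    constructor <;> linarith [hcon.1, hcon.2]

theorem ps_near (X : Geo0 g C S R r0 Δ) {N n0 T m : ℕ} (hn0 : 0 < n0) (hN : 2 * (T * n0) ≤ N)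
    {γ γ' : ℤ → G} (hγ : IsLoop g N γ) (hγ' : IsLoop g N γ') (h : Near N m γ γ') (κ : X.K) :
    ps X n0 T γ κ ≤ ps X n0 T γ' κ + m * R / n0 ∧
      ps X n0 T γ' κ ≤ ps X n0 T γ κ + m * R / n0 := by
  have hk := fun σ => abs_le.1 (Fw_near n0 T N m hN (R := R) (fun t => X.phi_nonneg κ (γ t))
    (fun t => X.phi_le κ _) (fun t => X.phi_nonneg κ (γ' t)) (fun t => X.phi_le κ _)
    (phi_per X hγ κ) (phi_per X hγ' κ) (near_comp h (X.phi κ)) σ)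
  exact ⟨pers_le_add (fun σ => Fw_nonneg n0 T hn0 (fun _ => X.phi_nonneg κ _) σ)
      fun σ => by linarith [(hk σ).2],
    pers_le_add (fun σ => Fw_nonneg n0 T hn0 (fun _ => X.phi_nonneg κ _) σ)
      fun σ => by linarith [(hk σ).1]⟩

end Band

open Band in
theorem bands (T Δ L m : ℕ) (hT : 0 < T) (hL : 4 * T ≤ L) :
    ∃ n00 : ℕ, ∀ n0 ≥ n00, ∀ (G : Type) [Group G] (g : G) (C : Subgroup G) (S : Finset G)
      (r0 : ℕ) (X : Geo0 g C S (4 * T) r0 Δ), (1 : G) ∈ S → 4 * T ≤ r0 →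
      ∃ sel : ℕ → (ℤ → G) → X.K → Prop,
        (∀ b γ κ, sel b γ κ → ∃ y, X.phi κ y ≠ 0) ∧
        (∀ b γ κ, ∀ c ∈ C, sel b γ κ → sel b (fun t => c * γ t) (X.act c κ)) ∧
        (∀ b γ κ, sel b (fun t => γ (t - 1)) κ ↔ sel b γ κ) ∧
        (∀ b γ κ κ', Good g S (L * n0) L γ → sel b γ κ → sel b γ κ' → κ = κ') ∧
        ∀ γ, Good g S (L * n0) L γ →
          (∃ κ, (T : ℝ) ^ 2 / 8 < pers (Fw n0 T fun t => X.phi κ (γ t))) →
          ∃ b ≤ 64 * Δ, ∃ κ, ∀ γ', Good g S (L * n0) L γ' → Near (L * n0) m γ γ' →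
            sel b γ' κ := by
  have hT' : (0 : ℝ) < T := by exact_mod_cast hT
  have hL0 : 0 < L := by omega
  obtain ⟨h, hh, hh'⟩ : ∃ h : ℝ, 0 < h ∧ (64 * Δ + 1) * h = (T : ℝ) ^ 2 / 16 :=
    ⟨(T : ℝ) ^ 2 / 16 / (64 * Δ + 1), by positivity, by field_simp⟩
  obtain ⟨n00, hn00⟩ := exists_nat_gt (2 * (m * (4 * T : ℕ)) / h)
  refine ⟨n00, fun n0 hn0' G _ g C S r0 X h1 hr => ?_⟩
  have hn : (n00 : ℝ) ≤ n0 := by exact_mod_cast hn0'
  have ha : 2 * (m * (4 * T : ℕ)) / h < n0 := lt_of_lt_of_le hn00 hn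
  have hn0r : (0 : ℝ) < n0 := lt_of_le_of_lt (by positivity) ha
  have hn0 : 0 < n0 := by exact_mod_cast hn0r
  have hζ : (m : ℝ) * (4 * T : ℕ) / n0 < h / 2 := by
    rw [div_lt_iff₀ hh] at ha
    rw [div_lt_iff₀ hn0r]
    linarith
  obtain ⟨thr, hthr⟩ : ∃ thr : ℕ → ℝ, ∀ b, thr b = (T : ℝ) ^ 2 / 16 + (b + 1 / 2) * h :=
    ⟨_, fun _ => rfl⟩
  have hpos : ∀ b, 0 < thr b := fun b => by rw [hthr]; positivity
  refine ⟨fun b γ κ => thr b < ps X n0 T γ κ ∧ X.cls κ = qq X n0 T (thr b) γ, ?_, ?_, ?_, ?_, ?_⟩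
  · rintro b γ κ ⟨h', -⟩
    obtain ⟨t, -, hf⟩ := RF.S3.exists_ne_zero n0 T hn0
      (lt_of_lt_of_le ((hpos b).trans h') (ps_le X hn0 T γ κ 0))
    exact ⟨γ t, hf⟩
  · rintro b γ κ c hc ⟨h', h''⟩
    exact ⟨by rwa [ps_act X n0 T γ κ hc], by rwa [qq_act X n0 T _ γ hc, X.cls_act c hc]⟩
  · intro b γ κ
    simp only [ps_shift, qq_shift]
  · rintro b γ κ κ' hγ ⟨h', h''⟩ ⟨k', k''⟩
    exact uniq X h1 hn0 hL0 (by omega) hγ ((hpos b).trans h') ((hpos b).trans k')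
      (h''.trans k''.symm)
  rintro γ hγ ⟨κ0, hκ0⟩
  obtain ⟨b, hbΔ, hband⟩ := band X hn0 hT γ hh
  have hb0 : (0 : ℝ) ≤ b * h := by positivity
  have hsame : ∀ γ', Good g S (L * n0) L γ' → Near (L * n0) m γ γ' → ∀ κ,
      thr b < ps X n0 T γ' κ ↔ thr b < ps X n0 T γ κ := by
    intro γ' hγ' hnear κ
    have hk := ps_near X (T := T) hn0 (by nlinarith) hγ.1 hγ'.1 hnear κ
    rw [hthr]
    rcases hband κ with h' | h'
    · constructor <;> intro h'' <;> linarith [hk.1, hk.2]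
    · constructor <;> intro h'' <;> linarith [hk.1, hk.2]
  have hq : ∀ γ', Good g S (L * n0) L γ' → Near (L * n0) m γ γ' →
      qq X n0 T (thr b) γ' = qq X n0 T (thr b) γ := fun γ' hγ' hnear =>
    qq_congr X n0 T _ fun q => by simp only [hsame γ' hγ' hnear]
  have hκ0' : thr b < ps X n0 T γ κ0 := by
    have hbr : (b : ℝ) ≤ 64 * Δ := by exact_mod_cast hbΔ
    have : (b : ℝ) * h ≤ 64 * Δ * h := mul_le_mul_of_nonneg_right hbr hh.le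
    change thr b < pers _
    rw [hthr]
    linarith
  obtain ⟨κ1, hκ1, hcls⟩ : ∃ κ, thr b < ps X n0 T γ κ ∧ X.cls κ = qq X n0 T (thr b) γ :=
    Classical.epsilon_spec (p := fun q => ∃ κ, thr b < ps X n0 T γ κ ∧ X.cls κ = q)
      ⟨X.cls κ0, κ0, hκ0', rfl⟩
  exact ⟨b, hbΔ, κ1, fun γ' hγ' hnear =>
    ⟨(hsame γ' hγ' hnear κ1).2 hκ1, hcls.trans (hq γ' hγ' hnear).symm⟩⟩

end Pool.Agent.Lib.MP_7903c7_al.D
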