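import Pool.Agent.Lib.MP_7903c7_al.D.Defs
import Pool.Agent.Lib.MP_7903c7_al.RF.Geo

set_option autoImplicit false

/-!
The components and cut-off functions attached to a subgroup of the centraliser.
-/

namespace Pool.Agent.Lib.MP_7903c7_al.D

open Finset RF LS.CutCore
open scoped Classical Pointwise

namespace Geo1

open RF.GeoAux (inv_mem_pow mul_mem_pow mem_pow_mono)

variable {G : Type} [Group G]

/-- The data given by the hypothesis. -/
structure Dt (g : G) (S : Finset G) (R r0 : ℕ) where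
  C : Subgroup G
  H : G → Subgroup G
  one : (1 : G) ∈ S
  inv : ∀ s ∈ S, s⁻¹ ∈ S
  comm : ∀ c ∈ C, c * g = g * c
  le : ∀ x, H x ≤ C
  gH : ∀ x, g ∈ H x
  loc : ∀ x, ∀ b ∈ (S : Set G) ^ (2 * R + r0), x * b * x⁻¹ ∈ C → x * b * x⁻¹ ∈ H x

namespace Dt

variable {g : G} {S : Finset G} {R r0 : ℕ} (D : Dt g S R r0)

/-- The right cosets of `C`. -/
def Q : Type := Quotient (QuotientGroup.rightRel D.C)

/-- The class of an element. -/
def cl (y : G) : D.Q := Quotient.mk (QuotientGroup.rightRel D.C) y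

/-- The representative of a class. -/
noncomputable def x (q : D.Q) : G := Quotient.out q

theorem cl_x (q : D.Q) : D.cl (D.x q) = q := Quotient.out_eq q

theorem cl_mul {c : G} (hc : c ∈ D.C) (y : G) : D.cl (c * y) = D.cl y := by
  apply Quotient.sound
  change QuotientGroup.rightRel D.C (c * y) y
  rw [QuotientGroup.rightRel_apply]
  simpa using hc

/-- The coordinate in `C` of an element. -/
noncomputable def co (y : G) : G := y * (D.x (D.cl y))⁻¹

theorem co_mem (y : G) : D.co y ∈ D.C := by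
  have h : QuotientGroup.rightRel D.C (D.x (D.cl y)) y := Quotient.exact (D.cl_x (D.cl y))
  rwa [QuotientGroup.rightRel_apply] at h

theorem co_x (y : G) : D.co y * D.x (D.cl y) = y := by
  simp [co]

theorem co_mul {c : G} (hc : c ∈ D.C) (y : G) : D.co (c * y) = c * D.co y := by
  simp only [co, D.cl_mul hc, mul_assoc]

/-- The components. -/
def K : Type := D.Q × Set G

/-- `c` represents the component `κ`. -/
def Rep (κ : D.K) (c : G) : Prop := c ∈ D.C ∧ κ.2 = c • (D.H (D.x κ.1) : Set G)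

/-- The action on components. -/
noncomputable def act (c : G) : Equiv.Perm D.K :=
  Equiv.prodCongr (Equiv.refl D.Q) (MulAction.toPerm c : Equiv.Perm (Set G))

theorem act_fst (c : G) (κ : D.K) : (D.act c κ).1 = κ.1 := rfl

theorem act_snd (c : G) (κ : D.K) : (D.act c κ).2 = c • κ.2 := rfl

variable {D}

theorem Rep.act {κ : D.K} {c d : G} (h : D.Rep κ c) (hd : d ∈ D.C) :
    D.Rep (D.act d κ) (d * c) :=
  ⟨D.C.mul_mem hd h.1, by rw [act_snd, act_fst, h.2, mul_smul]⟩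

theorem Rep.act_inv {κ : D.K} {c d : G} (h : D.Rep (D.act d κ) c) (hd : d ∈ D.C) :
    D.Rep κ (d⁻¹ * c) := by
  refine ⟨D.C.mul_mem (D.C.inv_mem hd) h.1, ?_⟩
  have h2 := h.2
  rw [act_snd, act_fst] at h2
  rw [mul_smul, ← h2, inv_smul_smul]

theorem Rep.mem {κ : D.K} {c c' : G} (h : D.Rep κ c) (h' : D.Rep κ c') :
    c⁻¹ * c' ∈ D.H (D.x κ.1) :=
  (leftCoset_eq_iff _).1 (h.2.symm.trans h'.2)

theorem Rep.mul {κ : D.K} {c c' : G} (h : D.Rep κ c) (h' : c⁻¹ * c' ∈ D.H (D.x κ.1)) :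
    D.Rep κ c' := by
  refine ⟨?_, h.2.trans ((leftCoset_eq_iff _).2 h')⟩
  have := D.C.mul_mem h.1 (D.le _ h')
  simpa using this

theorem Rep.g_mul {κ : D.K} {c : G} (h : D.Rep κ c) : D.Rep κ (g * c) := by
  refine h.mul ?_
  rw [← D.comm c h.1, inv_mul_cancel_left]
  exact D.gH _

theorem Rep.g_inv_mul {κ : D.K} {c : G} (h : D.Rep κ c) : D.Rep κ (g⁻¹ * c) := by
  refine h.mul ?_
  have e : g⁻¹ * c = c * g⁻¹ := by
    have := D.comm c h.1
    rw [inv_mul_eq_iff_eq_mul, ← mul_assoc, ← this, mul_inv_cancel_right]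
  rw [e, inv_mul_cancel_left]
  exact (D.H _).inv_mem (D.gH _)

variable (D)

/-- The component `κ` sees `y` within distance `r`. -/
def See (κ : D.K) (r : ℕ) (y : G) : Prop :=
  ∃ c, D.Rep κ c ∧ ∃ u ∈ (S : Set G) ^ r, y = c * D.x κ.1 * u

/-- The cut-off function of a component. -/
noncomputable def phi (κ : D.K) (y : G) : ℝ := (((range R).filter fun r => D.See κ r y).card : ℝ)

theorem see_act {d : G} (hd : d ∈ D.C) (κ : D.K) (r : ℕ) (y : G) :
    D.See (D.act d κ) r (d * y) ↔ D.See κ r y := by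
  constructor
  · rintro ⟨c, hc, u, hu, e⟩
    refine ⟨d⁻¹ * c, hc.act_inv hd, u, hu, ?_⟩
    rw [act_fst] at e
    rw [mul_assoc, mul_assoc, ← mul_assoc c, ← e, inv_mul_cancel_left]
  · rintro ⟨c, hc, u, hu, e⟩
    refine ⟨d * c, hc.act hd, u, hu, ?_⟩
    rw [act_fst, e]
    simp only [mul_assoc]

theorem see_g (κ : D.K) (r : ℕ) (y : G) : D.See κ r (g * y) ↔ D.See κ r y := by
  constructor
  · rintro ⟨c, hc, u, hu, e⟩
    refine ⟨g⁻¹ * c, hc.g_inv_mul, u, hu, ?_⟩
    rw [mul_assoc, mul_assoc, ← mul_assoc c, ← e, inv_mul_cancel_left]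
  · rintro ⟨c, hc, u, hu, e⟩
    refine ⟨g * c, hc.g_mul, u, hu, ?_⟩
    rw [e]
    simp only [mul_assoc]

variable {D}

theorem See.step {κ : D.K} {r : ℕ} {y s : G} (h : D.See κ r y) (hs : s ∈ S) :
    D.See κ (r + 1) (y * s) := by
  obtain ⟨c, hc, u, hu, e⟩ := h
  refine ⟨c, hc, u * s, ?_, by rw [e, mul_assoc _ u s]⟩
  rw [pow_succ]
  exact Set.mul_mem_mul hu (mem_coe.2 hs)

theorem phi_step (κ : D.K) (y : G) {s : G} (hs : s ∈ S) : D.phi κ y ≤ D.phi κ (y * s) + 1 := by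
  have hsub : ((range R).filter fun r => D.See κ r y).image (· + 1) ⊆
      insert R ((range R).filter fun r => D.See κ r (y * s)) := by
    intro r hr
    obtain ⟨r', hr', rfl⟩ := mem_image.1 hr
    obtain ⟨h1, h2⟩ := mem_filter.1 hr'
    rw [mem_range] at h1
    rcases Nat.lt_or_eq_of_le (Nat.succ_le_of_lt h1) with h | h
    · exact mem_insert_of_mem (mem_filter.2 ⟨mem_range.2 h, h2.step hs⟩)
    · exact mem_insert.2 (Or.inl h)
  have h := (card_le_card hsub).trans (card_insert_le _ _)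
  rw [card_image_of_injective _ (add_left_injective 1)] at h
  unfold phi
  exact_mod_cast h

theorem see_of_phi {κ : D.K} {y : G} (h : D.phi κ y ≠ 0) : D.See κ R y := by
  unfold phi at h
  rw [Nat.cast_ne_zero, card_ne_zero] at h
  obtain ⟨r, hr⟩ := h
  obtain ⟨h1, c, hc, u, hu, e⟩ := mem_filter.1 hr
  exact ⟨c, hc, u, mem_pow_mono D.one (mem_range.1 h1).le hu, e⟩

/-- Two elements of `C` placing close points near the same representative differ by `H`. -/
theorem close {z c c' v v' u : G} (hc : c ∈ D.C) (hc' : c' ∈ D.C) (hv : v ∈ (S : Set G) ^ R)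
    (hv' : v' ∈ (S : Set G) ^ R) (hu : u ∈ (S : Set G) ^ r0)
    (e : c * z * v * u = c' * z * v') :
    ∃ b ∈ (S : Set G) ^ (2 * R + r0), c⁻¹ * c' = z * b * z⁻¹ ∧ c⁻¹ * c' ∈ D.H z := by
  have hb : v * u * v'⁻¹ ∈ (S : Set G) ^ (2 * R + r0) := by
    have := mul_mem_pow (mul_mem_pow hv hu) (inv_mem_pow D.inv R v' hv')
    rwa [show R + r0 + R = 2 * R + r0 by ring] at this
  have e' : c⁻¹ * c' = z * (v * u * v'⁻¹) * z⁻¹ := by
    have : c' = c * z * v * u * v'⁻¹ * z⁻¹ := by rw [e]; group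
    rw [this]; group
  refine ⟨_, hb, e', ?_⟩
  rw [e']
  refine D.loc z _ hb ?_
  rw [← e']
  exact D.C.mul_mem (D.C.inv_mem hc) hc'

variable (D)

/-- The geometric data. -/
noncomputable def geo : Geo0 g D.C S R r0 (S.card ^ R) where
  K := D.K
  Q := D.Q
  cls := fun κ => κ.1
  act := D.act
  phi := D.phi
  phi_act := fun c hc κ y => by simp only [phi, D.see_act hc]
  cls_act := fun _ _ _ => rfl
  phi_g := fun κ y => by simp only [phi, D.see_g]
  phi_nonneg := fun κ y => Nat.cast_nonneg _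
  phi_le := fun κ y => by
    unfold phi
    exact_mod_cast (card_filter_le _ _).trans (card_range R).le
  phi_lip := fun κ y s hs => by
    have h1 := phi_step κ y hs
    have h2 := phi_step κ (y * s) (D.inv s hs)
    rw [mul_inv_cancel_right] at h2
    rw [abs_le]
    constructor <;> linarith
  phi_top := fun y => by
    refine ⟨(D.cl y, D.co y • (D.H (D.x (D.cl y)) : Set G)), ?_⟩
    unfold phi
    rw [filter_true_of_mem, card_range]
    intro r _
    exact ⟨D.co y, ⟨D.co_mem y, rfl⟩, 1, Set.one_mem_pow (mem_coe.2 D.one), by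
      rw [mul_one, co_x]⟩
  phi_fin := fun y => by
    refine ⟨(S ^ R).image fun u =>
      ((D.cl (y * u⁻¹), D.co (y * u⁻¹) • (D.H (D.x (D.cl (y * u⁻¹))) : Set G)) : D.K),
      card_image_le.trans (Finset.card_pow_le), fun κ h => ?_⟩
    obtain ⟨c, hc, u, hu, e⟩ := see_of_phi h
    refine mem_image.2 ⟨u, by rwa [← mem_coe, coe_pow], ?_⟩
    have e1 : y * u⁻¹ = c * D.x κ.1 := by rw [e, mul_inv_cancel_right]
    have e2 : D.cl (c * D.x κ.1) = κ.1 := by rw [D.cl_mul hc.1, cl_x]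
    have e3 : D.co (c * D.x κ.1) = c := by rw [co, e2, mul_inv_cancel_right]
    rw [e1, e2, e3, ← hc.2]
    rfl
  deg := fun q => by
    refine ⟨(S ^ R).image fun u => D.x q * u, card_image_le.trans (Finset.card_pow_le),
      fun κ y hq h => ?_⟩
    obtain ⟨c, hc, u, hu, e⟩ := see_of_phi h
    refine ⟨c, hc.1, D.x q * u, mem_image.2 ⟨u, by rwa [← mem_coe, coe_pow], rfl⟩, ?_⟩
    rw [e, hq, mul_assoc]
  sep := fun κ κ' y u hu hq h h' => by
    obtain ⟨c, hc, v, hv, e⟩ := see_of_phi h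
    obtain ⟨c', hc', v', hv', e'⟩ := see_of_phi h'
    rw [← hq] at e'
    obtain ⟨-, -, -, hH⟩ := close hc.1 hc'.1 hv hv' hu (by rw [← e, ← e'])
    have h3 := (hc.mul hH).2
    have h4 := hc'.2
    rw [← hq] at h4
    exact Prod.ext hq (h3.trans h4.symm)

theorem stab {κ : D.K} {c c0 : G} (h0 : D.Rep κ c0) (hc : c ∈ D.C) (e : D.act c κ = κ) :
    c0⁻¹ * (c * c0) ∈ D.H (D.x κ.1) := by
  have h := h0.act hc
  rw [e] at h
  exact h0.mem h

end Dt

theorem Hx_le {g : G} {C : Subgroup G} (hg : g ∈ C) (B : Finset G) (x : G) : Hx g C B x ≤ C := by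
  refine (Subgroup.closure_le _).2 ?_
  rintro z (rfl | ⟨hz, -⟩)
  · exact hg
  · exact hz

theorem Hx_conj {g : G} {C : Subgroup G} (hc : ∀ c ∈ C, c * g = g * c) (B : Finset G) (x : G)
    {c z : G} (h : c ∈ C) (hz : z ∈ Hx g C B x) : c * z * c⁻¹ ∈ Hx g C B (c * x) := by
  have : Hx g C B x ≤ (Hx g C B (c * x)).comap (MulAut.conj c).toMonoidHom := by
    refine (Subgroup.closure_le _).2 ?_
    rintro w (rfl | ⟨hw, b, hb, rfl⟩)
    · refine Subgroup.subset_closure (Or.inl ?_)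
      change c * w * c⁻¹ = w
      rw [hc c h, mul_inv_cancel_right]
    · refine Subgroup.subset_closure (Or.inr ⟨?_, b, hb, ?_⟩)
      · exact C.mul_mem (C.mul_mem h hw) (C.inv_mem h)
      · change c * (x * b * x⁻¹) * c⁻¹ = _
        group
  exact this hz

end Geo1

section geo
variable {G : Type} [Group G]

theorem geo_loc (g : G) (S : Finset G) (h1 : (1 : G) ∈ S) (hS : ∀ s ∈ S, s⁻¹ ∈ S) (R r0 : ℕ)
    (C : Subgroup G) (hg : g ∈ C) (hc : ∀ c ∈ C, c * g = g * c) :
    ∃ X : Geo0 g C S R r0 (S.card ^ R),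
      (∀ a ∈ C, ∀ b ∈ C, X.act (a * b) = X.act a * X.act b) ∧
      ∀ κ y, X.phi κ y ≠ 0 → ∃ x, ∀ c ∈ C, X.act c κ = κ → c ∈ Hx g C (S ^ (2 * R + r0)) x := by
  let D : Geo1.Dt g S R r0 :=
    { C := C, H := Hx g C (S ^ (2 * R + r0)), one := h1, inv := hS, comm := hc,
      le := Geo1.Hx_le hg _, gH := fun _ => Subgroup.subset_closure (Or.inl rfl),
      loc := fun x b hb hx => Subgroup.subset_closure
        (Or.inr ⟨hx, b, by rwa [← mem_coe, coe_pow], rfl⟩) }
  refine ⟨D.geo, fun a _ b _ => ?_, fun κ y h => ?_⟩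
  · refine Equiv.ext fun κ => Prod.ext rfl ?_
    exact mul_smul a b κ.2
  · obtain ⟨c0, h0, -⟩ := Geo1.Dt.see_of_phi (D := D) h
    refine ⟨c0 * D.x κ.1, fun c hcC e => ?_⟩
    have h2 := Geo1.Hx_conj hc _ _ h0.1 (D.stab h0 hcC e)
    rwa [mul_inv_cancel_left, mul_inv_cancel_right] at h2

end geo

end Pool.Agent.Lib.MP_7903c7_al.D
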