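import Pool.Agent.Lib.MP_7903c7_al.D.Loop
import Pool.Agent.Lib.MP_7903c7_al.D.Alg1
import Pool.Agent.Lib.MP_7903c7_al.D.Alg2b

/-!
Nilpotence on the lists of loops that select a component.
-/

namespace Pool.Agent.Lib.MP_7903c7_al.D

open Finset RF LS.CutCore
open scoped Classical Pointwise

variable {G : Type} [Group G]

namespace Sel

omit [Group G] in
theorem sel_add {K : Type} {sel : (ℤ → G) → K → Prop}
    (h2 : ∀ γ κ, sel (fun t => γ (t - 1)) κ ↔ sel γ κ) (γ : ℤ → G) (κ : K) (c : ℤ) :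
    sel (fun t => γ (t + c)) κ ↔ sel γ κ := by
  induction c using Int.induction_on with
  | zero => simp
  | succ n ih =>
    rw [← h2, ← ih]
    simp only [show ∀ t : ℤ, t - 1 + ((n : ℤ) + 1) = t + n from fun t => by ring]
  | pred n ih =>
    rw [← ih, ← h2 fun t => γ (t + -(n : ℤ))]
    simp only [show ∀ t : ℤ, t - 1 + -(n : ℤ) = t + (-(n : ℤ) - 1) from fun t => by ring]

end Sel

open Loop Sel

theorem nil_sel {Λ : Type} [CommRing Λ] {g : G} {C : Subgroup G} (S : Finset G) (N L m : ℕ)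
    (hc : ∀ c ∈ C, c * g = g * c) {K : Type} (act : G → Equiv.Perm K)
    (hmul : ∀ a ∈ C, ∀ b ∈ C, act (a * b) = act a * act b) (sel : (ℤ → G) → K → Prop)
    (h1 : ∀ γ κ, ∀ c ∈ C, sel γ κ → sel (fun t => c * γ t) (act c κ))
    (h2 : ∀ γ κ, sel (fun t => γ (t - 1)) κ ↔ sel γ κ)
    (h3 : ∀ γ κ κ', Good g S N L γ → sel γ κ → sel γ κ' → κ = κ') {a : Λ} {k : ℕ}
    (h : ∀ γ κ, Good g S N L γ → sel γ κ → ∃ D : Subgroup G, (∀ c ∈ C, act c κ = κ → c ∈ D) ∧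
      Nil (rt G N) N g D (GG g S N L m) a k) :
    ∃ A, Inv (rt G N) C A ∧ Nil (rt G N) N g C A a k ∧
      GW g S N L m (fun γ => ∃ κ, ∀ γ', Good g S N L γ' → Near N m γ γ' → sel γ' κ) ⊆ A := by
  have hI := GG_inv (g := g) S N L m hc
  let act' : C →* Equiv.Perm K := MonoidHom.mk' (fun c => act c) fun a b => hmul a a.2 b b.2
  let W : K → Set (List (Pt G N)) := fun κ =>
    {l | l ∈ GG g S N L m ∧ ∀ v ∈ l, ∃ γ, mk N γ = v ∧ Good g S N L γ ∧ sel γ κ}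
  have hclo : ∀ κ, Clo (rt G N) (W κ) := fun κ => by
    refine ⟨fun l hl => ⟨hI.1.map l hl.1, ?_⟩, fun l hl l' hne hs =>
      ⟨hI.1.sub l hl.1 l' hne hs, fun v hv => hl.2 v (hs.subset hv)⟩⟩
    simp only [List.forall_mem_map]
    intro v hv
    obtain ⟨γ, rfl, hγ, hs⟩ := hl.2 v hv
    exact ⟨_, rfl, good_sh hγ, (h2 γ κ).2 hs⟩
  have hact : ∀ (c : C) κ, ∀ l ∈ W κ, l.map (fun v => (c : G) • v) ∈ W (act' c κ) := by
    intro c κ l hl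
    refine ⟨hI.2 c c.2 l hl.1, ?_⟩
    simp only [List.forall_mem_map]
    intro v hv
    obtain ⟨γ, rfl, hγ, hs⟩ := hl.2 v hv
    exact ⟨_, rfl, good_mul (hc c c.2) hγ, h1 γ κ c c.2 hs⟩
  have hex : ∀ κ, (W κ).Nonempty → ∃ γ, Good g S N L γ ∧ sel γ κ := by
    rintro κ ⟨l, hl⟩
    obtain ⟨γ0, -, hm⟩ := GG_ne hl.1
    obtain ⟨γ, -, hγ, hs⟩ := hl.2 _ hm
    exact ⟨γ, hγ, hs⟩
  refine ⟨⋃ κ, W κ, ⟨⟨fun l hl => ?_, fun l hl l' hne hs => ?_⟩, fun c hcC l hl => ?_⟩,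
    Nil.ind (rt_smul N) act' W hclo hact ?_ ?_ ?_, ?_⟩
  · obtain ⟨κ, hκ⟩ := Set.mem_iUnion.1 hl
    exact Set.mem_iUnion.2 ⟨κ, (hclo κ).map l hκ⟩
  · obtain ⟨κ, hκ⟩ := Set.mem_iUnion.1 hl
    exact Set.mem_iUnion.2 ⟨κ, (hclo κ).sub l hκ l' hne hs⟩
  · obtain ⟨κ, hκ⟩ := Set.mem_iUnion.1 hl
    exact Set.mem_iUnion.2 ⟨_, hact ⟨c, hcC⟩ κ l hκ⟩
  · intro κ κ' l hl hl'
    obtain ⟨γ0, -, hm⟩ := GG_ne hl.1
    obtain ⟨γ, he, hγ, hs⟩ := hl.2 _ hm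
    obtain ⟨γ', he', -, hs'⟩ := hl'.2 _ hm
    obtain ⟨n, hn⟩ := mk_eq.1 (he.trans he'.symm)
    rw [show γ' = fun t => γ (t + n * N) from funext hn, sel_add h2] at hs'
    exact h3 γ κ κ' hγ hs hs'
  · intro c hcg κ hκ
    obtain ⟨γ, hγ, hs⟩ := hex κ hκ
    have h4 := h1 γ κ c c.2 hs
    rw [show (fun t => (c : G) * γ t) = fun t => γ (t + N) from
      funext fun t => by rw [hcg, hγ.1 t], sel_add h2] at h4
    exact h3 γ _ _ hγ h4 hs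
  · intro κ hκ
    obtain ⟨γ, hγ, hs⟩ := hex κ hκ
    obtain ⟨D, hD, hN⟩ := h γ κ hγ hs
    refine hN.mono (fun z hz => ?_) fun l hl => hl.1
    obtain ⟨hz, he⟩ := mem_stb.1 hz
    exact hD z hz he
  · rintro _ ⟨l', rfl, hg, hn, γ, hγ, κ, hκ⟩
    refine Set.mem_iUnion.2 ⟨κ, ⟨l', rfl, hg, hn, γ, hγ, trivial⟩, ?_⟩
    simp only [List.forall_mem_map]
    exact fun γ' hγ' => ⟨γ', rfl, hg γ' hγ', hκ γ' (hg γ' hγ') (hn γ hγ γ' hγ')⟩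

end Pool.Agent.Lib.MP_7903c7_al.D
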