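import Pool.Agent.Lib.MP_7903c7_al.D.At1
import Pool.Agent.Lib.MP_7903c7_al.D.Sel
import Pool.Agent.Lib.MP_7903c7_al.D.Band
import Pool.Agent.Lib.MP_7903c7_al.D.Geo1

set_option autoImplicit false

/-!
Localisation: uniform nilpotence passes from the local subgroups to the whole subgroup.
-/

namespace Pool.Agent.Lib.MP_7903c7_al.D

open Finset RF LS.CutCore
open scoped Classical Pointwise

variable {G : Type} [Group G]

theorem at_loc (g : G) (S : Finset G) (h1 : (1 : G) ∈ S) (hS : ∀ s ∈ S, s⁻¹ ∈ S) {p e : ℕ}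
    (hp : p.Prime) (he : 0 < e) :
    ∃ (B : Finset G) (e' : ℕ), 0 < e' ∧ ∀ 𝓗 : Set (Subgroup G), At g S p e' 𝓗 →
      At g S p e {D | ∀ x : G, ∃ H ∈ 𝓗, g ∈ H ∧
        ∀ c ∈ D, (∃ b ∈ B, c = x * b * x⁻¹) → c ∈ H} := by
  have := Fact.mk hp
  have heR : (0 : ℝ) < e := by exact_mod_cast he
  obtain ⟨n, hn, H1⟩ := sys1u S.card (card_pos.2 ⟨1, h1⟩) (1 / (2000 * (e * 16))) (by positivity)
  have hT : 0 < n ^ 3 := by positivity
  obtain ⟨Δ, hΔ⟩ : ∃ Δ, Δ = S.card ^ (4 * n ^ 3) := ⟨_, rfl⟩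
  refine ⟨S ^ (2 * (4 * n ^ 3) + 4 * n ^ 3), e * 2 * (64 * Δ + 1), by positivity,
    fun 𝓗 ⟨L0, H0⟩ => ⟨L0 + 4 * n ^ 3 + e * 16, fun L hL m => ?_⟩⟩
  obtain ⟨u, hu⟩ : ∃ u, u = L / (e * 16) := ⟨_, rfl⟩
  obtain ⟨z, hz⟩ : ∃ z, z = L / (e * 2 * (64 * Δ + 1)) := ⟨_, rfl⟩
  have hu1 : 16 * u ≤ L / e := by
    rw [hu, ← Nat.div_div_eq_div_mul]; exact Nat.mul_div_le _ _
  have hu2 : 1 ≤ u := by
    rw [hu, Nat.le_div_iff_mul_le (by positivity)]; omega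
  have hu3 : 2 * (64 * Δ + 1) * z ≤ L / e := by
    rw [hz, mul_assoc e, ← Nat.div_div_eq_div_mul]; exact Nat.mul_div_le _ _
  have hu4 : L < e * 16 * (u + 1) := by rw [hu]; exact Nat.lt_mul_div_succ _ (by positivity)
  obtain ⟨a0, H0⟩ := H0 L (by omega) m
  obtain ⟨a1, H1⟩ := H1 Δ L (u + 1) m
    (by rw [hΔ, pow_mul 2]; exact Nat.pow_le_pow_left Nat.lt_two_pow_self.le _) (by omega) (by
      have : (L : ℝ) ≤ e * 16 * (u + 1) := by exact_mod_cast hu4.le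
      rw [show 2000 * (1 / (2000 * ((e : ℝ) * 16))) * L = L / (e * 16) by field_simp,
        div_le_iff₀ (by positivity)]
      push_cast
      linarith)
  obtain ⟨a3, H3⟩ := bands (n ^ 3) Δ L m hT (by omega)
  refine ⟨a0 + a1 + a3 + 1, fun n0 hn0 Λ _ J hJ C hC => ?_⟩
  by_cases hgC : g ∈ C
  swap
  · exact fun H hH _ hg => absurd (hH hg) hgC
  refine Nil.inf ?_
  have hg : g ∈ C ⊓ Subgroup.centralizer {g} :=
    ⟨hgC, Subgroup.mem_centralizer_singleton_iff.2 rfl⟩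
  have hc : ∀ c ∈ C ⊓ Subgroup.centralizer {g}, c * g = g * c := fun c h =>
    Subgroup.mem_centralizer_singleton_iff.1 h.2
  obtain ⟨X, hX1, hX2⟩ : ∃ X : Geo0 g (C ⊓ Subgroup.centralizer {g}) S (4 * n ^ 3) (4 * n ^ 3) Δ,
      (∀ a ∈ C ⊓ Subgroup.centralizer {g}, ∀ b ∈ C ⊓ Subgroup.centralizer {g},
        X.act (a * b) = X.act a * X.act b) ∧ ∀ κ y, X.phi κ y ≠ 0 → ∃ x,
        ∀ c ∈ C ⊓ Subgroup.centralizer {g}, X.act c κ = κ → c ∈ Hx g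
          (C ⊓ Subgroup.centralizer {g}) (S ^ (2 * (4 * n ^ 3) + 4 * n ^ 3)) x := by
    rw [hΔ]; exact geo_loc g S h1 hS _ _ _ hg hc
  obtain ⟨F1, hF1, hc1⟩ := H1 n0 (by omega) G g _ S _ X h1 Nat.lt_two_pow_self.le
  obtain ⟨sel, s0, s1, s2, s3, s4⟩ := H3 n0 (by omega) G g _ S _ X h1 le_rfl
  obtain ⟨A, hA0, hA, hsub⟩ := nil_cover (Λ := Λ) S (L * n0) L m
    (Nat.mul_pos (by omega) (by omega)) hp hJ hg hc (Icc (1 : ℤ) (2 * (u + 1 : ℕ) - 1))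
    (fun j => padicValNat p j.natAbs) (fun j _ => j) F1
    (fun j hj γ => by
      rw [mem_Icc] at hj
      exact Main.not_dvd (j := j) (by omega)) (fun j _ => hF1 j) _ hc1
  have hb := fun b => nil_sel (Λ := Λ) (a := (p : Λ) ^ z) (k := z) S (L * n0) L m hc X.act hX1
    (sel b) (s1 b) (s2 b) (s3 b) fun γ κ _ hs => by
      obtain ⟨y, hy⟩ := s0 b γ κ hs
      obtain ⟨x, hx⟩ := hX2 κ y hy
      obtain ⟨H, hH, hgH, hBH⟩ := hC x
      refine ⟨H, fun c hcC hκ => ?_, hz ▸ H0 n0 (by omega) Λ J hJ H hH⟩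
      refine (Subgroup.closure_le (K := H)).2 ?_ (hx c hcC hκ)
      rintro w (rfl | ⟨hw, hw'⟩)
      · exact hgH
      · exact hBH w hw.1 hw'
  choose A' hA1 hA2 hA3 using hb
  have hU := (Nil.biUnion (rt_iter _) (rt_smul _) (range (64 * Δ + 1)) A' (fun _ => (p : Λ) ^ z)
    (fun _ => z) (fun b _ => hA1 b) fun b _ => hA2 b).2
  rw [prod_const, sum_const, card_range, ← pow_mul, smul_eq_mul] at hU
  have key := Nil.union (rt_iter _) (rt_smul _) hA0 hA hU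
  rw [← pow_add] at key
  have e1 : ∑ j ∈ Icc (1 : ℤ) (2 * (u + 1 : ℕ) - 1), padicValNat p j.natAbs ≤
      2 * (2 * (u + 1)) :=
    (sum_le_sum_of_subset (Icc_subset_Icc (by omega) (by omega))).trans (Main.sum_val _)
  refine (key.mono le_rfl ?_).up (by nlinarith) (by rw [Int.card_Icc]; nlinarith [
    show (2 * ((u + 1 : ℕ) : ℤ) - 1 + 1 - 1).toNat = 2 * u + 1 by omega])
  rintro l ⟨l', e, k1, k2, γ, hγ, -⟩
  by_cases hpers : ∀ κ, pers (Fw n0 (n ^ 3) fun t => X.phi κ (γ t)) ≤ (n : ℝ) ^ 6 / 8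
  · exact Or.inl (hsub ⟨l', e, k1, k2, γ, hγ, hpers⟩)
  · push Not at hpers
    obtain ⟨b, hb, hf⟩ := s4 γ (k1 γ hγ) (hpers.imp fun κ h => by push_cast; rwa [← pow_mul])
    exact Or.inr (Set.mem_biUnion (x := b) (mem_coe.2 (mem_range.2 (by omega)))
      (hA3 b ⟨l', e, k1, k2, γ, hγ, hf⟩))

end Pool.Agent.Lib.MP_7903c7_al.D
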