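import Pool.Agent.Lib.MP_7903c7_al.D.Main
import Pool.Agent.Lib.MP_7903c7_al.RF.Cover2

set_option autoImplicit false

/-!
Pull-backs of tame families, local models and special cases.
-/

namespace Pool.Agent.Lib.MP_7903c7_al.D

open Finset RF
open scoped Classical Pointwise

variable {G : Type} [Group G]

theorem Tame.comap {Q : Type} [Group Q] (π : G →* Q) (g : G) {𝓕 : Set (Subgroup Q)}
    (h : Tame (π g) 𝓕) : Tame g {C | g ∈ C ∧ ∃ D ∈ 𝓕, C ≤ D.comap π} := by
  induction h with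
  | ab 𝓕 h =>
    refine .ab _ ?_
    rintro C ⟨hg, D, hD, hle⟩
    refine ⟨hg, fun m hm hmem => (h D hD).2 m hm ?_⟩
    have := Subgroup.mem_map_of_mem π hmem
    rw [Subgroup.map_commutator, map_pow] at this
    have k := Subgroup.map_le_iff_le_comap.2 hle
    exact Subgroup.commutator_mono k k this
  | step 𝓕 d v 𝓗 _ h ih =>
    refine .step _ d (fun B => v (B.image π)) _ (fun B => ih (B.image π)) ?_
    rintro B C ⟨hg, D, hD, hle⟩
    obtain ⟨D', k1, k2, k3, k4, Y, act, bd, r1, r2, r3, r4, r5, r6, r7⟩ := h (B.image π) D hD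
    have k := Subgroup.map_le_iff_le_comap.2 hle
    let j : ↥(D'.comap π ⊓ C) →* D' :=
      (π.comp (Subgroup.subtype _)).codRestrict D' fun c => c.2.1
    refine ⟨D'.comap π ⊓ C, inf_le_right, ⟨k2, hg⟩, ?_, ?_, Y, fun i => (act i).comp j, bd,
      fun i c x => r1 i (j c) x, r2, r3, r4, r5, fun i c hc => r6 i (j c) (congrArg π hc),
      fun i y x => ?_⟩
    · rw [Subgroup.inf_relIndex_right, Subgroup.relIndex_comap]
      exact mt (Subgroup.relIndex_eq_zero_of_le_right k) k3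
    · rw [Subgroup.inf_relIndex_right, Subgroup.relIndex_comap]
      exact (Subgroup.relIndex_le_of_le_right k k3).trans k4
    · obtain ⟨H, a1, a2, a3⟩ := r7 i y (π x)
      refine ⟨H.comap π, ⟨a2, H, a1, le_rfl⟩, a2, ?_⟩
      rintro c hc ⟨b, hb, e⟩
      exact a3 (j c) hc ⟨π b, mem_image_of_mem _ hb, by
        rw [← map_inv, ← map_mul, ← map_mul, ← e]; rfl⟩

/-- The resolution of length zero. -/
theorem res_zero {g : G} {B : Finset G} {𝓗 : Set (Subgroup G)} {C : Subgroup G}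
    (h : ∀ x : G, ∃ H ∈ 𝓗, g ∈ H ∧ ∀ c ∈ C, (∃ b ∈ B, c = x * b * x⁻¹) → c ∈ H) :
    Res g 0 B 𝓗 C := by
  have e : ∀ i : ℕ, IsEmpty (PLift (i + 1 = 0)) := fun i => ⟨fun a => by simpa using a.down⟩
  refine ⟨fun i => PLift (i = 0), fun _ => 1, fun _ => 0, fun i c x => by simp, ⟨⟨rfl⟩⟩,
    fun x => ⟨fun hx => ⟨0, ?_⟩, ?_⟩, fun i x => ⟨fun _ => ⟨0, ?_⟩, fun _ => rfl⟩, e 0,
    fun _ _ _ => rfl, fun _ _ x => (h x).imp fun H k => ⟨k.1, k.2.1, fun c _ => k.2.2 c c.2⟩⟩
  · have : Unique (PLift (0 = 0)) := ⟨⟨⟨rfl⟩⟩, fun _ => rfl⟩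
    rw [Finsupp.unique_single x] at hx ⊢
    simp only [Finsupp.linearCombination_single, smul_eq_mul, mul_one] at hx
    simp [hx]
  · rintro ⟨y, rfl⟩
    simp
  · have := e i
    exact Subsingleton.elim _ _

theorem Tame.mono {g : G} {𝓕 𝓕' : Set (Subgroup G)} (h : Tame g 𝓕) (hs : 𝓕' ⊆ 𝓕) :
    Tame g 𝓕' := by
  cases h with
  | ab _ h => exact .ab _ fun C hC => h C (hs hC)
  | step _ d v 𝓗 k h => exact .step _ d v 𝓗 k fun B C hC => h B C (hs hC)

theorem tame_comap {Q : Type} [Group Q] (π : G →* Q) (g : G)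
    (h : Tame (π g) {Subgroup.centralizer {π g}}) : Tame g {Subgroup.centralizer {g}} :=
  (h.comap π g).mono (by
    rintro _ rfl
    refine ⟨Subgroup.mem_centralizer_singleton_iff.2 rfl, _, rfl, fun z hz => ?_⟩
    rw [Subgroup.mem_comap, Subgroup.mem_centralizer_singleton_iff, ← map_mul, ← map_mul,
      Subgroup.mem_centralizer_singleton_iff.1 hz])

theorem tame_of_comm {g : G}
    (H : ∀ B : Finset G, ∃ C : Subgroup G, g ∈ C ∧ C ≤ Subgroup.centralizer {g} ∧
      C.relIndex (Subgroup.centralizer {g}) ≠ 0 ∧ ∀ (x : G) (m : ℕ), 0 < m →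
        g ^ m ∉ ⁅Subgroup.closure (insert g {c | c ∈ C ∧ x⁻¹ * c * x ∈ B}),
          Subgroup.closure (insert g {c | c ∈ C ∧ x⁻¹ * c * x ∈ B})⁆) :
    Tame g {Subgroup.centralizer {g}} := by
  choose C h1 h2 h3 h4 using H
  refine .step _ 0 (fun B => (C B).relIndex (Subgroup.centralizer {g}))
    (fun _ => {C | g ∈ C ∧ ∀ m : ℕ, 0 < m → g ^ m ∉ ⁅C, C⁆}) (fun _ => .ab _ fun _ h => h) ?_
  rintro B _ rfl
  refine ⟨C B, h2 B, h1 B, h3 B, le_rfl, res_zero fun x => ?_⟩
  have hg : g ∈ Subgroup.closure (insert g {c | c ∈ C B ∧ x⁻¹ * c * x ∈ B}) :=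
    Subgroup.subset_closure (Set.mem_insert _ _)
  refine ⟨_, ⟨hg, h4 B x⟩, hg, ?_⟩
  rintro c hc ⟨b, hb, rfl⟩
  refine Subgroup.subset_closure (Set.mem_insert_of_mem _ ⟨hc, ?_⟩)
  rwa [show x⁻¹ * (x * b * x⁻¹) * x = b by group]

/-- A group that is finite over a central infinite cyclic subgroup detects its generator. -/
theorem not_mem_commutator {g : G} (h0 : orderOf g = 0) {H : Subgroup G} (hg : g ∈ H)
    (hc : H ≤ Subgroup.centralizer {g}) (hi : (Subgroup.zpowers g).relIndex H ≠ 0) (m : ℕ)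
    (hm : 0 < m) : g ^ m ∉ ⁅H, H⁆ := by
  intro hmem
  have hle : (Subgroup.zpowers g).subgroupOf H ≤ Subgroup.center H := by
    intro z hz
    obtain ⟨n, hn⟩ := Subgroup.mem_zpowers_iff.1 (Subgroup.mem_subgroupOf.1 hz)
    refine Subgroup.mem_center_iff.2 fun w => Subtype.ext ?_
    have : Commute (w : G) g := Subgroup.mem_centralizer_singleton_iff.1 (hc w.2)
    simpa [hn] using (this.zpow_right n).eq
  have : ((Subgroup.zpowers g).subgroupOf H).FiniteIndex := ⟨hi⟩
  have : (Subgroup.center H).FiniteIndex := Subgroup.finiteIndex_of_le hle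
  rw [← Subgroup.map_subtype_commutator] at hmem
  obtain ⟨y, hy, e⟩ := hmem
  have h6 : MonoidHom.transferCenterPow H y = 1 := by
    have k : commutator H ≤ (MonoidHom.transferCenterPow H).ker := by
      rw [commutator, Subgroup.commutator_le]
      intro a _ b _
      rw [MonoidHom.mem_ker, map_commutatorElement, commutatorElement_eq_one_iff_mul_comm]
      exact Subtype.ext (Subgroup.mem_center_iff.1 (MonoidHom.transferCenterPow H b).2 _)
    exact k hy
  have h7 := congrArg (fun z : Subgroup.center H => ((z : H) : G)) h6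
  simp only [MonoidHom.transferCenterPow_apply, Subgroup.coe_pow, OneMemClass.coe_one] at h7
  rw [show (y : G) = g ^ m from e, ← pow_mul] at h7
  exact orderOf_eq_zero_iff'.1 h0 _
    (Nat.mul_pos hm (Nat.pos_of_ne_zero Subgroup.FiniteIndex.index_ne_zero)) h7

theorem core_loc {I k : Type} [Fintype I] [DecidableEq I] [Field k] [IsAlgClosed k]
    {p : ℕ} (hp : p.Prime) [CharP k p] {A : Matrix I I (MonoidAlgebra k G)} (hA : A * A = A)
    {g : G} (H : ∀ B : Finset G, ∃ (Q : Type) (_ : Group Q) (φ : G → Q),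
      (∀ a ∈ B, ∀ b ∈ B, φ (a * b) = φ a * φ b) ∧ Tame (φ g) {Subgroup.centralizer {φ g}}) :
    tau (fun h => IsConj h g) A = 0 := by
  have hx : ∀ h : G, ∃ x : G, IsConj h g → h * x = x * g := by
    intro h
    by_cases hc : IsConj h g
    · obtain ⟨c, hc'⟩ := isConj_iff.mp hc
      exact ⟨c⁻¹, fun _ => by rw [← hc']; group⟩
    · exact ⟨1, fun h' => absurd h' hc⟩
  choose x hx using hx
  let S : Finset G := univ.biUnion fun q : I × I => (A q.1 q.2).coeff.support
  let B : Finset G := insert g (S ∪ S.image x)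
  have hS : ∀ i i', (A i i').coeff.support ⊆ S := fun i i' h hh =>
    mem_biUnion.mpr ⟨(i, i'), mem_univ _, hh⟩
  have hSB : S ⊆ B := fun h hh => mem_insert_of_mem (mem_union_left _ hh)
  let j : G → PresentedGroup (rels B) := PresentedGroup.of
  obtain ⟨π, hπ⟩ := exists_hom (B := B) id fun _ _ _ _ => rfl
  let A' : Matrix I I (MonoidAlgebra k (PresentedGroup (rels B))) :=
    A.map (MonoidAlgebra.mapDomain j)
  have eA : ∀ i i', A' i i' = MonoidAlgebra.mapDomain j (A i i') := fun _ _ => rfl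
  have hA' : A' * A' = A' := by
    ext1 i i'
    have e : ∀ z : MonoidAlgebra k G, MonoidAlgebra.mapDomain j z =
        MonoidAlgebra.mapDomainLinearMap k k j z := fun _ => rfl
    conv_rhs => rw [eA, ← hA, Matrix.mul_apply, e, map_sum]
    rw [Matrix.mul_apply]
    refine sum_congr rfl fun l _ => ?_
    rw [← e, mapDomain_mul_on j (fun a ha b hb => of_mul ha hb) ((hS _ _).trans hSB)
      ((hS _ _).trans hSB), eA, eA]
  obtain ⟨Q, _, φ, hφ, HT⟩ := H B
  obtain ⟨π', hπ'⟩ := exists_hom φ hφ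
  rw [← core hp hA' (tame_comap π' (j g) (by rwa [hπ'])), tau_apply, tau_apply]
  refine sum_congr rfl fun i _ => ?_
  rw [eA, tau0_mapDomain]
  refine tau0_congr fun h hh => ⟨fun hc => ?_, fun hc => ?_⟩
  · have h1 : h ∈ S := hS i i (Finsupp.mem_support_iff.mpr hh)
    have h2 : x h ∈ B := mem_insert_of_mem (mem_union_right _ (mem_image_of_mem _ h1))
    have h3 : j h * j (x h) = j (x h) * j g := by
      rw [← of_mul (hSB h1) h2, ← of_mul h2 (mem_insert_self _ _), hx h hc]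
    exact isConj_iff.mpr ⟨(j (x h))⁻¹, by rw [inv_inv, mul_assoc, h3, inv_mul_cancel_left]⟩
  · have := π.map_isConj hc
    rwa [hπ, hπ] at this

end Pool.Agent.Lib.MP_7903c7_al.D
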