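import Pool.Agent.Lib.MP_7903c7_al.RF.Defs
import Pool.Agent.Lib.MP_7903c7_al.LS.CutPhase

set_option autoImplicit false

/-!
Definitions for the extension of the loop space proof along resolutions.
-/

namespace Pool.Agent.Lib.MP_7903c7_al.D

open Finset RF LS.CutCore
open scoped Classical Pointwise

section alg

variable {G P Λ : Type} [Group G] [MulAction G P] [CommRing Λ]

/-- The differential of cochains. -/
noncomputable def Dc (T : P → P) (N : ℕ) {V : Type} [AddCommGroup V] [Module Λ V]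
    (f : ℤ → (Ch P Λ →ₗ[Λ] V)) (j : ℤ) : Ch P Λ →ₗ[Λ] V :=
  f j ∘ₗ LS.CutCore.bd - f (j + 1) ∘ₗ sg ∘ₗ LS.CutCore.dd T N (j + 1)

/-- Closed sets of lists that are invariant under `C`. -/
def Inv (T : P → P) (C : Subgroup G) (A : Set (List P)) : Prop :=
  Clo T A ∧ ∀ c ∈ C, ∀ l ∈ A, l.map (fun v => c • v) ∈ A

/-- Equivariant cochains that vanish above `top` and on `B`. -/
def Coc (H : Subgroup G) {V : Type} [AddCommGroup V] [Module Λ V] (ρ : Representation Λ H V)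
    (top : ℤ) (B : Set (List P)) (f : ℤ → (Ch P Λ →ₗ[Λ] V)) : Prop :=
  (∀ j (c : H) x, f j (tr (fun v => (c : G) • v) x) = ρ c (f j x)) ∧ (∀ j, top < j → f j = 0) ∧
    ∀ j, ∀ l ∈ B, f j (Finsupp.single l 1) = 0

/-- The shift by `2 * k`, multiplied by `a`, kills the cohomology of the pair `(A, B)`. -/
def NilV (T : P → P) (N : ℕ) (H : Subgroup G) {V : Type} [AddCommGroup V] [Module Λ V]
    (ρ : Representation Λ H V) (A B : Set (List P)) (a : Λ) (k : ℕ) : Prop :=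
  ∀ (top : ℤ) (f : ℤ → (Ch P Λ →ₗ[Λ] V)), Coc H ρ top B f →
    (∀ j, ∀ l ∈ A, Dc T N f j (Finsupp.single l 1) = 0) →
    ∃ b : ℤ → (Ch P Λ →ₗ[Λ] V), Coc H ρ top B b ∧
      ∀ j, ∀ l ∈ A, Dc T N b j (Finsupp.single l 1) = a • f (j + 2 * k) (Finsupp.single l 1)

/-- Nilpotence for all subgroups of `C`, all coefficients and all pairs inside `W`. -/
def Nil (T : P → P) (N : ℕ) (g : G) (C : Subgroup G) (W : Set (List P)) (a : Λ) (k : ℕ) : Prop :=
  ∀ H : Subgroup G, H ≤ C → (∀ c ∈ H, c * g = g * c) → ∀ hg : g ∈ H,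
    ∀ (V : Type) [AddCommGroup V] [Module Λ V] (ρ : Representation Λ H V), ρ ⟨g, hg⟩ = 1 →
      ∀ A B : Set (List P), Inv T H A → Inv T H B → B ⊆ A → A \ B ⊆ W → NilV T N H ρ A B a k

/-- Only the powers of `g` fix a list of `W`. -/
def Free (g : G) (W : Set (List P)) : Prop :=
  ∀ l ∈ W, ∀ c : G, l.map (fun v => c • v) = l → c ∈ Subgroup.zpowers g

/-- The stabiliser of a point, as a subgroup of the big group. -/
def stb {C : Subgroup G} {Y : Type} (a : C →* Equiv.Perm Y) (y : Y) : Subgroup G :=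
  ((MulAction.stabilizer (Equiv.Perm Y) y).comap a).map C.subtype

theorem stb_le {C : Subgroup G} {Y : Type} (a : C →* Equiv.Perm Y) (y : Y) : stb a y ≤ C :=
  Subgroup.map_subtype_le _

theorem mem_stb {C : Subgroup G} {Y : Type} {a : C →* Equiv.Perm Y} {y : Y} {z : G} :
    z ∈ stb a y ↔ ∃ h : z ∈ C, a ⟨z, h⟩ y = y := by
  simp [stb, Subgroup.mem_map]

/-- Functions on a set with an action. -/
noncomputable def coind {H : Subgroup G} {V Y : Type} [AddCommGroup V] [Module Λ V]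
    (ρ : Representation Λ H V) (a : H →* Equiv.Perm Y) : Representation Λ H (Y → V) where
  toFun c := LinearMap.pi fun y => ρ c ∘ₗ LinearMap.proj (a c⁻¹ y)
  map_one' := by ext f y; simp
  map_mul' c c' := by ext f y; simp

end alg

section loops

variable {G : Type} [Group G]

/-- Sequences up to shifts by multiples of `N`. -/
def shS (G : Type) (N : ℕ) : Setoid (ℤ → G) where
  r γ γ' := ∃ n : ℤ, ∀ t, γ' t = γ (t + n * N)
  iseqv :=
    ⟨fun _ => ⟨0, fun _ => by simp⟩,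
      fun ⟨n, h⟩ => ⟨-n, fun t => by rw [h]; congr 1; ring⟩,
      fun ⟨n, h⟩ ⟨n', h'⟩ => ⟨n' + n, fun t => by rw [h', h]; congr 1; ring⟩⟩

/-- The classes of sequences. -/
def Pt (G : Type) (N : ℕ) : Type := Quotient (shS G N)

/-- The class of a sequence. -/
def mk (N : ℕ) (γ : ℤ → G) : Pt G N := Quotient.mk (shS G N) γ

/-- The rotation. -/
def rt (G : Type) (N : ℕ) : Pt G N → Pt G N :=
  Quotient.map (fun γ t => γ (t - 1)) fun _ _ ⟨n, h⟩ => ⟨n, fun t => by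
    simp only [h]; congr 1; ring⟩

instance (N : ℕ) : MulAction G (Pt G N) where
  smul c := Quotient.map (fun γ t => c * γ t) fun _ _ ⟨n, h⟩ => ⟨n, fun t => by simp only [h]⟩
  one_smul v := Quotient.inductionOn v fun γ =>
    congrArg (Quotient.mk (shS G N)) (funext fun _ => one_mul _)
  mul_smul a b v := Quotient.inductionOn v fun γ =>
    congrArg (Quotient.mk (shS G N)) (funext fun _ => mul_assoc _ _ _)

/-- Lists of classes of good loops that are pairwise near, one of them with the property `W`. -/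
def GW (g : G) (S : Finset G) (N L m : ℕ) (W : (ℤ → G) → Prop) : Set (List (Pt G N)) :=
  {l | ∃ l' : List (ℤ → G), l = l'.map (mk N) ∧ (∀ γ ∈ l', Good g S N L γ) ∧
    (∀ γ ∈ l', ∀ γ' ∈ l', Near N m γ γ') ∧ ∃ γ ∈ l', W γ}

/-- Nonempty lists of classes of good loops that are pairwise near. -/
def GG (g : G) (S : Finset G) (N L m : ℕ) : Set (List (Pt G N)) := GW g S N L m fun _ => True

/-- Uniform nilpotence at rate `1 / e` for a family of subgroups. -/
def At (g : G) (S : Finset G) (p e : ℕ) (𝓕 : Set (Subgroup G)) : Prop :=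
  ∃ L0 : ℕ, ∀ L ≥ L0, ∀ m : ℕ, ∃ n00 : ℕ, ∀ n0 ≥ n00, ∀ (Λ : Type) [CommRing Λ] (J : ℕ),
    (p : Λ) ^ J = 0 → ∀ C ∈ 𝓕,
      Nil (rt G (L * n0)) (L * n0) g C (GG g S (L * n0) L m) ((p : Λ) ^ (L / e)) (L / e)

/-- Components and their cut-off functions, without heights. -/
structure Geo0 (g : G) (C : Subgroup G) (S : Finset G) (R r0 Δ : ℕ) where
  K : Type
  Q : Type
  cls : K → Q
  act : G → Equiv.Perm K
  phi : K → G → ℝ
  phi_act : ∀ c ∈ C, ∀ κ y, phi (act c κ) (c * y) = phi κ y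
  cls_act : ∀ c ∈ C, ∀ κ, cls (act c κ) = cls κ
  phi_g : ∀ κ y, phi κ (g * y) = phi κ y
  phi_nonneg : ∀ κ y, 0 ≤ phi κ y
  phi_le : ∀ κ y, phi κ y ≤ R
  phi_lip : ∀ κ y, ∀ s ∈ S, |phi κ (y * s) - phi κ y| ≤ 1
  phi_top : ∀ y, ∃ κ, phi κ y = R
  phi_fin : ∀ y, ∃ A : Finset K, A.card ≤ Δ ∧ ∀ κ, phi κ y ≠ 0 → κ ∈ A
  deg : ∀ q, ∃ Z : Finset G, Z.card ≤ Δ ∧
    ∀ κ y, cls κ = q → phi κ y ≠ 0 → ∃ c ∈ C, ∃ z ∈ Z, y = c * z
  sep : ∀ κ κ' y, ∀ u ∈ (S : Set G) ^ r0, cls κ = cls κ' → phi κ y ≠ 0 → phi κ' (y * u) ≠ 0 →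
    κ = κ'

/-- Forget the heights. -/
def geo0 {g : G} {C : Subgroup G} {S : Finset G} {R r0 Δ I0 : ℕ} (X : Geo g C S R r0 Δ I0) :
    Geo0 g C S R r0 Δ :=
  ⟨X.K, X.Q, X.cls, X.act, X.phi, X.phi_act, X.cls_act, X.phi_g, X.phi_nonneg, X.phi_le,
    X.phi_lip, X.phi_top, X.phi_fin, X.deg, X.sep⟩

/-- The heights vary by at most `M` along a period of a loop of length at most `L`. -/
def EtaB {g : G} {C : Subgroup G} {S : Finset G} {R r0 Δ I0 : ℕ} (X : Geo g C S R r0 Δ I0)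
    (L : ℕ) (M : ℝ) : Prop :=
  ∀ (N : ℕ) (γ : ℤ → G), Good g S N L γ → ∀ κ, ∀ t ∈ range N, ∀ t' ∈ range N,
    X.phi κ (γ t) ≠ 0 → X.phi κ (γ t') ≠ 0 → |X.eta κ (γ t) - X.eta κ (γ t')| ≤ M

/-- The subgroup generated by `g` and the part of `C` in a conjugate of `B`. -/
def Hx (g : G) (C : Subgroup G) (B : Finset G) (x : G) : Subgroup G :=
  Subgroup.closure {z | z = g ∨ (z ∈ C ∧ ∃ b ∈ B, z = x * b * x⁻¹)}

end loops

end Pool.Agent.Lib.MP_7903c7_al.D
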