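import Pool.Agent.Lib.MP_7903c7_al.RF.Lab

set_option autoImplicit false

/-!
Random labels for infinitely many variables, by compactness.
-/

namespace Pool.Agent.Lib.MP_7903c7_al.D

open Finset RF
open scoped Classical

theorem avoid_inf {α : Type} [Fintype α] [Nonempty α] (d : α → ℝ) {s1 s2 θ : ℝ} (k0 c1 u T : ℕ)
    (hT : 0 < T) (hθ : 0 < θ) (hu : ((c1 + 8 * k0 + 5 : ℕ) : ℝ) ≤ u * (θ / 2))
    (hw : ∀ th, ∑ x, Lab.wgt (2 ^ u) s1 s2 th (d x) ≤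
      Fintype.card α * (1 + 1 / 2 ^ (k0 * (4 * T))))
    (V A : Type) (anch : Set A) (e : A → Finset V)
    (𝒟 : A → ℕ → Finset (V → ℝ)) (Mmax : ℕ)
    (he : ∀ a ∈ anch, (e a).card ≤ 2 ^ (k0 * (4 * T)))
    (hdeg : ∀ v (F : Finset A), (∀ a ∈ F, a ∈ anch ∧ v ∈ e a) → F.card ≤ 2 ^ (k0 * (4 * T)))
    (hD : ∀ a M, (𝒟 a M).card ≤ 2 ^ (c1 * (M + T))) :
    ∃ φ : V → α, ∀ a ∈ anch, ∀ M ≤ Mmax, ∀ th ∈ 𝒟 a M, (∀ v ∈ e a, d (φ v) ≤ th v + s2) →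
      (((e a).filter fun v => |d (φ v) - th v| ≤ s1).card : ℝ) ≤ θ * (M + (T : ℝ)) / 2 := by
  have fin : ∀ v, {a | a ∈ anch ∧ v ∈ e a}.Finite := fun v => by
    by_contra h
    obtain ⟨F, h1, h2⟩ := Set.Infinite.exists_subset_card_eq h (2 ^ (k0 * (4 * T)) + 1)
    have := hdeg v F fun a ha => h1 ha
    omega
  have key : ∀ t : Finset V, ∃ φ : t → α, ∀ a ∈ t.biUnion fun v => (fin v).toFinset,
      ∀ M ≤ Mmax, ∀ th ∈ (𝒟 a M).image fun th => th ∘ Subtype.val,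
      (∀ v ∈ (e a).subtype (· ∈ t), d (φ v) ≤ th v + s2) →
      ((((e a).subtype (· ∈ t)).filter fun v => |d (φ v) - th v| ≤ s1).card : ℝ) ≤
        θ * (M + (T : ℝ)) / 2 := fun t => by
    have mem : ∀ a ∈ t.biUnion fun v => (fin v).toFinset, a ∈ anch := fun a ha => by
      obtain ⟨v, -, h⟩ := mem_biUnion.1 ha
      exact ((Set.Finite.mem_toFinset _).1 h).1
    convert Lab.avoid d k0 c1 u T hT hθ hu hw t A (t.biUnion fun v => (fin v).toFinset)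
      (fun a => (e a).subtype (· ∈ t)) (fun a M => (𝒟 a M).image fun th => th ∘ Subtype.val) Mmax
      (fun a ha => by
        rw [card_subtype]
        exact (card_filter_le _ _).trans (he a (mem a ha)))
      (fun v => hdeg v _ fun a ha => by
        simp only [mem_filter, mem_subtype] at ha
        exact ⟨mem a ha.1, ha.2⟩)
      (fun a M => card_image_le.trans (hD a M))
  choose φ hφ using key
  obtain ⟨χ, hχ⟩ := Finset.rado_selection_subtype (β := fun _ => α) φ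
  refine ⟨χ, fun a ha M hM th hth hle => ?_⟩
  rcases (e a).eq_empty_or_nonempty with h0 | ⟨v0, hv0⟩
  · rw [h0, filter_empty, card_empty, Nat.cast_zero]
    positivity
  obtain ⟨t, hst, h⟩ := hχ (e a)
  have h' : ∀ v : t, v.1 ∈ e a → φ t v = χ v := fun v hv => (h ⟨v, hv⟩).symm
  refine le_trans ?_ (hφ t a (mem_biUnion.2 ⟨v0, hst hv0, (Set.Finite.mem_toFinset _).2 ⟨ha, hv0⟩⟩)
    M hM _ (mem_image_of_mem _ hth) fun v hv => ?_)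
  · refine Nat.cast_le.2 (card_le_card_of_surjOn Subtype.val fun v hv => ?_)
    obtain ⟨h1, h2⟩ := mem_filter.1 hv
    refine ⟨⟨v, hst h1⟩, mem_coe.2 (mem_filter.2 ⟨mem_subtype.2 h1, ?_⟩), rfl⟩
    rw [h' _ h1]
    exact h2
  · rw [h' _ (mem_subtype.1 hv)]
    exact hle _ (mem_subtype.1 hv)

theorem labels_inf (k0 c1 : ℕ) (hk : 0 < k0) (θ : ℝ) (hθ : 0 < θ) :
    ∃ n : ℕ, 0 < n ∧ 16 ∣ n ∧ ∀ (V A : Type) (anch : Set A) (e : A → Finset V)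
      (𝒟 : A → ℕ → Finset (V → ℝ)) (Mmax : ℕ),
      (∀ a ∈ anch, (e a).card ≤ 2 ^ (k0 * (4 * n ^ 3))) →
      (∀ v (F : Finset A), (∀ a ∈ F, a ∈ anch ∧ v ∈ e a) → F.card ≤ 2 ^ (k0 * (4 * n ^ 3))) →
      (∀ a M, (𝒟 a M).card ≤ 2 ^ (c1 * (M + n ^ 3))) →
      ∃ δ : V → ℝ, (∀ v, 0 ≤ δ v ∧ δ v ≤ (n : ℝ) ^ 6 / 2) ∧
        ∀ a ∈ anch, ∀ M ≤ Mmax, ∀ th ∈ 𝒟 a M, (∀ v ∈ e a, δ v ≤ th v + 2 * (n : ℝ) ^ 3) →
          (((e a).filter fun v => |δ v - th v| ≤ 8 * (n : ℝ) ^ 2).card : ℝ) ≤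
            θ * (M + (n : ℝ) ^ 3) / 2 := by
  obtain ⟨u, hu⟩ := exists_nat_ge (((c1 + 8 * k0 + 5 : ℕ) : ℝ) / (θ / 2))
  rw [div_le_iff₀ (by positivity)] at hu
  obtain ⟨l, hl⟩ : ∃ l : ℕ, l = 2 ^ (48 * k0 + 1 + u) := ⟨_, rfl⟩
  have hl0 : 0 < l := by rw [hl]; positivity
  obtain ⟨n, hn⟩ : ∃ n : ℕ, n = 272 * k0 * l := ⟨_, rfl⟩
  have hn8 : 8 ≤ n := by
    have := Nat.mul_pos hk hl0
    rw [hn, mul_assoc]
    omega
  have hn0 : 0 < n := by omega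
  refine ⟨n, hn0, ⟨17 * k0 * l, by rw [hn]; ring⟩, ?_⟩
  intro V A anch e 𝒟 Mmax he hdeg hD
  have hnR : (n : ℝ) = 272 * k0 * l := by rw [hn]; push_cast; ring
  have hn8R : (8 : ℝ) ≤ n := by exact_mod_cast hn8
  have hkR : (1 : ℝ) ≤ k0 := by exact_mod_cast hk
  have hlR : (0 : ℝ) < l := by exact_mod_cast hl0
  have hsq : (0 : ℝ) < (n : ℝ) ^ 2 := by positivity
  have : Nonempty (Fin l × Fin (2 ^ (k0 * (4 * n ^ 3)))) := ⟨(⟨0, hl0⟩, ⟨0, by positivity⟩)⟩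
  have hkey : (k0 : ℝ) * l * (17 * (n : ℝ) ^ 2) = (n : ℝ) ^ 3 / 16 := by
    rw [pow_succ (n : ℝ) 2]
    nth_rewrite 3 [hnR]
    ring
  obtain ⟨φ, hφ⟩ := avoid_inf
    (fun x : Fin l × Fin (2 ^ (k0 * (4 * n ^ 3))) =>
      (Lab.lev l (k0 * (4 * n ^ 3)) x : ℝ) * (17 * (n : ℝ) ^ 2))
    (s1 := 8 * (n : ℝ) ^ 2) (s2 := 2 * (n : ℝ) ^ 3) k0 c1 u (n ^ 3) (by positivity) hθ hu
    (fun th => Lab.sum_wgt l _ (48 * k0 + 1) u hl (by positivity) (by linarith) (by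
      push_cast
      have : 8 * (n : ℝ) ^ 2 ≤ (n : ℝ) ^ 3 := by nlinarith
      nlinarith) th) V A anch e 𝒟 Mmax he hdeg hD
  refine ⟨fun v => (Lab.lev l (k0 * (4 * n ^ 3)) (φ v) : ℝ) * (17 * (n : ℝ) ^ 2),
    fun v => ⟨by positivity, ?_⟩, ?_⟩
  · have h1 : Lab.lev l (k0 * (4 * n ^ 3)) (φ v) ≤ k0 * (4 * n ^ 3) * l + k0 * l := by
      unfold Lab.lev
      have h2 := (φ v).1.2
      have h3 : l ≤ k0 * l := Nat.le_mul_of_pos_left _ hk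
      have h4 : (k0 * (4 * n ^ 3) - Nat.size (φ v).2.1) * l ≤ k0 * (4 * n ^ 3) * l :=
        Nat.mul_le_mul_right _ (Nat.sub_le _ _)
      omega
    have h2 : (Lab.lev l (k0 * (4 * n ^ 3)) (φ v) : ℝ) ≤ k0 * (4 * (n : ℝ) ^ 3) * l + k0 * l := by
      exact_mod_cast h1
    have h3 : (1 : ℝ) ≤ (n : ℝ) ^ 3 := one_le_pow₀ (by linarith)
    calc (Lab.lev l (k0 * (4 * n ^ 3)) (φ v) : ℝ) * (17 * (n : ℝ) ^ 2)
        ≤ (k0 * (4 * (n : ℝ) ^ 3) * l + k0 * l) * (17 * (n : ℝ) ^ 2) :=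
          mul_le_mul_of_nonneg_right h2 (by positivity)
      _ = (4 * (n : ℝ) ^ 3 + 1) * ((k0 : ℝ) * l * (17 * (n : ℝ) ^ 2)) := by ring
      _ = (4 * (n : ℝ) ^ 3 + 1) * ((n : ℝ) ^ 3 / 16) := by rw [hkey]
      _ ≤ (n : ℝ) ^ 6 / 2 := by nlinarith
  · intro a ha M hM th hth hle
    have := hφ a ha M hM th hth hle
    push_cast at this
    exact this

end Pool.Agent.Lib.MP_7903c7_al.D
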