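import Pool.Agent.Lib.MP_7903c7_al.RF.Loc
import Pool.Agent.Lib.MP_7903c7_al.D.Defs
import Pool.Agent.Lib.MP_7903c7_al.D.Lab2

set_option autoImplicit false

/-!
The local count for subgroups of arbitrary index.
-/

namespace Pool.Agent.Lib.MP_7903c7_al.D

open Finset RF
open scoped Classical Pointwise

theorem anchors0 {G : Type} [Group G] (C : Subgroup G) :
    ∃ Y : Set G, (∀ y, ∃ c ∈ C, ∃ z ∈ Y, y = c * z) ∧
      ∀ z ∈ Y, ∀ z' ∈ Y, ∀ c ∈ C, z' = c * z → z' = z := by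
  refine ⟨Set.range fun q : Quotient (QuotientGroup.rightRel C) => q.out, fun y => ?_, ?_⟩
  · exact ⟨_, QuotientGroup.rightRel_apply.1 (Quotient.mk_out (s := QuotientGroup.rightRel C) y),
      _, ⟨_, rfl⟩, (inv_mul_cancel_right _ _).symm⟩
  · rintro _ ⟨q, rfl⟩ _ ⟨q', rfl⟩ c hc e
    refine congrArg Quotient.out (Quotient.out_equiv_out.1 ?_).symm
    refine QuotientGroup.rightRel_apply.2 ?_
    simp only at e
    rwa [e, mul_inv_cancel_right]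

theorem local_count0 (k0 : ℕ) (hk : 0 < k0) (θ : ℝ) (hθ : 0 < θ) :
    ∃ n : ℕ, 0 < n ∧ 16 ∣ n ∧ ∀ (G : Type) [Group G] (g : G) (C : Subgroup G) (S : Finset G)
      (r0 Δ : ℕ) (X : Geo0 g C S (4 * n ^ 3) r0 Δ), (1 : G) ∈ S → S.card ≤ 2 ^ k0 →
      Δ ≤ 2 ^ (k0 * (4 * n ^ 3)) → ∀ L n0 : ℕ, 4 * n ^ 3 ≤ L → L + 1 ≤ n0 →
      ∃ δ : X.Q → ℝ, (∀ q, 0 ≤ δ q ∧ δ q ≤ (n : ℝ) ^ 6 / 2) ∧
        ∀ γ ℓ, IsLoop g (L * n0) γ → Len S (L * n0) L γ ℓ → ∀ (t0 : ℤ) (a : ℝ) (A : Finset X.K),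
          (∀ κ σ, Fw n0 (n ^ 3) (fun t => X.phi κ (γ t)) σ + δ (X.cls κ) ≤ a) →
          (∀ κ ∈ A, X.phi κ (γ t0) ≠ 0 ∧ ∃ σ : ℤ, |σ - t0| < n ^ 3 * n0 ∧
            a - (n : ℝ) ^ 2 < Fw n0 (n ^ 3) (fun t => X.phi κ (γ t)) σ + δ (X.cls κ)) →
          (A.card : ℝ) ≤ θ * ((∑ u ∈ Ico (t0 - 2 * (n ^ 3 * n0)) (t0 + 2 * (n ^ 3 * n0)),
            ℓ u : ℕ) + (n : ℝ) ^ 3) := by
  obtain ⟨n, hn, h16, hlab⟩ := labels_inf k0 (k0 + 8) hk θ hθ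
  refine ⟨n, hn, h16, fun G _ g C S r0 Δ X h1 hS hΔ L n0 hL hn0 => ?_⟩
  have n16 : 16 ≤ n := Nat.le_of_dvd hn h16
  have p0 : 0 < n0 := by omega
  have nR : (16 : ℝ) ≤ n := by exact_mod_cast n16
  have one : (1 : G) ∈ (S : Set G) ^ r0 := Set.one_mem_pow (mem_coe.2 h1)
  have sep : ∀ κ κ' y, X.cls κ = X.cls κ' → X.phi κ y ≠ 0 → X.phi κ' y ≠ 0 → κ = κ' :=
    fun κ κ' y a b c => X.sep κ κ' y 1 one a b (by rwa [mul_one])
  obtain ⟨Y, hY1, hY2⟩ := anchors0 C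
  choose seen hs1 hs2 using X.phi_fin
  obtain ⟨cl, cl1, cl2⟩ : ∃ cl : G → Finset X.Q, (∀ y, (cl y).card ≤ Δ) ∧
      ∀ y q, q ∈ cl y ↔ ∃ κ, X.phi κ y ≠ 0 ∧ X.cls κ = q :=
    ⟨fun y => ((seen y).filter fun κ => X.phi κ y ≠ 0).image X.cls,
      fun y => card_image_le.trans ((card_filter_le _ _).trans (hs1 y)), fun y q =>
      mem_image.trans ⟨fun ⟨κ, a, b⟩ => ⟨κ, (mem_filter.1 a).2, b⟩,
        fun ⟨κ, a, b⟩ => ⟨κ, mem_filter.2 ⟨hs2 y κ a, a⟩, b⟩⟩⟩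
  have hkap : ∀ z q, ∃ κ, q ∈ cl z → X.phi κ z ≠ 0 ∧ X.cls κ = q := fun z q => by
    by_cases h : q ∈ cl z
    · exact ((cl2 z q).1 h).imp fun _ k _ => k
    · exact ⟨(X.phi_top 1).choose, fun k => absurd k h⟩
  choose kap hkap using hkap
  choose P hP1 hP2 using Loc.paths S
  have hT := fun M (h : M ≤ L) => rounding n n0 M (by omega)
    (by nlinarith [Nat.mul_le_mul_left (n ^ 3) hn0, Nat.le_mul_of_pos_left L (pow_pos hn 3)])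
  choose! 𝒯 hT1 hT2 using hT
  have pW : (0 : ℤ) < n ^ 3 * n0 := by positivity
  obtain ⟨mx, hmx⟩ := Loc.exists_mx pW
  obtain ⟨δ, hδ, H⟩ := hlab X.Q G Y cl
    (fun z M => if M ≤ L then
      (P M ×ˢ range (M + 1) ×ˢ 𝒯 M ×ˢ range (8 * n ^ 4 + 1)).image fun d v =>
        d.2.2.2 * (n : ℝ) ^ 2 - mx (Loc.Ft n0 (n ^ 3) M
          (fun j => X.phi (kap z v) (z * (d.1 d.2.1)⁻¹ * d.1 j)) d.2.2.1) else ∅) L
    (fun z _ => (cl1 z).trans hΔ)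
    (fun v F hF => by
      obtain ⟨Z, z1, z2⟩ := X.deg v
      have : ∀ y, ∃ z, v ∈ cl y → z ∈ Z ∧ ∃ c ∈ C, y = c * z := fun y => by
        by_cases h : v ∈ cl y
        · obtain ⟨c, c1, z, c2, c3⟩ := z2 _ y (hkap y _ h).2 (hkap y _ h).1
          exact ⟨z, fun _ => ⟨c2, c, c1, c3⟩⟩
        · exact ⟨1, fun k => absurd k h⟩
      choose f hf using this
      refine (card_le_card_of_injOn f (fun y hy => (hf y (hF y hy).2).1)
        fun y hy y' hy' e => ?_).trans (z1.trans hΔ)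
      obtain ⟨-, c, c1, c2⟩ := hf y (hF y hy).2
      obtain ⟨-, c', c1', c2'⟩ := hf y' (hF y' hy').2
      refine hY2 y' (hF y' hy').1 y (hF y hy).1 (c * c'⁻¹) (C.mul_mem c1 (C.inv_mem c1')) ?_
      rw [mul_assoc, c2, e]
      congr 1
      exact (inv_mul_eq_of_eq_mul c2').symm)
    (fun z M => by
      split_ifs with h
      · refine card_image_le.trans ?_
        simp only [card_product, card_range]
        calc _ ≤ (2 ^ k0) ^ M * (2 ^ M * (2 ^ (6 * (M + n ^ 3)) * 2 ^ n ^ 3)) :=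
              Nat.mul_le_mul ((hP1 M).trans (Nat.pow_le_pow_left hS M))
                (Nat.mul_le_mul Nat.lt_two_pow_self (Nat.mul_le_mul (hT1 M h) (Loc.num n16)))
          _ ≤ _ := by
              rw [← pow_mul, ← pow_add, ← pow_add, ← pow_add]
              exact Nat.pow_le_pow_right two_pos (by nlinarith [Nat.zero_le (k0 * n ^ 3)])
      · simp)
  refine ⟨δ, hδ, fun γ ℓ hγ ⟨l1, l2, l3⟩ t0 a A ha hA => ?_⟩
  rcases A.eq_empty_or_nonempty with rfl | ⟨κ0, hκ0⟩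
  · rw [card_empty, Nat.cast_zero]
    positivity
  obtain ⟨c, hcC, z, hz, hcz⟩ := hY1 (γ t0)
  have ML := (sum_window_le (L * n0) (4 * n ^ 3 * n0) (Nat.mul_le_mul_right _ hL) ℓ l1
    (t0 - 2 * (n ^ 3 * n0))).trans l3
  have un := Loc.unroll l2 (t0 - 2 * (n ^ 3 * n0)) (4 * n ^ 3 * n0)
  rw [show t0 - 2 * (n ^ 3 * n0 : ℤ) + (4 * n ^ 3 * n0 : ℕ) = t0 + 2 * (n ^ 3 * n0) by
    push_cast; ring] at ML un
  generalize ∑ u ∈ Ico (t0 - 2 * (n ^ 3 * n0 : ℤ)) (t0 + 2 * (n ^ 3 * n0)), ℓ u = M at ML un ⊢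
  obtain ⟨y, t, u1, u2, u3, -, u5⟩ := un
  obtain ⟨j0, j1, j2, -⟩ := u5 t0 (by omega) (by omega)
  obtain ⟨p, p1, p2⟩ := hP2 M y u1
  have ey : ∀ j ≤ M, z * (p j0)⁻¹ * p j = c⁻¹ * y j := fun j hj => by
    rw [← inv_mul_eq_of_eq_mul hcz, j2, p2 j0 j1, p2 j hj]
    group
  have K1 : ∀ κ, X.phi κ (γ t0) ≠ 0 → X.cls κ ∈ cl z ∧
      ∀ j ≤ M, X.phi (kap z (X.cls κ)) (z * (p j0)⁻¹ * p j) = X.phi κ (y j) := fun κ h => by
    have k : X.phi (X.act c⁻¹ κ) z ≠ 0 := by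
      rwa [← inv_mul_eq_of_eq_mul hcz, X.phi_act _ (C.inv_mem hcC)]
    have k' := X.cls_act _ (C.inv_mem hcC) κ
    have m := (cl2 z _).2 ⟨_, k, k'⟩
    refine ⟨m, fun j hj => ?_⟩
    rw [sep _ _ z ((hkap z _ m).2.trans k'.symm) (hkap z _ m).1 k, ey j hj,
      X.phi_act _ (C.inv_mem hcC)]
  have hF : ∀ κ (σ : ℤ), |σ| < n ^ 3 * n0 → Fw n0 (n ^ 3) (fun t => X.phi κ (γ t)) (t0 + σ) =
      Loc.Ft n0 (n ^ 3) M (fun j => X.phi κ (y j)) (fun j => t j - t0) σ := fun κ σ hσ => by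
    rw [Loc.Fw_steps n0 (n ^ 3) M p0 _ (X.phi κ (y 0))
      (fun j => X.phi κ (y (j + 1)) - X.phi κ (y j)) t _ fun u hu => ?_, Loc.Ft]
    · simp only [show ∀ j, t0 + σ - t j = σ - (t j - t0) from fun j => by ring]
    · rw [abs_lt] at hu hσ
      push_cast at hu
      obtain ⟨m, m1, m2, m3⟩ := u5 u (by omega) (by omega)
      rw [m2]
      exact Loc.tele (fun j => X.phi κ (y j)) m1 _ m3
  have hD : ∀ κ j, |if j < M then X.phi κ (y (j + 1)) - X.phi κ (y j) else 0| ≤ 1 := fun κ j => by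
    split_ifs with h
    · simpa using X.phi_lip κ (y j) _ (u1 j h)
    · simp
  obtain ⟨t', t1, t2, A', a1, a2, a3⟩ := hT2 M ML (fun j => t j - t0)
    (fun i j a b => sub_le_sub_right (u2 i j a b) _)
    (fun j hj => by have := u3 j hj; constructor <;> omega) X.K A _ hD
  have a0 : 0 ≤ a ∧ a ≤ (8 * n ^ 4 : ℕ) * (n : ℝ) ^ 2 := by
    obtain ⟨k1, σ, -, k2⟩ := hA κ0 hκ0
    have k3 := ha κ0 σ
    have k4 := hδ (X.cls κ0)
    have k5 := Fw_mono n0 (n ^ 3) (σ := σ) fun t _ => X.phi_nonneg κ0 (γ t)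
    have k6 := Fw_mono n0 (n ^ 3) (σ := σ) fun t _ => X.phi_le κ0 (γ t)
    rw [Fw_const _ _ p0] at k5 k6
    push_cast at k5 k6 ⊢
    have k7 : (n : ℝ) ^ 2 ≤ n ^ 6 := pow_le_pow_right₀ (by linarith) (by norm_num)
    have k8 : (0 : ℝ) ≤ n ^ 2 := by positivity
    constructor <;> nlinarith
  have n2 : (0 : ℝ) < n ^ 2 := by positivity
  have i1 : a ≤ ⌈a / (n : ℝ) ^ 2⌉₊ * (n : ℝ) ^ 2 := (div_le_iff₀ n2).1 (Nat.le_ceil _)
  have i2 : ⌈a / (n : ℝ) ^ 2⌉₊ * (n : ℝ) ^ 2 ≤ a + n ^ 2 := by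
    have := mul_le_mul_of_nonneg_right (Nat.ceil_lt_add_one (div_nonneg a0.1 n2.le)).le n2.le
    rwa [add_mul, div_mul_cancel₀ _ n2.ne', one_mul] at this
  have i3 : ⌈a / (n : ℝ) ^ 2⌉₊ ≤ 8 * n ^ 4 := Nat.ceil_le.2 ((div_le_iff₀ n2).2 a0.2)
  have up : ∀ κ (h : X.phi κ (γ t0) ≠ 0) (σ : ℤ), |σ| < n ^ 3 * n0 →
      Loc.Ft n0 (n ^ 3) M (fun j => X.phi κ (y j)) (fun j => t j - t0) σ +
        δ (X.cls κ) ≤ a := fun κ h σ hσ => by
    have := ha κ (t0 + σ)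
    rwa [hF κ σ hσ] at this
  have key := H z hz M ML _ (by
    rw [if_pos ML]
    exact mem_image.2 ⟨(p, j0, t', ⌈a / (n : ℝ) ^ 2⌉₊), by
      simp only [mem_product, mem_range]
      exact ⟨p1, by omega, t1, by omega⟩, rfl⟩) fun q m => by
    have k : X.phi (X.act c (kap z q)) (γ t0) ≠ 0 := by
      rw [hcz, X.phi_act _ hcC]
      exact (hkap z q m).1
    have k' : X.cls (X.act c (kap z q)) = q := (X.cls_act _ hcC _).trans (hkap z q m).2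
    generalize X.act c (kap z q) = κ at k k'
    subst k'
    simp only
    rw [Loc.Ft_congr _ _ _ (K1 κ k).2]
    obtain ⟨σ, s1, s2⟩ := (hmx (Loc.Ft n0 (n ^ 3) M (fun j => X.phi κ (y j)) t')).2
    have b := Loc.Ft_sub n0 (n ^ 3) M (fun j => X.phi κ (y j)) (fun j => t j - t0) t' σ
    have b' := (le_abs_self _).trans ((abs_sum_le_sum_abs _ _).trans ((sum_le_sum fun j _ =>
      (abs_mul _ _).trans_le (mul_le_of_le_one_left (abs_nonneg _) (hD κ j))).trans (t2 σ)))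
    linarith [up κ k σ s1]
  have fin := (Nat.cast_le (α := ℝ)).2 (card_le_card_of_injOn (s := A'.attach)
    (fun κ => X.cls κ.1)
    (fun κ _ => ?_) fun κ _ κ' _ e => Subtype.ext (sep _ _ _ e
      (hA _ (a1 κ.2)).1 (hA _ (a1 κ'.2)).1)) |>.trans key
  · have : (A.card : ℝ) ≤ 2 * A'.card := by exact_mod_cast a2
    rw [card_attach] at fin
    linarith
  · obtain ⟨κ, hκ⟩ := κ
    obtain ⟨k, σ, s1, s2⟩ := hA κ (a1 hκ)
    refine mem_coe.2 (mem_filter.2 ⟨(K1 κ k).1, ?_⟩)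
    simp only
    rw [Loc.Ft_congr _ _ _ (K1 κ k).2]
    obtain ⟨m1, σ', m2, m3⟩ := hmx (Loc.Ft n0 (n ^ 3) M (fun j => X.phi κ (y j)) t')
    have b := a3 κ hκ _ s1
    have b' := a3 κ hκ _ m2
    rw [← Loc.Ft_sub n0 (n ^ 3) M (fun j => X.phi κ (y j)), abs_le] at b b'
    have f := hF κ _ s1
    rw [add_sub_cancel] at f
    rw [f] at s2
    rw [abs_le]
    constructor <;> linarith [m1 _ s1, up κ k σ' m2]

end Pool.Agent.Lib.MP_7903c7_al.D
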