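import Mathlib

set_option autoImplicit false

/-!
The class of tame families of subgroups.
-/

namespace Pool.Agent.Lib.MP_7903c7_al.D

variable {G : Type} [Group G]

/-- The group `C` has a resolution of `ℤ` of length at most `d` by permutation modules on which
`g` acts trivially, and every cell stabiliser meets every conjugate of `B` inside a member of `𝓗`
that contains `g`. -/
def Res (g : G) (d : ℕ) (B : Finset G) (𝓗 : Set (Subgroup G)) (C : Subgroup G) : Prop :=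
  ∃ (Y : ℕ → Type) (act : ∀ i, C →* Equiv.Perm (Y i))
    (bd : ∀ i, (Y (i + 1) →₀ ℤ) →ₗ[ℤ] (Y i →₀ ℤ)),
    (∀ i (c : C) (x : Y (i + 1) →₀ ℤ),
      bd i (Finsupp.mapDomain (act (i + 1) c) x) = Finsupp.mapDomain (act i c) (bd i x)) ∧
    Nonempty (Y 0) ∧
    Function.Exact (bd 0) (Finsupp.linearCombination ℤ fun _ : Y 0 => (1 : ℤ)) ∧
    (∀ i, Function.Exact (bd (i + 1)) (bd i)) ∧ IsEmpty (Y (d + 1)) ∧
    (∀ i (c : C), (c : G) = g → act i c = 1) ∧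
    ∀ i (y : Y i) (x : G), ∃ H ∈ 𝓗, g ∈ H ∧
      ∀ c : C, act i c y = y → (∃ b ∈ B, (c : G) = x * b * x⁻¹) → (c : G) ∈ H

/-- Tame families of subgroups for the element `g`. -/
inductive Tame (g : G) : Set (Subgroup G) → Prop
  | ab (𝓕 : Set (Subgroup G)) :
      (∀ C ∈ 𝓕, g ∈ C ∧ ∀ m : ℕ, 0 < m → g ^ m ∉ ⁅C, C⁆) → Tame g 𝓕
  | step (𝓕 : Set (Subgroup G)) (d : ℕ) (v : Finset G → ℕ) (𝓗 : Finset G → Set (Subgroup G)) :
      (∀ B, Tame g (𝓗 B)) →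
      (∀ B, ∀ C ∈ 𝓕, ∃ C' : Subgroup G, C' ≤ C ∧ g ∈ C' ∧ C'.relIndex C ≠ 0 ∧
        C'.relIndex C ≤ v B ∧ Res g d B (𝓗 B) C') → Tame g 𝓕

end Pool.Agent.Lib.MP_7903c7_al.D
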