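import Pool.Agent.Lib.MP_7903c7_al.D.At2
import Pool.Agent.Lib.MP_7903c7_al.D.Alg4
import Pool.Agent.Lib.MP_7903c7_al.D.Alg2
import Pool.Agent.Lib.MP_7903c7_al.D.Abc0
import Pool.Agent.Lib.MP_7903c7_al.D.Tame
import Pool.Agent.Lib.MP_7903c7_al.B.Fin

set_option autoImplicit false

/-!
Tame families are uniformly nilpotent, and the trace vanishes.
-/

namespace Pool.Agent.Lib.MP_7903c7_al.D

open Finset RF LS.CutCore
open scoped Classical Pointwise

variable {G : Type} [Group G]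

theorem at_tame {g : G} {𝓕 : Set (Subgroup G)} (h : Tame g 𝓕) (S : Finset G)
    (h1 : (1 : G) ∈ S) (hS : ∀ s ∈ S, s⁻¹ ∈ S) {p : ℕ} (hp : p.Prime) :
    ∀ e, 0 < e → At g S p e 𝓕 := by
  induction h with
  | ab 𝓕 h =>
    intro e he
    obtain ⟨L0, H⟩ := at_ab g S h1 hS hp he
    refine ⟨L0, fun L hL m => ?_⟩
    obtain ⟨n00, H⟩ := H L hL m
    exact ⟨n00, fun n0 hn0 Λ _ J hJ C hC => H n0 hn0 Λ J hJ C (h C hC)⟩
  | step 𝓕 d v 𝓗 _ h ih =>
    intro e he
    obtain ⟨B, e', he', H⟩ := at_loc g S h1 hS hp (e := e * (2 * (d + 1))) (by positivity)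
    obtain ⟨L0, H⟩ := H (𝓗 B) (ih B e' he')
    refine ⟨L0 + e * (2 * v B), fun L hL m => ?_⟩
    obtain ⟨n00, H⟩ := H L (by omega) m
    refine ⟨n00, fun n0 hn0 Λ _ J hJ C hC => ?_⟩
    obtain ⟨C', -, hg, hi, hv, Y, act, bd, r1, r2, r3, r4, r5, r6, r7⟩ := h B C hC
    have key := (Nil.dim (rt_iter _) (rt_smul _) d Y act bd r1 r2 r3 r4 r5 r6 (GG_free g S _ L m)
      fun i y => H n0 hn0 Λ J hJ (stb (act i) y) fun x => by
        obtain ⟨H, k1, k2, k3⟩ := r7 i y x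
        refine ⟨H, k1, k2, fun c hc hb => ?_⟩
        obtain ⟨hc', e⟩ := mem_stb.1 hc
        exact k3 ⟨c, hc'⟩ e hb).fin (rt_smul _) hp hJ hg hi hv
    rw [← pow_mul, ← pow_add] at key
    have e1 : 2 * (d + 1) * (L / (e * (2 * (d + 1)))) ≤ L / e := by
      rw [← Nat.div_div_eq_div_mul]; exact Nat.mul_div_le _ _
    have e2 : 2 * v B ≤ L / e := by
      rw [Nat.le_div_iff_mul_le he]; nlinarith
    exact key.up (by nlinarith) (by nlinarith)

theorem core {I k : Type} [Fintype I] [DecidableEq I] [Field k] [IsAlgClosed k]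
    {p : ℕ} (hp : p.Prime) [CharP k p] {A : Matrix I I (MonoidAlgebra k G)} (hA : A * A = A)
    {g : G} (H : Tame g {Subgroup.centralizer {g}}) : tau (fun h => IsConj h g) A = 0 := by
  obtain ⟨S, h1, hS, hl⟩ := lift hp hA g
  obtain ⟨L0, H⟩ := at_tame H S h1 hS hp 100 (by norm_num)
  obtain ⟨n00, H⟩ := H (100 * (L0 + 1)) (by omega) (4 * (L0 + 1) + 1)
  obtain ⟨Λ, _, E, U, hJ, hU, hE, hfil, hfin⟩ := hl (40 * (L0 + 1)) (by omega)
  obtain ⟨n0, hn0⟩ : ∃ n0, n0 = p ^ (40 * (L0 + 1)) * (n00 + 1) := ⟨_, rfl⟩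
  have hn0' : n00 + 1 ≤ n0 := hn0 ▸ Nat.le_mul_of_pos_left _ (pow_pos hp.pos _)
  have H := H n0 (by omega) Λ _ hJ _ rfl
  rw [Nat.mul_div_cancel_left _ (by norm_num)] at H
  have key := nil_final (⟨g, Subgroup.centralizer {g}, E, U,
      Subgroup.mem_centralizer_singleton_iff.2 rfl,
      fun _ hc => Subgroup.mem_centralizer_singleton_iff.1 hc, by simp, hU, hE⟩ : Dat G I Λ) S h1
    hJ hfil (100 * (L0 + 1) * n0) (100 * (L0 + 1)) (L0 + 1) (Nat.mul_pos (by omega) (by omega))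
    (by rw [hn0]; push_cast; rw [hJ]; ring) (by omega) _ H
  refine hfin (L0 + 1) 1 (by omega) hp.not_dvd_one ?_
  simpa [Dat.tr] using key

/-- The statement over an arbitrary domain. -/
theorem vanish {I R : Type} [Fintype I] [DecidableEq I] [CommRing R] [IsDomain R]
    {A : Matrix I I (MonoidAlgebra R G)} (hA : IsIdempotentElem A) {g : G}
    (H : Tame g {Subgroup.centralizer {g}}) :
    ∑ i : I, ∑ᶠ (h : G) (_ : IsConj h g), (A i i).coeff h = 0 := by
  suffices h : tau (fun h => IsConj h g) A = 0 by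
    rw [tau_apply] at h
    simpa only [tau0_eq_finsum] using h
  by_contra hne
  obtain ⟨k, _, p, hp, _, _, A', h1, h2⟩ := reduce_charP _ hA.eq hne
  exact h2 (core hp h1 H)

end Pool.Agent.Lib.MP_7903c7_al.D
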